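import Pool.Agent.H78.AP.Vm

/-!
# One residue class
-/

set_option autoImplicit false

open Finset

namespace H78AP

open Pool.Agent.H78.CB H69PG Pool.Agent.H63.SG

/-- some `k ≤ K` works, with all prime factors above `z` -/
def Gd (z K t : ℕ) : Prop := ∃ k : ℕ, 1 < k ∧ k ≤ K ∧ ∀ l : ℕ, l.Prime → l ∣ t + cb k → z < l

/-- `a` is coprime to `2310` -/
def Cop (a : ℕ) : Prop := Nat.Coprime a 2310

lemma exp_lin {A b : ℝ} (hb : 0 ≤ b) (hbA : b ≤ A + 1) : Real.exp (2 * b) ≤ 1 + 2 * Real.exp (2 * (A + 1)) * b := by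
  have h1 := Real.add_one_le_exp (-(2 * b))
  have h2 : Real.exp (2 * b) * (1 - 2 * b) ≤ 1 := by
    calc Real.exp (2 * b) * (1 - 2 * b) ≤ Real.exp (2 * b) * Real.exp (-(2 * b)) :=
          mul_le_mul_of_nonneg_left (by linarith) (Real.exp_pos _).le
      _ = 1 := by rw [← Real.exp_add]; simp
  have h3 : Real.exp (2 * b) ≤ Real.exp (2 * (A + 1)) := Real.exp_le_exp.2 (by linarith)
  nlinarith

open Classical in
theorem classA (ε : ℝ) (hε : 0 < ε) (hε1 : ε ≤ 1 / 16) : ∃ b0 : ℕ, ∃ L : ℝ, 0 < L ∧ ∃ X0 : ℕ, ∀ x y : ℕ, X0 ≤ x → (x : ℝ) ^ (1 / 2 : ℝ) ≤ y →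
    2 * y ≤ x → ∀ K : ℕ, L * Real.log x ≤ K * Real.log K → (K : ℝ) ≤ Real.log x → ∀ a : ℕ, Cop a →
    ((((Ioc y x).filter (fun t => t.Prime ∧ t ≡ a [MOD 2310] ∧ ¬ Gd (zl b0 x) K t)).card : ℕ) : ℝ) ≤
      22 * ε * ((((Ioc y x).filter (fun t => t.Prime ∧ t ≡ a [MOD 2310])).card : ℕ) : ℝ) := by
  obtain ⟨C0, hC0, hcore⟩ := coreA
  obtain ⟨b0, hb0⟩ : ∃ b0 : ℕ, b0 = C0 + ⌈1 / ε⌉₊ := ⟨_, rfl⟩
  have hexp : Real.exp (-(b0 : ℝ)) ≤ ε := by
    have h1 : 1 / ε ≤ b0 := by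
      rw [hb0]
      push_cast
      have := Nat.le_ceil (1 / ε)
      have h0 : (0 : ℝ) ≤ C0 := Nat.cast_nonneg _
      linarith
    have h2 := Real.add_one_le_exp (b0 : ℝ)
    rw [Real.exp_neg, inv_le_comm₀ (Real.exp_pos _) hε]
    rw [one_div] at h1
    linarith
  have hb0C : C0 ≤ b0 := by omega
  clear hb0
  have hMc : ∀ l : ℕ, l.Prime → 12 < l → Nat.Coprime 2310 l := by
    intro l hl hl12
    rw [Nat.coprime_comm, hl.coprime_iff_not_dvd]
    intro hd
    have := dvd2310 hl hd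
    omega
  obtain ⟨X1, hX1⟩ := hcore b0 hb0C 2310 (by norm_num) hMc
  obtain ⟨A, hA, hgood⟩ := goodT
  obtain ⟨B, hB⟩ : ∃ B : ℝ, B = 2 * Real.exp (2 * (A + 1)) := ⟨_, rfl⟩
  have hB0 : 0 < B := by rw [hB]; positivity
  obtain ⟨K0, hK0⟩ := hgood (ε / (64 * B)) (by positivity)
  obtain ⟨c5, hc5, hV5⟩ := VK_low A
  obtain ⟨c, hc⟩ : ∃ c, c = min c5 1 := ⟨_, rfl⟩
  have hc0 : 0 < c := by rw [hc]; positivity
  have hc1 : c ≤ 1 := by rw [hc]; exact min_le_right _ _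
  have hcc5 : c ≤ c5 := by rw [hc]; exact min_le_left _ _
  obtain ⟨φ, hφ⟩ : ∃ φ : ℝ, φ = (Nat.totient 2310 : ℝ) := ⟨_, rfl⟩
  have hφ0 : 0 < φ := by
    rw [hφ]
    exact_mod_cast Nat.totient_pos.2 (by norm_num)
  have hδ : 0 < dl b0 := by
    unfold dl
    positivity
  -- growth
  have g1 : ∀ᶠ x : ℝ in Filter.atTop, 45 * Real.log x ^ 2 ≤ x ^ dl b0 := by
    have h := (isLittleO_log_rpow_rpow_atTop 2 hδ).bound (show (0 : ℝ) < 1 / 45 by norm_num)
    filter_upwards [h, Filter.eventually_ge_atTop 1] with x h1 h2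
    rw [Real.norm_of_nonneg (Real.rpow_nonneg (Real.log_nonneg h2) _), Real.norm_of_nonneg (by positivity), Real.rpow_two] at h1
    linarith
  have g2 : ∀ᶠ x : ℝ in Filter.atTop, max (max 3 (K0 : ℝ)) (2 * φ / (c ^ 2 * ε)) ≤ Real.log x := Real.tendsto_log_atTop.eventually_ge_atTop _
  have g3 : ∀ᶠ x : ℝ in Filter.atTop, (13 : ℝ) ≤ x ^ dl b0 := (tendsto_rpow_atTop hδ).eventually_ge_atTop 13
  -- large K
  have g4 : ∀ᶠ x : ℝ in Filter.atTop, (K0 + 3 : ℝ) ^ 2 < 12 / (ε * c) * Real.log x := by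
    have : Filter.Tendsto (fun x : ℝ => 12 / (ε * c) * Real.log x) Filter.atTop Filter.atTop :=
      Real.tendsto_log_atTop.const_mul_atTop (by positivity)
    exact this.eventually_gt_atTop _
  obtain ⟨X2, hX2⟩ := Filter.eventually_atTop.1 (tendsto_natCast_atTop_atTop.eventually (g1.and (g2.and (g3.and g4))))
  refine ⟨b0, 12 / (ε * c), by positivity, X1 + X2 + 400, fun x y hx hyy hyx K hKL hKx a ha => ?_⟩
  obtain ⟨g1, g2, g3, g4⟩ := hX2 x (by omega)
  have hl3 : 3 ≤ Real.log x := (le_max_left _ _).trans ((le_max_left _ _).trans g2)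
  have hlφ : 2 * φ / (c ^ 2 * ε) ≤ Real.log x := (le_max_right _ _).trans g2
  have hx0 : (0 : ℝ) < x := by exact_mod_cast (by omega : 0 < x)
  have hl0 : 0 < Real.log x := by linarith
  have hKbig : K0 + 3 < K := by
    by_contra hcon
    rw [not_lt] at hcon
    have h1 : (K : ℝ) ≤ K0 + 3 := by exact_mod_cast hcon
    have h2 : Real.log K ≤ K := by
      rcases Nat.eq_zero_or_pos K with h | h
      · rw [h]; simp
      · exact (Real.log_le_sub_one_of_pos (by exact_mod_cast h)).trans (by linarith)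
    have h3 : (0 : ℝ) ≤ K := Nat.cast_nonneg _
    have h4 : (K : ℝ) * Real.log K ≤ (K0 + 3 : ℝ) ^ 2 := by
      calc (K : ℝ) * Real.log K ≤ K * K := mul_le_mul_of_nonneg_left h2 h3
        _ ≤ (K0 + 3 : ℝ) ^ 2 := by nlinarith
    linarith
  have hKr : (3 : ℝ) ≤ K := by exact_mod_cast (by omega : 3 ≤ K)
  have hlK : 1 ≤ Real.log K := by
    rw [Real.le_log_iff_exp_le (by linarith)]
    have := Real.exp_one_lt_d9
    linarith
  obtain ⟨S, hSc, hS, hbad⟩ := hK0 K (by omega)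
  obtain ⟨z, hz⟩ : ∃ z, z = zl b0 x := ⟨_, rfl⟩
  have hz12 : 12 ≤ z := by
    rw [hz]
    unfold zl
    exact Nat.le_floor (by push_cast; linarith)
  have hlKx : Real.log K ≤ Real.log x := by
    refine Real.log_le_log (by linarith) (hKx.trans ?_)
    exact (Real.log_le_sub_one_of_pos hx0).trans (by linarith)
  have hprz : pr K ≤ z := by
    rw [hz]
    unfold zl
    refine Nat.le_floor (le_trans ?_ g1)
    have hc' := cheb (three_le_pr (by omega : 2 ≤ K))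
    rw [pi_pr (by omega)] at hc'
    have hl := log_pr_le (by omega : 2 ≤ K)
    have h1 : (K : ℝ) * Real.log (pr K : ℝ) ≤ K * (9 * Real.log K) := mul_le_mul_of_nonneg_left hl (by linarith)
    have h2 : (K : ℝ) * Real.log K ≤ Real.log x * Real.log x := mul_le_mul hKx hlKx (by linarith) hl0.le
    rw [sq]
    linarith
  have hzx : Real.log z ≤ Real.log x := by
    refine Real.log_le_log (by exact_mod_cast (by omega : 0 < z)) ?_
    rw [hz]
    unfold zl
    refine (Nat.floor_le (Real.rpow_nonneg hx0.le _)).trans ?_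
    have hd1 : dl b0 ≤ 1 := by
      unfold dl
      rw [div_le_one (by positivity)]
      have : (1 : ℝ) ≤ ((4 * b0 + 10 : ℕ) : ℝ) := by exact_mod_cast (by omega : 1 ≤ 4 * b0 + 10)
      linarith
    calc (x : ℝ) ^ dl b0 ≤ (x : ℝ) ^ (1 : ℝ) := Real.rpow_le_rpow_of_exponent_le (by exact_mod_cast (by omega : 1 ≤ x)) hd1
      _ = x := Real.rpow_one _
  have hlz0 : 0 < Real.log z := Real.log_pos (by exact_mod_cast (by omega : 1 < z))
  obtain ⟨Y, hY⟩ : ∃ Y : ℝ, Y = (Pool.Agent.H17.ZB.Li x - Pool.Agent.H17.ZB.Li y) / φ := ⟨_, rfl⟩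
  obtain ⟨ρ, hρ⟩ : ∃ ρ : ℝ, ρ = (x : ℝ) / Real.log x ^ 6 := ⟨_, rfl⟩
  have hρ0 : 0 ≤ ρ := by rw [hρ]; exact div_nonneg hx0.le (pow_nonneg hl0.le 6)
  have hy2 : 2 ≤ y := by
    have h1 : (4 : ℝ) ≤ (x : ℝ) ^ (1 / 2 : ℝ) := by
      rw [← Real.sqrt_eq_rpow]
      apply Real.le_sqrt_of_sq_le
      have : (400 : ℝ) ≤ x := by exact_mod_cast (by omega : 400 ≤ x)
      linarith
    have h2 : (4 : ℝ) ≤ y := h1.trans hyy
    have h3 : 4 ≤ y := by exact_mod_cast h2
    omega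
  have hy13 : 13 ≤ y := by
    have h1 : (20 : ℝ) ≤ (x : ℝ) ^ (1 / 2 : ℝ) := by
      rw [← Real.sqrt_eq_rpow]
      apply Real.le_sqrt_of_sq_le
      have : (400 : ℝ) ≤ x := by exact_mod_cast (by omega : 400 ≤ x)
      linarith
    have h2 : (20 : ℝ) ≤ y := h1.trans hyy
    have h3 : 20 ≤ y := by exact_mod_cast h2
    omega
  have hYlow : (x : ℝ) / (2 * φ * Real.log x) ≤ Y := by
    have hli := Core_li (x := (x : ℝ)) (y := (y : ℝ)) (by exact_mod_cast hy2) (by exact_mod_cast (by omega : y ≤ x))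
    rw [hY, le_div_iff₀ hφ0]
    refine le_trans ?_ hli
    rw [le_div_iff₀ hl0]
    have e : (x : ℝ) / (2 * φ * Real.log x) * φ * Real.log x = x / 2 := by field_simp
    rw [e]
    have : (2 : ℝ) * y ≤ x := by exact_mod_cast hyx
    linarith
  have hY0 : 0 < Y := lt_of_lt_of_le (div_pos hx0 (mul_pos (mul_pos two_pos hφ0) hl0)) hYlow
  obtain ⟨Cu, hCu⟩ : ∃ Cu : ℝ, Cu = Real.log x / (c * Real.log K) := ⟨_, rfl⟩
  have hcK : 0 < c * Real.log K := by positivity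
  have hCu1 : 1 ≤ Cu := by
    rw [hCu, one_le_div hcK]
    nlinarith
  have hCux : Cu ≤ Real.log x / c := by
    rw [hCu]
    exact div_le_div_of_nonneg_left hl0.le hc0 (by nlinarith)
  have hρY : Cu ^ 2 * ρ ≤ ε * Y := by
    have h1 : Cu ^ 2 ≤ (Real.log x / c) ^ 2 := pow_le_pow_left₀ (by linarith) hCux 2
    calc Cu ^ 2 * ρ ≤ (Real.log x / c) ^ 2 * ρ := mul_le_mul_of_nonneg_right h1 hρ0
      _ ≤ ε * ((x : ℝ) / (2 * φ * Real.log x)) := by
          rw [hρ]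
          rw [div_le_iff₀ (by positivity)] at hlφ
          have e1 : (Real.log x / c) ^ 2 * ((x : ℝ) / Real.log x ^ 6) = x / (c ^ 2 * Real.log x ^ 4) := by
            field_simp
          rw [e1, mul_div_assoc', div_le_div_iff₀ (by positivity) (by positivity)]
          have h2 : 2 * φ ≤ Real.log x ^ 3 * (c ^ 2 * ε) := by
            refine hlφ.trans (mul_le_mul_of_nonneg_right ?_ (by positivity))
            nlinarith [pow_pos hl0 2]
          have h3 : 0 ≤ (x : ℝ) * Real.log x := mul_nonneg hx0.le hl0.le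
          calc (x : ℝ) * (2 * φ * Real.log x) = (x * Real.log x) * (2 * φ) := by ring
            _ ≤ (x * Real.log x) * (Real.log x ^ 3 * (c ^ 2 * ε)) := mul_le_mul_of_nonneg_left h2 h3
            _ = ε * x * (c ^ 2 * Real.log x ^ 4) := by ring
      _ ≤ ε * Y := mul_le_mul_of_nonneg_left hYlow hε.le
  have hρY1 : ρ ≤ ε * Y := by
    refine le_trans ?_ hρY
    refine le_mul_of_one_le_left hρ0 ?_
    nlinarith
  have hSpos : 0 < (S.card : ℝ) := lt_of_lt_of_le (by linarith) hSc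
  have hCuS : 3 * Cu ≤ ε * S.card := by
    have h1 : 3 * Cu ≤ ε * (K / 4) := by
      rw [hCu, mul_div_assoc', div_le_iff₀ hcK]
      have h2 : 12 / (ε * c) * Real.log x * (ε * c) ≤ K * Real.log K * (ε * c) := mul_le_mul_of_nonneg_right hKL (by positivity)
      have e : 12 / (ε * c) * Real.log x * (ε * c) = 12 * Real.log x := by field_simp
      rw [e] at h2
      linarith
    exact h1.trans (mul_le_mul_of_nonneg_left hSc hε.le)
  have hVk : ∀ k ∈ S, 1 / VK z k ≤ Cu := by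
    intro k hk
    obtain ⟨s1, s2, s3, s4, s5⟩ := hS k hk
    have h1 := hV5 z K k hz12 (by omega) s1 s3 ((pr_mono s2).trans hprz) s4
    have h2 : c * Real.log K / Real.log x ≤ VK z k := by
      refine le_trans ?_ h1
      exact div_le_div₀ (by positivity) (mul_le_mul_of_nonneg_right hcc5 (by linarith)) hlz0 hzx
    have h3 : 0 < c * Real.log K / Real.log x := by positivity
    calc 1 / VK z k ≤ 1 / (c * Real.log K / Real.log x) := one_div_le_one_div_of_le h3 h2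
      _ = Cu := by
          rw [hCu, one_div_div]
  -- the sets
  have hch : ∀ k : ℕ, ∃ F : Finset ℕ, |(F.card : ℝ) - Y * VK z k| ≤ ε * (Y * VK z k) + ρ ∧
      ∀ t, t ∈ F ↔ y < t ∧ t ≤ x ∧ t.Prime ∧ t ≡ a [MOD 2310] ∧ ∀ l : ℕ, l.Prime → 12 < l → l ≤ z → t % l ∉ Dk k l := by
    intro k
    obtain ⟨F, hF1, hF2⟩ := hX1 x y (by omega) (by omega) hyy a ha (Dk k) (fun l => by
      unfold Dk
      rw [card_singleton]
      norm_num)
    refine ⟨F, ?_, fun t => by rw [hF2 t, hz]⟩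
    rw [← hφ, ← hY, ← hz, ← hρ] at hF1
    have h1 : 0 ≤ Y * VK z k := mul_nonneg hY0.le VK_pos.le
    have h2 := mul_le_mul_of_nonneg_right hexp h1
    unfold VK at h1 h2 ⊢
    linarith
  choose F hF1 hF2 using hch
  have hFup : ∀ k ∈ S, ((F k).card : ℝ) ≤ (1 + ε) * (Y * VK z k) + ρ := fun k _ => by
    have := (abs_le.1 (hF1 k)).2
    linarith
  have hFlow : ∀ k ∈ S, (1 - ε) * (Y * VK z k) - ρ ≤ ((F k).card : ℝ) := fun k _ => by
    have := (abs_le.1 (hF1 k)).1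
    linarith
  obtain ⟨T, hT1, hT2⟩ := hX1 x y (by omega) (by omega) hyy a ha (fun _ => ∅) (fun l => by simp)
  have hT0 : T = (Ioc y x).filter (fun t => t.Prime ∧ t ≡ a [MOD 2310]) := by
    ext t
    rw [hT2 t, mem_filter, mem_Ioc]
    constructor
    · rintro ⟨h1, h2, h3, h4, -⟩
      exact ⟨⟨h1, h2⟩, h3, h4⟩
    · rintro ⟨⟨h1, h2⟩, h3, h4⟩
      exact ⟨h1, h2, h3, h4, fun l _ _ _ => notMem_empty _⟩
  have hTc : |(T.card : ℝ) - Y| ≤ ε * Y + ρ := by
    have h0 : ∏ l ∈ PK 12 (zl b0 x), (1 - ((Ds (fun _ => (∅ : Finset ℕ)) l).card : ℝ) / ((l : ℝ) - 1)) = 1 := by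
      refine prod_eq_one (fun l _ => ?_)
      unfold Ds
      rw [filter_empty, card_empty, Nat.cast_zero, zero_div, sub_zero]
    rw [h0, mul_one, ← hφ, ← hY, ← hρ] at hT1
    have h2 := mul_le_mul_of_nonneg_right hexp hY0.le
    linarith
  have hpair : ∀ k ∈ S, ∀ j ∈ S, k < j → ((F k ∩ F j).card : ℝ) ≤ (1 + ε) * (Y * (VK z k * VK z j * (1 + B * ∑ l ∈ BD k j, 1 / (l : ℝ)))) + ρ := by
    intro k hk j hj hkj
    obtain ⟨s1, s2, s3, s4, s5⟩ := hS k hk
    obtain ⟨r1, r2, r3, r4, r5⟩ := hS j hj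
    obtain ⟨G, hG1, hG2⟩ := hX1 x y (by omega) (by omega) hyy a ha (D2 k j) (fun l => by
      refine (card_union_le _ _).trans ?_
      unfold Dk
      rw [card_singleton, card_singleton])
    have hG : F k ∩ F j = G := by
      ext t
      rw [mem_inter, hF2 k t, hF2 j t, hG2 t, ← hz]
      unfold D2
      constructor
      · rintro ⟨⟨h1, h2, h3, h4, h5⟩, -, -, -, -, h6⟩
        refine ⟨h1, h2, h3, h4, fun l hl hl12 hlz hmem => ?_⟩
        rcases mem_union.1 hmem with h | h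
        · exact h5 l hl hl12 hlz h
        · exact h6 l hl hl12 hlz h
      · rintro ⟨h1, h2, h3, h4, h5⟩
        exact ⟨⟨h1, h2, h3, h4, fun l hl hl12 hlz hmem => h5 l hl hl12 hlz (mem_union_left _ hmem)⟩,
          h1, h2, h3, h4, fun l hl hl12 hlz hmem => h5 l hl hl12 hlz (mem_union_right _ hmem)⟩
    rw [hG]
    rw [← hφ, ← hY, ← hz, ← hρ] at hG1
    have hb0' : 0 ≤ ∑ l ∈ BD k j, 1 / (l : ℝ) := sum_nonneg (fun l _ => one_div_nonneg.2 (Nat.cast_nonneg l))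
    have hbA := bd_le (by omega : 2 ≤ k) hkj r1 r4
    have hprod := prodV (k := k) (j := j) (z := z) (by omega) hkj
    have hel := exp_lin hb0' hbA
    rw [← hB] at hel
    obtain ⟨P, hP⟩ : ∃ P, P = ∏ l ∈ PK 12 z, (1 - ((Ds (D2 k j) l).card : ℝ) / ((l : ℝ) - 1)) := ⟨_, rfl⟩
    rw [← hP] at hG1 hprod
    have hVV : 0 < VK z k * VK z j := mul_pos VK_pos VK_pos
    have hP2 : P ≤ VK z k * VK z j * (1 + B * ∑ l ∈ BD k j, 1 / (l : ℝ)) := by
      refine hprod.trans ?_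
      exact mul_le_mul_of_nonneg_left hel hVV.le
    have hP0 : 0 ≤ P := by
      rw [hP]
      refine prod_nonneg (fun l hl => ?_)
      have h : (13 : ℝ) ≤ l := by exact_mod_cast (bh_mem_PK.1 hl).1
      have hc2 : ((Ds (D2 k j) l).card : ℝ) ≤ 2 := by
        have : (Ds (D2 k j) l).card ≤ 2 := by
          refine (card_filter_le _ _).trans ((card_union_le _ _).trans ?_)
          unfold Dk
          rw [card_singleton, card_singleton]
        exact_mod_cast this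
      rw [sub_nonneg, div_le_one (by linarith)]
      linarith
    have h1 := (abs_le.1 hG1).2
    have h2 : 0 ≤ Y * P := mul_nonneg hY0.le hP0
    have h3 := mul_le_mul_of_nonneg_right hexp h2
    have h4 := mul_le_mul_of_nonneg_left hP2 hY0.le
    nlinarith
  have hmain := abs_var (S := S) (F := F) (V := VK z) (b := fun k j => ∑ l ∈ BD k j, 1 / (l : ℝ)) (e := ε) (Y := Y) (ρ := ρ) (Cu := Cu) (B := B)
    (W := ε / (64 * B) * (K : ℝ) ^ 2) hε hε1 hY0 hρ0 (fun k _ => VK_pos) hCu1 hVk hρY hSpos hCuS hFlow hFup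
    (fun k j => sum_nonneg (fun l _ => one_div_nonneg.2 (Nat.cast_nonneg l))) hB0 hpair hbad (by
      have e : 4 * (B * (ε / (64 * B) * (K : ℝ) ^ 2)) = ε * (K / 4 : ℝ) ^ 2 := by
        field_simp
        ring
      rw [e]
      exact mul_le_mul_of_nonneg_left (pow_le_pow_left₀ (by linarith) hSc 2) hε.le)
  -- conclusion
  rw [← hT0, ← hz]
  have hUT : S.biUnion F ⊆ T := by
    intro t ht
    rw [mem_biUnion] at ht
    obtain ⟨k, hk, htk⟩ := ht
    obtain ⟨h1, h2, h3, h4, -⟩ := (hF2 k t).1 htk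
    rw [hT0, mem_filter, mem_Ioc]
    exact ⟨⟨h1, h2⟩, h3, h4⟩
  have hEsub : (Ioc y x).filter (fun t => t.Prime ∧ t ≡ a [MOD 2310] ∧ ¬ Gd z K t) ⊆ T \ S.biUnion F := by
    intro t ht
    rw [mem_filter, mem_Ioc] at ht
    obtain ⟨⟨h1, h2⟩, h3, h4, h5⟩ := ht
    rw [mem_sdiff]
    refine ⟨by rw [hT0, mem_filter, mem_Ioc]; exact ⟨⟨h1, h2⟩, h3, h4⟩, fun hmem => h5 ?_⟩
    rw [mem_biUnion] at hmem
    obtain ⟨k, hk, htk⟩ := hmem
    obtain ⟨s1, s2, s3, s4, s5⟩ := hS k hk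
    obtain ⟨-, -, -, -, h6⟩ := (hF2 k t).1 htk
    refine ⟨k, by omega, s2, fun l hl hd => ?_⟩
    by_contra hcon
    rw [not_lt] at hcon
    rcases Nat.lt_or_ge 12 l with h12 | h12
    · exact h6 l hl h12 hcon ((Dk_iff hl.pos).2 hd)
    · have h7 : l ∣ cb k := (small_dvd hl h12).trans s5
      have h8 : l ∣ t := (Nat.dvd_add_left h7).1 hd
      rcases (Nat.dvd_prime h3).1 h8 with h | h
      · exact hl.one_lt.ne' h
      · omega
  have hcard : ((((Ioc y x).filter (fun t => t.Prime ∧ t ≡ a [MOD 2310] ∧ ¬ Gd z K t)).card : ℕ) : ℝ) ≤ (T.card : ℝ) - ((S.biUnion F).card : ℝ) := by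
    have h1 := card_le_card hEsub
    rw [card_sdiff_of_subset hUT] at h1
    have h2 := card_le_card hUT
    have h3 : ((((Ioc y x).filter (fun t => t.Prime ∧ t ≡ a [MOD 2310] ∧ ¬ Gd z K t)).card : ℕ) : ℝ) ≤ ((T.card - (S.biUnion F).card : ℕ) : ℝ) := by
      exact_mod_cast h1
    rw [Nat.cast_sub h2] at h3
    exact h3
  have hT3 := abs_le.1 hTc
  have hεY : ε * Y ≤ Y / 16 := by nlinarith
  have h9 : Y / 2 ≤ (T.card : ℝ) := by linarith
  have h10 : 11 * ε * Y ≤ 22 * ε * T.card := by nlinarith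
  linarith

end H78AP
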