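import Pool.Agent.H78.AP.Mn
import Pool.Agent.H63.SG.Om

/-!
# Almost primes of the form `p_n + binom(p_k - 1, (p_k - 1)/2)`, `k ≤ K`: final form
-/

set_option autoImplicit false

open Finset

namespace H78AP

open Pool.Agent.H78.CB

lemma pr_pi' {p : ℕ} (hp : p.Prime) : pr (Nat.primeCounting p) = p := by
  unfold pr
  have h1 : Nat.primeCounting p = Nat.count Nat.Prime p + 1 := by
    unfold Nat.primeCounting Nat.primeCounting'
    rw [Nat.count_succ, if_pos hp]
  rw [h1, Nat.add_sub_cancel]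
  exact Nat.nth_count hp

lemma cb_two : cb 2 = 2 := by
  have h : pr 2 = 3 := by
    unfold pr
    exact Nat.nth_prime_one_eq_three
  unfold cb
  rw [h]
  decide

theorem apmain2 : ∃ δ : ℝ, 0 < δ ∧ ∃ c : ℝ, 0 < c ∧ ∃ X0 : ℕ, ∀ x : ℕ, X0 ≤ x → ∀ K : ℕ, 2 ≤ K →
    (K : ℝ) * Real.log K ≤ Real.log x → ∃ U : Finset ℕ, c * ((x : ℝ) * (K * Real.log K) / Real.log x ^ 2) ≤ (U.card : ℝ) ∧
      ∀ t ∈ U, t ≤ x ∧ t.Prime ∧ ∃ k : ℕ, 1 < k ∧ k ≤ K ∧ ∀ l : ℕ, l.Prime → l ∣ t + cb k → (x : ℝ) ^ δ < l := by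
  obtain ⟨δ, hδ, hδ8, c, hc, X0, hmain⟩ := apmain
  obtain ⟨δ1, hδ1, hδ18, κ, hκ, X1, hlow⟩ := lowF
  obtain ⟨X2, hX2⟩ := Filter.eventually_atTop.1 (tendsto_natCast_atTop_atTop.eventually
    ((tendsto_rpow_atTop hδ1).eventually_ge_atTop (3 : ℝ)))
  refine ⟨min δ δ1, lt_min hδ hδ1, min c (κ / 28224), by positivity, X0 + X1 + X2 + 3, fun x hx K hK hKx => ?_⟩
  have hx1 : (1 : ℝ) < x := by exact_mod_cast (by omega : 1 < x)
  have hL : 0 < Real.log x := Real.log_pos hx1
  have hK2 : (2 : ℝ) ≤ K := by exact_mod_cast hK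
  have hlK : 0 < Real.log K := Real.log_pos (by linarith)
  have hY0 : 0 ≤ (x : ℝ) * (K * Real.log K) / Real.log x ^ 2 := by positivity
  rcases Nat.lt_or_ge K 169 with hs | hb
  · obtain ⟨a, ha1, ha2⟩ := cls 1 (by norm_num)
    obtain ⟨F, hF1, hF2⟩ := hlow x (by omega) a 2 ha1 ha2 2 (by rw [cb_two]) (by
      have h := hX2 x (by omega)
      have : pr 2 = 3 := by
        unfold pr
        exact Nat.nth_prime_one_eq_three
      rw [this]
      push_cast
      exact h)
    refine ⟨F, ?_, fun t ht => ?_⟩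
    · refine le_trans ?_ hF1
      have h1 : (K : ℝ) * Real.log K ≤ 28224 := by
        have h2 : (K : ℝ) ≤ 168 := by exact_mod_cast (by omega : K ≤ 168)
        have h3 : Real.log K ≤ 168 := (Real.log_le_sub_one_of_pos (by linarith)).trans (by linarith)
        nlinarith
      have h2 : 0 ≤ (x : ℝ) / Real.log x ^ 2 := by positivity
      calc min c (κ / 28224) * ((x : ℝ) * (K * Real.log K) / Real.log x ^ 2)
          ≤ κ / 28224 * ((x : ℝ) * (K * Real.log K) / Real.log x ^ 2) := mul_le_mul_of_nonneg_right (min_le_right _ _) hY0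
        _ = κ / 28224 * ((x : ℝ) / Real.log x ^ 2) * (K * Real.log K) := by ring
        _ ≤ κ / 28224 * ((x : ℝ) / Real.log x ^ 2) * 28224 := mul_le_mul_of_nonneg_left h1 (by positivity)
        _ = κ * ((x : ℝ) / Real.log x ^ 2) * 1 := by ring
        _ ≤ _ := mul_le_mul_of_nonneg_left (ww_one_le 2) (by positivity)
    · obtain ⟨t1, t2, t3, t4⟩ := hF2 t ht
      refine ⟨t2, t3, 2, by norm_num, hK, fun l hl hd => ?_⟩
      refine lt_of_le_of_lt (Real.rpow_le_rpow_of_exponent_le hx1.le (min_le_right _ _)) ?_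
      by_contra hcon
      rw [not_lt] at hcon
      exact t4 l hl hcon hd
  · obtain ⟨U, hU1, hU2⟩ := hmain x (by omega) K hb hKx
    refine ⟨U, le_trans (mul_le_mul_of_nonneg_right (min_le_left _ _) hY0) hU1, fun t ht => ?_⟩
    obtain ⟨t1, t2, k, k1, k2, k3⟩ := hU2 t ht
    exact ⟨t1, t2, k, k1, k2, fun l hl hd =>
      lt_of_le_of_lt (Real.rpow_le_rpow_of_exponent_le hx1.le (min_le_left _ _)) (k3 l hl hd)⟩

open Classical in
theorem apN : ∃ (r : ℕ) (δ c : ℝ), 0 < δ ∧ 0 < c ∧ ∃ N0 : ℕ, ∀ N : ℕ, N0 ≤ N → ∀ K : ℕ, 2 ≤ K →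
    (K : ℝ) * Real.log K ≤ Real.log N →
    c * ((N : ℝ) * (K * Real.log K) / Real.log N) ≤ (((Icc 1 N).filter (fun n : ℕ => ∃ k : ℕ, 1 < k ∧ k ≤ K ∧
      (pr n + cb k).primeFactorsList.length ≤ r ∧
      ∀ l : ℕ, l.Prime → l ∣ pr n + cb k → (N : ℝ) ^ δ < l)).card : ℝ) := by
  obtain ⟨δ, hδ, c, hc, X0, hmain⟩ := apmain2
  obtain ⟨x1, hx1⟩ := Filter.eventually_atTop.1 (Chebyshev.eventually_primeCounting_le (ε := 1) one_pos)
  refine ⟨⌊2 / (δ / 23)⌋₊, δ, c / 27, hδ, by positivity, X0 + ⌈x1⌉₊ + 3, fun N hN K hK hKN => ?_⟩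
  have hN1 : (1 : ℝ) < N := by exact_mod_cast (by omega : 1 < N)
  have hlN : 0 < Real.log N := Real.log_pos hN1
  have hNx1 : x1 ≤ N := (Nat.le_ceil x1).trans (by exact_mod_cast (by omega : ⌈x1⌉₊ ≤ N))
  obtain ⟨x, hx⟩ : ∃ x : ℕ, x = pr N := ⟨_, rfl⟩
  have hNxn : N ≤ x := by rw [hx]; exact le_pr
  have hNx : (N : ℝ) ≤ x := by exact_mod_cast hNxn
  have hx1' : (1 : ℝ) < x := by linarith
  have hx2 : (2 : ℝ) ≤ x := by exact_mod_cast (by omega : 2 ≤ x)
  have hx0 : (0 : ℝ) < x := by linarith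
  have hlx : Real.log N ≤ Real.log x := Real.log_le_log (by linarith) hNx
  have hlx0 : 0 < Real.log x := by linarith
  obtain ⟨U, hU1, hU2⟩ := hmain x (by omega) K hK (hKN.trans hlx)
  have hcheb : (N : ℝ) ≤ 3 * (x / Real.log x) := by
    have h1 := hx1 x (hNx1.trans hNx)
    rw [Nat.floor_natCast, hx, pi_pr (by omega)] at h1
    refine h1.trans ?_
    rw [← hx]
    have h2 : Real.log 4 + 1 ≤ 3 := by
      have h3 : Real.log 4 = 2 * Real.log 2 := by
        rw [show (4 : ℝ) = 2 ^ 2 by norm_num, Real.log_pow]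
        push_cast
        ring
      have h4 := Real.log_two_lt_d9
      linarith
    rw [mul_div_assoc]
    exact mul_le_mul_of_nonneg_right h2 (div_nonneg hx0.le hlx0.le)
  have hlog9 : Real.log x ≤ 9 * Real.log N := by
    rw [hx]
    exact log_pr_le (by omega)
  have hK2 : (2 : ℝ) ≤ K := by exact_mod_cast hK
  have hlK : 0 < Real.log K := Real.log_pos (by linarith)
  have hlow : c / 27 * ((N : ℝ) * (K * Real.log K) / Real.log N) ≤ (U.card : ℝ) := by
    refine le_trans ?_ hU1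
    have h1 : (N : ℝ) / Real.log N ≤ 27 * (x / Real.log x ^ 2) := by
      rw [div_le_iff₀ hlN]
      have e : 3 * ((x : ℝ) / Real.log x) = 3 * (x / Real.log x ^ 2) * Real.log x := by
        field_simp
      rw [e] at hcheb
      have h2 : 0 ≤ 3 * ((x : ℝ) / Real.log x ^ 2) := by positivity
      have h3 := mul_le_mul_of_nonneg_left hlog9 h2
      linarith
    calc c / 27 * ((N : ℝ) * (K * Real.log K) / Real.log N) = c / 27 * (K * Real.log K) * (N / Real.log N) := by ring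
      _ ≤ c / 27 * (K * Real.log K) * (27 * (x / Real.log x ^ 2)) := mul_le_mul_of_nonneg_left h1 (by positivity)
      _ = _ := by ring
  refine hlow.trans ?_
  have hcard : U.card ≤ ((Icc 1 N).filter (fun n : ℕ => ∃ k : ℕ, 1 < k ∧ k ≤ K ∧
      (pr n + cb k).primeFactorsList.length ≤ ⌊2 / (δ / 23)⌋₊ ∧
      ∀ l : ℕ, l.Prime → l ∣ pr n + cb k → (N : ℝ) ^ δ < l)).card := by
    refine card_le_card_of_injOn Nat.primeCounting ?_ ?_
    · intro t ht
      rw [mem_coe] at ht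
      obtain ⟨t1, t2, k, k1, k2, k3⟩ := hU2 t ht
      rw [mem_coe, mem_filter, mem_Icc, pr_pi' t2]
      refine ⟨⟨?_, ?_⟩, k, k1, k2, ?_, fun l hl hd => lt_of_le_of_lt (Real.rpow_le_rpow (by linarith) hNx hδ.le) (k3 l hl hd)⟩
      · have h1 : Nat.primeCounting t = Nat.count Nat.Prime t + 1 := by
          unfold Nat.primeCounting Nat.primeCounting'
          rw [Nat.count_succ, if_pos t2]
        omega
      · have h1 := Nat.monotone_primeCounting t1
        rw [hx, pi_pr (by omega)] at h1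
        exact h1
      · refine Pool.Agent.H63.SG.Om_len (x := (x : ℝ) ^ (23 : ℕ)) (one_lt_pow₀ hx1' (by norm_num)) (by positivity)
          (Nat.add_pos_left t2.pos _) ?_ (fun l hl hd => ?_)
        · have h1 : (cb k : ℝ) ≤ (x : ℝ) ^ (45 : ℕ) := by
            have h2 : cb k ≤ 2 ^ (pr k) :=
              (Nat.choose_le_two_pow _ _).trans (Nat.pow_le_pow_right (by norm_num) (Nat.sub_le _ _))
            have h3 : (cb k : ℝ) ≤ 2 ^ (pr k) := by exact_mod_cast h2
            have h4 : (2 : ℝ) ^ (pr k) ≤ Real.exp (pr k) := by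
              have h5 : (2 : ℝ) ≤ Real.exp 1 := by
                have := Real.add_one_le_exp (1 : ℝ)
                linarith
              calc (2 : ℝ) ^ (pr k) ≤ (Real.exp 1) ^ (pr k) := pow_le_pow_left₀ (by norm_num) h5 _
                _ = Real.exp (pr k) := by rw [← Real.exp_nat_mul, mul_one]
            have h6 : (pr k : ℝ) ≤ 45 * Real.log x := by
              have h7 : (pr k : ℝ) ≤ pr K := by exact_mod_cast pr_mono k2
              have hc' := cheb (three_le_pr hK)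
              rw [pi_pr (by omega)] at hc'
              have hl := log_pr_le hK
              have h8 : (K : ℝ) * Real.log (pr K : ℝ) ≤ K * (9 * Real.log K) := mul_le_mul_of_nonneg_left hl (by linarith)
              linarith
            have h9 : Real.exp (45 * Real.log x) = (x : ℝ) ^ (45 : ℕ) := by
              have e : 45 * Real.log (x : ℝ) = Real.log ((x : ℝ) ^ (45 : ℕ)) := by
                rw [Real.log_pow]
                norm_num
              rw [e, Real.exp_log (by positivity)]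
            exact h3.trans (h4.trans ((Real.exp_le_exp.2 h6).trans h9.le))
          have h2 : (t : ℝ) ≤ x := by exact_mod_cast t1
          have h3 : (x : ℝ) ≤ (x : ℝ) ^ (45 : ℕ) := by
            calc (x : ℝ) = x ^ 1 := (pow_one _).symm
              _ ≤ x ^ (45 : ℕ) := pow_le_pow_right₀ hx1'.le (by norm_num)
          have h4 : ((x : ℝ) ^ (23 : ℕ)) ^ 2 = x ^ (45 : ℕ) * x := by ring
          rw [h4]
          push_cast
          have h5 : 0 < (x : ℝ) ^ (45 : ℕ) := by positivity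
          nlinarith
        · have e : ((x : ℝ) ^ (23 : ℕ)) ^ (δ / 23) = (x : ℝ) ^ δ := by
            rw [← Real.rpow_natCast, ← Real.rpow_mul hx0.le]
            congr 1
            push_cast
            ring
          rw [e]
          exact k3 l hl hd
    · intro a ha b hb hab
      rw [mem_coe] at ha hb
      rw [← pr_pi' (hU2 a ha).2.1, ← pr_pi' (hU2 b hb).2.1, hab]
  exact_mod_cast hcard

open Classical in
theorem apPos : ∃ (r : ℕ) (δ c : ℝ), 0 < δ ∧ 0 < c ∧ ∃ N0 : ℕ, ∀ N : ℕ, N0 ≤ N →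
    c * (N : ℝ) ≤ (((Icc 1 N).filter (fun n : ℕ => ∃ k : ℕ, 1 < k ∧ (k : ℝ) ≤ Real.log N / Real.log (Real.log N) ∧
      (pr n + cb k).primeFactorsList.length ≤ r ∧
      ∀ l : ℕ, l.Prime → l ∣ pr n + cb k → (N : ℝ) ^ δ < l)).card : ℝ) := by
  obtain ⟨r, δ, c, hδ, hc, N0, h⟩ := apN
  -- growth
  have g1 : ∀ᶠ y : ℝ in Filter.atTop, 4 * Real.log y ≤ y ^ (1 / 2 : ℝ) := by
    have := (isLittleO_log_rpow_atTop (by norm_num : (0 : ℝ) < 1 / 2)).bound (show (0 : ℝ) < 1 / 4 by norm_num)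
    filter_upwards [this, Filter.eventually_ge_atTop 1] with x h1 h2
    rw [Real.norm_of_nonneg (Real.log_nonneg h2), Real.norm_of_nonneg (by positivity)] at h1
    linarith
  obtain ⟨y1, hy1⟩ := Filter.eventually_atTop.1 (g1.and (Filter.eventually_ge_atTop (Real.exp 4)))
  obtain ⟨N1, hN1⟩ := Filter.eventually_atTop.1 ((Real.tendsto_log_atTop.comp tendsto_natCast_atTop_atTop).eventually_ge_atTop y1)
  refine ⟨r, δ, c / 4, hδ, by positivity, N0 + N1, fun N hN => ?_⟩
  have hNy : y1 ≤ Real.log N := hN1 N (by omega)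
  obtain ⟨a1, a2⟩ := hy1 (Real.log N) hNy
  obtain ⟨y, hy⟩ : ∃ y, y = Real.log (N : ℝ) := ⟨_, rfl⟩
  rw [← hy] at a1 a2
  have he4 : (5 : ℝ) ≤ Real.exp 4 := by
    have := Real.add_one_le_exp (4 : ℝ)
    linarith
  have hy0 : 0 < y := by linarith
  have hly : 4 ≤ Real.log y := (Real.le_log_iff_exp_le hy0).2 a2
  obtain ⟨q, hq⟩ : ∃ q, q = y / Real.log y := ⟨_, rfl⟩
  have hs : y = y ^ (1 / 2 : ℝ) * y ^ (1 / 2 : ℝ) := by
    rw [← Real.rpow_add hy0]
    norm_num
  have hsq0 : 0 < y ^ (1 / 2 : ℝ) := by positivity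
  have hq1 : 4 * y ^ (1 / 2 : ℝ) ≤ q := by
    rw [hq, le_div_iff₀ (by linarith)]
    nlinarith
  have hsq1 : 1 ≤ y ^ (1 / 2 : ℝ) := by linarith
  obtain ⟨K, hK⟩ : ∃ K : ℕ, K = ⌊q⌋₊ := ⟨_, rfl⟩
  have hKq : (K : ℝ) ≤ q := by
    rw [hK]
    exact Nat.floor_le (by linarith)
  have hKq2 : q < K + 1 := by
    rw [hK]
    exact Nat.lt_floor_add_one q
  have hK3 : (3 : ℝ) ≤ K := by linarith
  have hK2 : 2 ≤ K := by
    have : (2 : ℝ) ≤ K := by linarith
    exact_mod_cast this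
  have hKhalf : q / 2 ≤ K := by linarith
  have hlK : Real.log y / 2 ≤ Real.log K := by
    have h1 : y ^ (1 / 2 : ℝ) ≤ K := by linarith
    have h2 := Real.log_le_log hsq0 h1
    rw [Real.log_rpow hy0] at h2
    linarith
  have hlK2 : Real.log K ≤ Real.log y := by
    refine Real.log_le_log (by linarith) (hKq.trans ?_)
    rw [hq, div_le_iff₀ (by linarith)]
    nlinarith
  have hqy : q * Real.log y = y := by
    rw [hq]
    field_simp
  have hKy : (K : ℝ) * Real.log K ≤ y := by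
    calc (K : ℝ) * Real.log K ≤ q * Real.log y := mul_le_mul hKq hlK2 (by linarith) (by linarith)
      _ = y := hqy
  have hKlow : y / 4 ≤ (K : ℝ) * Real.log K := by
    calc y / 4 = (q * Real.log y) / 4 := by rw [hqy]
      _ = q / 2 * (Real.log y / 2) := by ring
      _ ≤ (K : ℝ) * Real.log K := mul_le_mul hKhalf hlK (by linarith) (by linarith)
  have h1 := h N (by omega) K hK2 (by rw [← hy]; exact hKy)
  have hN0 : (0 : ℝ) ≤ N := Nat.cast_nonneg _
  have h2 : c / 4 * (N : ℝ) ≤ c * ((N : ℝ) * (K * Real.log K) / Real.log N) := by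
    rw [← hy]
    have e : c * ((N : ℝ) * (K * Real.log K) / y) = c * N * ((K * Real.log K) / y) := by ring
    rw [e]
    have h3 : (1 / 4 : ℝ) ≤ (K * Real.log K) / y := by
      rw [le_div_iff₀ hy0]
      linarith
    calc c / 4 * (N : ℝ) = c * N * (1 / 4) := by ring
      _ ≤ _ := mul_le_mul_of_nonneg_left h3 (by positivity)
  refine (h2.trans h1).trans ?_
  rw [← hy]
  have hsub : (Icc 1 N).filter (fun n : ℕ => ∃ k : ℕ, 1 < k ∧ k ≤ K ∧
      (pr n + cb k).primeFactorsList.length ≤ r ∧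
      ∀ l : ℕ, l.Prime → l ∣ pr n + cb k → (N : ℝ) ^ δ < l) ⊆
      (Icc 1 N).filter (fun n : ℕ => ∃ k : ℕ, 1 < k ∧ (k : ℝ) ≤ y / Real.log y ∧
      (pr n + cb k).primeFactorsList.length ≤ r ∧
      ∀ l : ℕ, l.Prime → l ∣ pr n + cb k → (N : ℝ) ^ δ < l) := by
    intro n hn
    rw [mem_filter] at hn ⊢
    obtain ⟨hn1, k, k1, k2, k3⟩ := hn
    refine ⟨hn1, k, k1, ?_, k3⟩
    rw [← hq]
    exact le_trans (by exact_mod_cast k2) hKq
  exact_mod_cast card_le_card hsub

end H78AP
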