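import Pool.Agent.H78.AP.Aa
import Pool.Agent.H78.AP.Fn

/-!
# Almost all `n`
-/

set_option autoImplicit false

open Finset

namespace H78AP

open Pool.Agent.H78.CB

open Classical in
theorem allClasses (ε : ℝ) (hε : 0 < ε) (hε1 : ε ≤ 1 / 16) : ∃ b0 : ℕ, ∃ L : ℝ, 0 < L ∧ ∃ X0 : ℕ, ∀ x y : ℕ, X0 ≤ x → (x : ℝ) ^ (1 / 2 : ℝ) ≤ y →
    2 * y ≤ x → 12 ≤ y → ∀ K : ℕ, L * Real.log x ≤ K * Real.log K → (K : ℝ) ≤ Real.log x →
    ((((Ioc y x).filter (fun t => t.Prime ∧ ¬ Gd (zl b0 x) K t)).card : ℕ) : ℝ) ≤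
      22 * ε * ((((Ioc y x).filter (fun t => t.Prime)).card : ℕ) : ℝ) := by
  obtain ⟨b0, L, hL, X0, h⟩ := classA ε hε hε1
  refine ⟨b0, L, hL, X0, fun x y hx hyy hyx hy12 K hKL hKx => ?_⟩
  obtain ⟨M, hM⟩ : ∃ M : ℕ, M = 2310 := ⟨_, rfl⟩
  have hM0 : 0 < M := by rw [hM]; norm_num
  obtain ⟨R, hR⟩ : ∃ R : Finset ℕ, R = (range M).filter (fun a => Cop a) := ⟨_, rfl⟩
  have hmaps : ∀ t ∈ (Ioc y x).filter (fun t => t.Prime), t % M ∈ R := by
    intro t ht
    rw [mem_filter, mem_Ioc] at ht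
    rw [hR, mem_filter, mem_range]
    refine ⟨Nat.mod_lt _ hM0, ?_⟩
    show Nat.gcd (t % M) 2310 = 1
    rw [← hM, ← Nat.gcd_rec, Nat.gcd_comm]
    rw [← Nat.coprime_iff_gcd_eq_one, ht.2.coprime_iff_not_dvd, hM]
    intro hd
    have := dvd2310 ht.2 hd
    omega
  have e0 : ∀ a ∈ R, ∀ t : ℕ, t % M = a ↔ t ≡ a [MOD 2310] := by
    intro a ha t
    rw [hR, mem_filter, mem_range] at ha
    rw [← hM]
    unfold Nat.ModEq
    rw [Nat.mod_eq_of_lt ha.1]
  rw [card_eq_sum_card_fiberwise (f := fun t => t % M) (s := (Ioc y x).filter (fun t => t.Prime ∧ ¬ Gd (zl b0 x) K t)) (t := R)]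
  · rw [card_eq_sum_card_fiberwise (f := fun t => t % M) (s := (Ioc y x).filter (fun t => t.Prime)) (t := R)]
    · rw [Nat.cast_sum, Nat.cast_sum, mul_sum]
      refine sum_le_sum (fun a ha => ?_)
      have ha' : Cop a := by
        rw [hR, mem_filter] at ha
        exact ha.2
      have h1 := h x y hx hyy hyx K hKL hKx a ha'
      refine le_trans (le_of_eq ?_) (h1.trans (le_of_eq ?_))
      · refine congrArg (fun s : Finset ℕ => ((s.card : ℕ) : ℝ)) ?_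
        ext t
        simp only [mem_filter]
        rw [e0 a ha t]
        tauto
      · refine congrArg (fun s : Finset ℕ => 22 * ε * ((s.card : ℕ) : ℝ)) ?_
        ext t
        simp only [mem_filter]
        rw [e0 a ha t]
        tauto
    · intro t ht
      exact hmaps t (mem_coe.1 ht)
  · intro t ht
    rw [mem_coe, mem_filter] at ht
    exact hmaps t (mem_filter.2 ⟨ht.1, ht.2.1⟩)

end H78AP
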