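import Pool.Agent.H78.AP.Ab

/-!
# Almost all `n`, final form
-/

set_option autoImplicit false

open Finset

namespace H78AP

open Pool.Agent.H78.CB

open Classical in
theorem apAll (ε : ℝ) (hε : 0 < ε) : ∃ (r : ℕ) (δ lam : ℝ), 0 < δ ∧ 0 < lam ∧ ∃ N0 : ℕ, ∀ N : ℕ, N0 ≤ N →
    (((Icc 1 N).filter (fun n : ℕ => ¬ ∃ k : ℕ, 1 < k ∧ (k : ℝ) ≤ lam * Real.log N / Real.log (Real.log N) ∧
      (pr n + cb k).primeFactorsList.length ≤ r ∧
      ∀ l : ℕ, l.Prime → l ∣ pr n + cb k → (N : ℝ) ^ δ < l)).card : ℝ) ≤ ε * N := by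
  obtain ⟨ε', hε'⟩ : ∃ ε', ε' = min (ε / 44) (1 / 16) := ⟨_, rfl⟩
  have hε'0 : 0 < ε' := by rw [hε']; positivity
  obtain ⟨b0, L, hL, X0, hmain⟩ := allClasses ε' hε'0 (by rw [hε']; exact min_le_right _ _)
  obtain ⟨lam, hlam⟩ : ∃ lam, lam = 36 * L + 1 := ⟨_, rfl⟩
  have hlam1 : 1 ≤ lam := by rw [hlam]; linarith
  obtain ⟨δ, hδ⟩ : ∃ δ, δ = dl b0 := ⟨_, rfl⟩
  have hδ0 : 0 < δ := by
    rw [hδ]
    unfold dl
    positivity
  obtain ⟨κ', hκ'⟩ : ∃ κ' : ℕ, 45 * lam ≤ κ' := ⟨⌈45 * lam⌉₊, Nat.le_ceil _⟩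
  obtain ⟨κ, hκ⟩ : ∃ κ : ℕ, κ = κ' + 1 := ⟨_, rfl⟩
  have hκ0 : (0 : ℝ) < κ := by exact_mod_cast (by omega : 0 < κ)
  have g1 : ∀ᶠ y : ℝ in Filter.atTop, 4 * Real.log y ≤ y ^ (1 / 2 : ℝ) := by
    have := (isLittleO_log_rpow_atTop (by norm_num : (0 : ℝ) < 1 / 2)).bound (show (0 : ℝ) < 1 / 4 by norm_num)
    filter_upwards [this, Filter.eventually_ge_atTop 1] with x h1 h2
    rw [Real.norm_of_nonneg (Real.log_nonneg h2), Real.norm_of_nonneg (by positivity)] at h1
    linarith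
  obtain ⟨y1, hy1⟩ := Filter.eventually_atTop.1 (g1.and (Filter.eventually_ge_atTop (Real.exp (4 + lam))))
  obtain ⟨N1, hN1⟩ := Filter.eventually_atTop.1 ((Real.tendsto_log_atTop.comp tendsto_natCast_atTop_atTop).eventually_ge_atTop y1)
  have g2 : ∀ᶠ x : ℝ in Filter.atTop, 180 * Real.log x ≤ (ε / 2) ^ 2 * x := by
    have := (Real.isLittleO_log_id_atTop.bound (show (0 : ℝ) < (ε / 2) ^ 2 / 180 by positivity))
    filter_upwards [this, Filter.eventually_ge_atTop 1] with x h1 h2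
    simp only [id_eq] at h1
    rw [Real.norm_of_nonneg (Real.log_nonneg h2), Real.norm_of_nonneg (by linarith)] at h1
    linarith
  obtain ⟨N2, hN2⟩ := Filter.eventually_atTop.1 (tendsto_natCast_atTop_atTop.eventually g2)
  refine ⟨⌊2 / (δ / κ)⌋₊, δ, lam, hδ0, by linarith, X0 + N1 + N2 + 400, fun N hN => ?_⟩
  have hNy : y1 ≤ Real.log N := hN1 N (by omega)
  obtain ⟨a1, a2⟩ := hy1 (Real.log N) hNy
  have g2' := hN2 N (by omega)
  obtain ⟨w, hw⟩ : ∃ w, w = Real.log (N : ℝ) := ⟨_, rfl⟩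
  rw [← hw] at a1 a2 g2'
  have hN0 : (0 : ℝ) < N := by exact_mod_cast (by omega : 0 < N)
  have hN1' : (1 : ℝ) < N := by exact_mod_cast (by omega : 1 < N)
  have he4 : 5 + lam ≤ Real.exp (4 + lam) := by
    have := Real.add_one_le_exp (4 + lam)
    linarith
  have hw0 : 0 < w := by linarith
  have hlw : 4 + lam ≤ Real.log w := (Real.le_log_iff_exp_le hw0).2 a2
  obtain ⟨q, hq⟩ : ∃ q, q = lam * w / Real.log w := ⟨_, rfl⟩
  have hs : w = w ^ (1 / 2 : ℝ) * w ^ (1 / 2 : ℝ) := by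
    rw [← Real.rpow_add hw0]
    norm_num
  have hsq0 : 0 < w ^ (1 / 2 : ℝ) := by positivity
  have hq1 : 4 * w ^ (1 / 2 : ℝ) ≤ q := by
    rw [hq, le_div_iff₀ (by linarith)]
    have h1 : 4 * w ^ (1 / 2 : ℝ) * Real.log w ≤ w := by nlinarith
    have h2 : w ≤ lam * w := by nlinarith
    linarith
  have hsq1 : 1 ≤ w ^ (1 / 2 : ℝ) := by linarith
  obtain ⟨K, hK⟩ : ∃ K : ℕ, K = ⌊q⌋₊ := ⟨_, rfl⟩
  have hKq : (K : ℝ) ≤ q := by
    rw [hK]
    exact Nat.floor_le (by linarith)
  have hKq2 : q < K + 1 := by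
    rw [hK]
    exact Nat.lt_floor_add_one q
  clear hK
  have hK3 : (3 : ℝ) ≤ K := by linarith
  have hK2 : 2 ≤ K := by
    have : (2 : ℝ) ≤ K := by linarith
    exact_mod_cast this
  have hKhalf : q / 2 ≤ K := by linarith
  have hlK : Real.log w / 2 ≤ Real.log K := by
    have h1 : w ^ (1 / 2 : ℝ) ≤ K := by linarith
    have h2 := Real.log_le_log hsq0 h1
    rw [Real.log_rpow hw0] at h2
    linarith
  have hKw : (K : ℝ) ≤ w := by
    refine hKq.trans ?_
    rw [hq, div_le_iff₀ (by linarith)]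
    nlinarith
  have hlK2 : Real.log K ≤ Real.log w := Real.log_le_log (by linarith) hKw
  have hqy : q * Real.log w = lam * w := by
    rw [hq]
    have : Real.log w ≠ 0 := by
      have : 0 < Real.log w := by linarith
      exact this.ne'
    field_simp
  have hKy : (K : ℝ) * Real.log K ≤ lam * w := by
    calc (K : ℝ) * Real.log K ≤ q * Real.log w := mul_le_mul hKq hlK2 (by linarith) (by linarith)
      _ = lam * w := hqy
  have hKlow : lam * w / 4 ≤ (K : ℝ) * Real.log K := by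
    calc lam * w / 4 = (q * Real.log w) / 4 := by rw [hqy]
      _ = q / 2 * (Real.log w / 2) := by ring
      _ ≤ (K : ℝ) * Real.log K := mul_le_mul hKhalf hlK (by linarith) (by linarith)
  obtain ⟨x, hx⟩ : ∃ x : ℕ, x = pr N := ⟨_, rfl⟩
  have hNxn : N ≤ x := by rw [hx]; exact le_pr
  have hNx : (N : ℝ) ≤ x := by exact_mod_cast hNxn
  have hx1' : (1 : ℝ) < x := by linarith
  have hx0 : (0 : ℝ) < x := by linarith
  have hlx : w ≤ Real.log x := by
    rw [hw]
    exact Real.log_le_log hN0 hNx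
  have hlx0 : 0 < Real.log x := by linarith
  have hlog9 : Real.log x ≤ 9 * w := by
    rw [hx, hw]
    exact log_pr_le (by omega)
  obtain ⟨y, hy⟩ : ∃ y : ℕ, y = ⌈Real.sqrt x⌉₊ := ⟨_, rfl⟩
  have hx400 : (400 : ℝ) ≤ x := by exact_mod_cast (by omega : 400 ≤ x)
  have hsx : 20 ≤ Real.sqrt x := by
    apply Real.le_sqrt_of_sq_le
    linarith
  have hsxx : Real.sqrt x * Real.sqrt x = x := Real.mul_self_sqrt hx0.le
  have hyl : Real.sqrt x ≤ y := by
    rw [hy]
    exact Nat.le_ceil _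
  have hyu : (y : ℝ) ≤ 2 * Real.sqrt x := by
    rw [hy]
    have := Nat.ceil_lt_add_one (Real.sqrt_nonneg (x : ℝ))
    linarith
  clear hy
  have hyx : 2 * y ≤ x := by
    have : (2 : ℝ) * y ≤ x := by
      calc (2 : ℝ) * y ≤ 4 * Real.sqrt x := by linarith
        _ ≤ Real.sqrt x * Real.sqrt x := mul_le_mul_of_nonneg_right (by linarith) (Real.sqrt_nonneg _)
        _ = x := hsxx
    exact_mod_cast this
  have hy12 : 12 ≤ y := by
    have : (12 : ℝ) ≤ y := by linarith
    exact_mod_cast this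
  have hX := hmain x y (by omega) (by rw [← Real.sqrt_eq_rpow]; exact hyl) hyx hy12 K (by
    have h1 : L * Real.log x ≤ L * (9 * w) := mul_le_mul_of_nonneg_left hlog9 hL.le
    have h2 : L * (9 * w) ≤ lam * w / 4 := by
      rw [hlam]
      have : (36 * L + 1) * w / 4 = L * (9 * w) + w / 4 := by ring
      rw [this]
      linarith
    linarith) (hKw.trans hlx)
  have hpc : ((Ioc y x).filter (fun t => t.Prime)).card ≤ N := by
    have h1 : ((Ioc y x).filter (fun t => t.Prime)).card ≤ (Icc 1 N).card := by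
      refine card_le_card_of_injOn Nat.primeCounting ?_ ?_
      · intro t ht
        rw [mem_coe, mem_filter, mem_Ioc] at ht
        rw [mem_coe, mem_Icc]
        refine ⟨?_, ?_⟩
        · have h1 : Nat.primeCounting t = Nat.count Nat.Prime t + 1 := by
            unfold Nat.primeCounting Nat.primeCounting'
            rw [Nat.count_succ, if_pos ht.2]
          omega
        · have h1 := Nat.monotone_primeCounting ht.1.2
          rw [hx, pi_pr (by omega)] at h1
          exact h1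
      · intro a ha b hb hab
        rw [mem_coe, mem_filter] at ha hb
        rw [← pr_pi' ha.2, ← pr_pi' hb.2, hab]
    rw [Nat.card_Icc, Nat.add_sub_cancel] at h1
    exact h1
  have hyN : (y : ℝ) ≤ ε / 2 * N := by
    have hxK : (x : ℝ) ≤ 45 * (N * w) := by
      have hc := cheb (three_le_pr (by omega : 2 ≤ N))
      rw [pi_pr (by omega)] at hc
      have hl := log_pr_le (by omega : 2 ≤ N)
      have h1 : (N : ℝ) * Real.log (pr N : ℝ) ≤ N * (9 * Real.log N) := mul_le_mul_of_nonneg_left hl hN0.le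
      rw [hx, hw]
      linarith
    have h1 : (y : ℝ) ^ 2 ≤ (ε / 2 * N) ^ 2 := by
      calc (y : ℝ) ^ 2 ≤ (2 * Real.sqrt x) ^ 2 := pow_le_pow_left₀ (Nat.cast_nonneg _) hyu 2
        _ = 4 * x := by
            rw [mul_pow, sq (Real.sqrt x), hsxx]
            norm_num
        _ ≤ (180 * w) * N := by linarith
        _ ≤ ((ε / 2) ^ 2 * N) * N := mul_le_mul_of_nonneg_right g2' hN0.le
        _ = (ε / 2 * N) ^ 2 := by ring
    exact (abs_le_of_sq_le_sq' h1 (by positivity)).2
  -- the covering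
  obtain ⟨E, hE⟩ : ∃ E, E = (Icc 1 N).filter (fun n : ℕ => ¬ ∃ k : ℕ, 1 < k ∧ (k : ℝ) ≤ lam * Real.log N / Real.log (Real.log N) ∧
      (pr n + cb k).primeFactorsList.length ≤ ⌊2 / (δ / κ)⌋₊ ∧
      ∀ l : ℕ, l.Prime → l ∣ pr n + cb k → (N : ℝ) ^ δ < l) := ⟨_, rfl⟩
  rw [← hE]
  have hcov : E ⊆ (Icc 1 y) ∪ (Icc 1 N).filter (fun n => pr n ∈ (Ioc y x).filter (fun t => t.Prime ∧ ¬ Gd (zl b0 x) K t)) := by
    intro n hn
    rw [hE, mem_filter] at hn
    obtain ⟨hn1, hn2⟩ := hn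
    have hn1' := hn1
    rw [mem_Icc] at hn1'
    rw [mem_union]
    rcases Nat.lt_or_ge y (pr n) with h | h
    · right
      rw [mem_filter]
      refine ⟨hn1, ?_⟩
      rw [mem_filter, mem_Ioc]
      refine ⟨⟨h, ?_⟩, pr_prime n, fun hgd => hn2 ?_⟩
      · rw [hx]
        exact pr_mono hn1'.2
      obtain ⟨k, k1, k2, k3⟩ := hgd
      have hprime : ∀ l : ℕ, l.Prime → l ∣ pr n + cb k → (x : ℝ) ^ δ < l := by
        intro l hl hd
        have h1 := k3 l hl hd
        unfold zl at h1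
        rw [← hδ] at h1
        exact (Nat.floor_lt (by positivity)).1 h1
      refine ⟨k, k1, ?_, ?_, fun l hl hd => lt_of_le_of_lt (Real.rpow_le_rpow hN0.le hNx hδ0.le) (hprime l hl hd)⟩
      · rw [← hw, ← hq]
        exact le_trans (by exact_mod_cast k2) hKq
      · refine Pool.Agent.H63.SG.Om_len (x := (x : ℝ) ^ κ) (one_lt_pow₀ hx1' (by omega)) (by positivity)
          (Nat.add_pos_left (pr_prime n).pos _) ?_ (fun l hl hd => ?_)
        · have h1 : (cb k : ℝ) ≤ (x : ℝ) ^ κ' := by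
            have h2 : cb k ≤ 2 ^ (pr k) :=
              (Nat.choose_le_two_pow _ _).trans (Nat.pow_le_pow_right (by norm_num) (Nat.sub_le _ _))
            have h3 : (cb k : ℝ) ≤ 2 ^ (pr k) := by exact_mod_cast h2
            have h4 : (2 : ℝ) ^ (pr k) ≤ Real.exp (pr k) := by
              have h5 : (2 : ℝ) ≤ Real.exp 1 := by
                have := Real.add_one_le_exp (1 : ℝ)
                linarith
              calc (2 : ℝ) ^ (pr k) ≤ (Real.exp 1) ^ (pr k) := pow_le_pow_left₀ (by norm_num) h5 _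
                _ = Real.exp (pr k) := by rw [← Real.exp_nat_mul, mul_one]
            have h6 : (pr k : ℝ) ≤ κ' * Real.log x := by
              have h7 : (pr k : ℝ) ≤ pr K := by exact_mod_cast pr_mono k2
              have hc' := cheb (three_le_pr hK2)
              rw [pi_pr (by omega)] at hc'
              have hl := log_pr_le hK2
              have h8 : (K : ℝ) * Real.log (pr K : ℝ) ≤ K * (9 * Real.log K) := mul_le_mul_of_nonneg_left hl (by linarith)
              have h9 : 45 * (lam * w) ≤ κ' * Real.log x := by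
                calc 45 * (lam * w) = (45 * lam) * w := by ring
                  _ ≤ κ' * Real.log x := mul_le_mul hκ' hlx hw0.le (Nat.cast_nonneg _)
              linarith
            have h9 : Real.exp (κ' * Real.log x) = (x : ℝ) ^ κ' := by
              rw [Real.exp_nat_mul, Real.exp_log hx0]
            exact h3.trans (h4.trans ((Real.exp_le_exp.2 h6).trans h9.le))
          have h2 : (pr n : ℝ) ≤ x := by
            rw [hx]
            exact_mod_cast pr_mono hn1'.2
          have hP : (1 : ℝ) ≤ (x : ℝ) ^ κ' := one_le_pow₀ hx1'.le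
          have h4 : (x : ℝ) ^ κ = (x : ℝ) ^ κ' * x := by rw [hκ, pow_succ]
          have h5 : (1 : ℝ) ≤ (x : ℝ) ^ κ := one_le_pow₀ hx1'.le
          have h6 : (x : ℝ) + (x : ℝ) ^ κ' ≤ 2 * (x : ℝ) ^ κ := by
            rw [h4]
            have t1 : (x : ℝ) ≤ (x : ℝ) ^ κ' * x := le_mul_of_one_le_left hx0.le hP
            have t2 : (x : ℝ) ^ κ' ≤ (x : ℝ) ^ κ' * x := le_mul_of_one_le_right (by linarith) hx1'.le
            linarith
          have h7 : (2 : ℝ) ≤ (x : ℝ) ^ κ := by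
            rw [h4]
            exact le_trans (by linarith) (le_mul_of_one_le_left hx0.le hP)
          have h8 : 2 * (x : ℝ) ^ κ ≤ (x : ℝ) ^ κ * (x : ℝ) ^ κ := mul_le_mul_of_nonneg_right h7 (by linarith)
          rw [Nat.cast_add, sq]
          linarith
        · have e : ((x : ℝ) ^ κ) ^ (δ / κ) = (x : ℝ) ^ δ := by
            rw [← Real.rpow_natCast, ← Real.rpow_mul hx0.le]
            congr 1
            field_simp
          rw [e]
          exact hprime l hl hd
    · left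
      rw [mem_Icc]
      exact ⟨hn1'.1, le_pr.trans h⟩
  have hE2 : (((Icc 1 N).filter (fun n => pr n ∈ (Ioc y x).filter (fun t => t.Prime ∧ ¬ Gd (zl b0 x) K t))).card : ℝ) ≤ ε / 2 * N := by
    have h1 : ((Icc 1 N).filter (fun n => pr n ∈ (Ioc y x).filter (fun t => t.Prime ∧ ¬ Gd (zl b0 x) K t))).card ≤
        ((Ioc y x).filter (fun t => t.Prime ∧ ¬ Gd (zl b0 x) K t)).card := by
      refine card_le_card_of_injOn pr ?_ ?_
      · intro n hn
        rw [mem_coe, mem_filter] at hn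
        exact hn.2
      · intro a ha b hb hab
        rw [mem_coe, mem_filter, mem_Icc] at ha hb
        exact pr_inj ha.1.1 hb.1.1 hab
    have h2 : (((Icc 1 N).filter (fun n => pr n ∈ (Ioc y x).filter (fun t => t.Prime ∧ ¬ Gd (zl b0 x) K t))).card : ℝ) ≤
        ((((Ioc y x).filter (fun t => t.Prime ∧ ¬ Gd (zl b0 x) K t)).card : ℕ) : ℝ) := by exact_mod_cast h1
    have h3 : ((((Ioc y x).filter (fun t => t.Prime)).card : ℕ) : ℝ) ≤ N := by exact_mod_cast hpc
    have h4 : 22 * ε' ≤ ε / 2 := by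
      have : ε' ≤ ε / 44 := by rw [hε']; exact min_le_left _ _
      linarith
    calc _ ≤ _ := h2.trans hX
      _ ≤ 22 * ε' * N := mul_le_mul_of_nonneg_left h3 (by positivity)
      _ ≤ ε / 2 * N := mul_le_mul_of_nonneg_right h4 hN0.le
  have h1 := (card_le_card hcov).trans (card_union_le _ _)
  have h2 : (E.card : ℝ) ≤ ((Icc 1 y).card : ℝ) +
      (((Icc 1 N).filter (fun n => pr n ∈ (Ioc y x).filter (fun t => t.Prime ∧ ¬ Gd (zl b0 x) K t))).card : ℝ) := by
    exact_mod_cast h1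
  rw [Nat.card_Icc, Nat.add_sub_cancel] at h2
  linarith

end H78AP
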