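import Pool.Agent.H78.AP.Dg
import Pool.Agent.H78.CB.Ch

/-!
# The average over `k` of the sum of `1/l` over the primes `l < p_k` which do not divide the central binomial coefficient
-/

set_option autoImplicit false

open Finset

namespace H78AP

open Pool.Agent.H78.CB Pool.Agent.H67.GT

lemma T_ge (I : ℕ) (hI : 1 ≤ I) : Nat.log 2 I ≤ I / 2 := by
  obtain ⟨s, hs⟩ : ∃ s, s = Nat.log 2 I := ⟨_, rfl⟩
  have h1 : 2 ^ s ≤ I := by
    rw [hs]
    exact Nat.pow_log_le_self 2 (by omega)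
  rw [← hs]
  rcases Nat.eq_zero_or_pos s with h | h
  · omega
  · obtain ⟨r, rfl⟩ : ∃ r, s = r + 1 := ⟨s - 1, by omega⟩
    have h2 : r < 2 ^ r := Nat.lt_two_pow_self
    rw [pow_succ] at h1
    omega

theorem scale : ∃ C : ℝ, 0 < C ∧ ∀ X s : ℕ, 13 ≤ X →
    ∑ l ∈ (Icc 13 X).filter (fun l => l.Prime ∧ Nat.log 2 (Nat.log l X) = s), 1 / (l : ℝ) ≤ C := by
  obtain ⟨c, hc, h1, -, -, -, -⟩ := MERT.mert
  refine ⟨1 + c, by linarith, fun X s hX => ?_⟩
  rcases ((Icc 13 X).filter (fun l => l.Prime ∧ Nat.log 2 (Nat.log l X) = s)).eq_empty_or_nonempty with he | ⟨l0, hl0⟩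
  · rw [he, sum_empty]
    linarith
  have hX0 : (0 : ℝ) < X := by exact_mod_cast (by omega : 0 < X)
  have hlX : 0 < Real.log X := Real.log_pos (by exact_mod_cast (by omega : 1 < X))
  obtain ⟨u, hu⟩ : ∃ u : ℝ, u = Real.log X / 2 ^ (s + 1) := ⟨_, rfl⟩
  have hu0 : 0 < u := by rw [hu]; positivity
  have key : ∀ l ∈ (Icc 13 X).filter (fun l => l.Prime ∧ Nat.log 2 (Nat.log l X) = s), u < Real.log l ∧ Real.log l ≤ 2 * u := by
    intro l hl
    rw [mem_filter, mem_Icc] at hl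
    obtain ⟨⟨hl13, hlX'⟩, hlp, hls⟩ := hl
    have hI1 : 1 ≤ Nat.log l X := Nat.log_pos (by omega) hlX'
    have a1 : 2 ^ s ≤ Nat.log l X := by
      rw [← hls]
      exact Nat.pow_log_le_self 2 (by omega)
    have a2 : Nat.log l X < 2 ^ (s + 1) := by
      rw [← hls]
      exact Nat.lt_pow_succ_log_self (by norm_num) _
    have a3 : l ^ (2 ^ s) ≤ X := (Nat.pow_le_pow_right (by omega) a1).trans (Nat.pow_log_le_self l (by omega))
    have a4 : X < l ^ (2 ^ (s + 1)) :=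
      (Nat.lt_pow_succ_log_self (by omega) X).trans_le (Nat.pow_le_pow_right (by omega) a2)
    have hl0' : (0 : ℝ) < l := by exact_mod_cast hlp.pos
    have b3 : (2 : ℝ) ^ s * Real.log l ≤ Real.log X := by
      have : ((l : ℝ)) ^ (2 ^ s) ≤ X := by exact_mod_cast a3
      have h := Real.log_le_log (by positivity) this
      rw [Real.log_pow] at h
      push_cast at h
      exact h
    have b4 : Real.log X < (2 : ℝ) ^ (s + 1) * Real.log l := by
      have : (X : ℝ) < (l : ℝ) ^ (2 ^ (s + 1)) := by exact_mod_cast a4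
      have h := Real.log_lt_log hX0 this
      rw [Real.log_pow] at h
      push_cast at h
      exact h
    refine ⟨?_, ?_⟩
    · rw [hu, div_lt_iff₀ (by positivity)]
      linarith
    · rw [hu]
      have e : 2 * (Real.log X / 2 ^ (s + 1)) = Real.log X / 2 ^ s := by
        rw [pow_succ]
        field_simp
      rw [e, le_div_iff₀ (by positivity)]
      linarith
  have hu1 : 1 ≤ u := by
    have h2 := (key l0 hl0).2
    rw [mem_filter, mem_Icc] at hl0
    have h3 : (13 : ℝ) ≤ l0 := by exact_mod_cast hl0.1.1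
    have h4 : Real.log 13 ≤ Real.log l0 := Real.log_le_log (by norm_num) h3
    have h5 : (2 : ℝ) ≤ Real.log 13 := by
      rw [Real.le_log_iff_exp_le (by norm_num)]
      have h6 := Real.exp_one_lt_d9
      have h7 : Real.exp 2 = Real.exp 1 * Real.exp 1 := by
        rw [← Real.exp_add]
        norm_num
      rw [h7]
      nlinarith [Real.exp_pos 1]
    linarith
  have hm := h1 (Real.exp u) (Real.exp (2 * u)) (Real.one_le_exp hu0.le) (Real.exp_le_exp.2 (by linarith))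
  have hdiv : Real.log (Real.exp (2 * u) / Real.exp u) = u := by
    rw [← Real.exp_sub, Real.log_exp]
    ring
  rw [hdiv] at hm
  have h2 : ∑ l ∈ (Icc 13 X).filter (fun l => l.Prime ∧ Nat.log 2 (Nat.log l X) = s), u * (1 / (l : ℝ)) ≤
      ∑ p ∈ (Finset.Icc 1 ⌊Real.exp (2 * u)⌋₊).filter (fun p : ℕ => p.Prime ∧ Real.exp u < p), Real.log p / p := by
    have hsub : (Icc 13 X).filter (fun l => l.Prime ∧ Nat.log 2 (Nat.log l X) = s) ⊆
        (Finset.Icc 1 ⌊Real.exp (2 * u)⌋₊).filter (fun p : ℕ => p.Prime ∧ Real.exp u < p) := by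
      intro l hl
      obtain ⟨k1, k2⟩ := key l hl
      rw [mem_filter, mem_Icc] at hl
      have hl0' : (0 : ℝ) < l := by exact_mod_cast hl.2.1.pos
      rw [mem_filter, mem_Icc]
      refine ⟨⟨by omega, Nat.le_floor ?_⟩, hl.2.1, ?_⟩
      · rw [← Real.log_le_iff_le_exp hl0']
        exact k2
      · rw [← Real.lt_log_iff_exp_lt hl0']
        exact k1
    refine le_trans ?_ (sum_le_sum_of_subset_of_nonneg hsub (fun l hl _ => ?_))
    · refine sum_le_sum (fun l hl => ?_)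
      obtain ⟨k1, k2⟩ := key l hl
      rw [mul_one_div]
      exact div_le_div_of_nonneg_right k1.le (Nat.cast_nonneg _)
    · rw [mem_filter, mem_Icc] at hl
      have : (1 : ℝ) ≤ l := by exact_mod_cast hl.1.1
      exact div_nonneg (Real.log_nonneg this) (Nat.cast_nonneg _)
  rw [← mul_sum] at h2
  have h3 : u * ∑ l ∈ (Icc 13 X).filter (fun l => l.Prime ∧ Nat.log 2 (Nat.log l X) = s), 1 / (l : ℝ) ≤ u * (1 + c) := by
    refine (h2.trans hm).trans ?_
    nlinarith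
  exact le_of_mul_le_mul_left h3 hu0

theorem wsum : ∃ C : ℝ, 0 < C ∧ ∀ X : ℕ, 13 ≤ X →
    ∑ l ∈ (Icc 13 X).filter Nat.Prime, 1 / (l : ℝ) * (7 / 13 : ℝ) ^ (Nat.log l X / 2) ≤ C := by
  obtain ⟨C, hC, h⟩ := scale
  refine ⟨C * (13 / 6), by positivity, fun X hX => ?_⟩
  have hmaps : ∀ l ∈ (Icc 13 X).filter Nat.Prime, Nat.log 2 (Nat.log l X) ∈ range (X + 1) := by
    intro l hl
    rw [mem_range]
    have h1 : Nat.log 2 (Nat.log l X) ≤ Nat.log l X := Nat.log_le_self _ _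
    have h2 : Nat.log l X ≤ X := Nat.log_le_self _ _
    omega
  rw [← sum_fiberwise_of_maps_to hmaps]
  have h2 : ∀ s ∈ range (X + 1), ∑ l ∈ ((Icc 13 X).filter Nat.Prime).filter (fun l => Nat.log 2 (Nat.log l X) = s),
      1 / (l : ℝ) * (7 / 13 : ℝ) ^ (Nat.log l X / 2) ≤ C * (7 / 13 : ℝ) ^ s := by
    intro s _
    rw [filter_filter]
    calc ∑ l ∈ (Icc 13 X).filter (fun l => l.Prime ∧ Nat.log 2 (Nat.log l X) = s), 1 / (l : ℝ) * (7 / 13 : ℝ) ^ (Nat.log l X / 2)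
        ≤ ∑ l ∈ (Icc 13 X).filter (fun l => l.Prime ∧ Nat.log 2 (Nat.log l X) = s), 1 / (l : ℝ) * (7 / 13 : ℝ) ^ s := by
          refine sum_le_sum (fun l hl => ?_)
          rw [mem_filter, mem_Icc] at hl
          have hI1 : 1 ≤ Nat.log l X := Nat.log_pos (by omega) hl.1.2
          have h3 := T_ge _ hI1
          rw [hl.2.2] at h3
          exact mul_le_mul_of_nonneg_left (pow_le_pow_of_le_one (by norm_num) (by norm_num) h3) (by positivity)
      _ = (∑ l ∈ (Icc 13 X).filter (fun l => l.Prime ∧ Nat.log 2 (Nat.log l X) = s), 1 / (l : ℝ)) * (7 / 13 : ℝ) ^ s := by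
          rw [sum_mul]
      _ ≤ C * (7 / 13 : ℝ) ^ s := mul_le_mul_of_nonneg_right (h X s hX) (by positivity)
  refine (sum_le_sum h2).trans ?_
  rw [← mul_sum]
  refine mul_le_mul_of_nonneg_left ?_ hC.le
  rw [geom_sum_eq (by norm_num)]
  have h4 : (0 : ℝ) ≤ (7 / 13 : ℝ) ^ (X + 1) := by positivity
  have e : ((7 / 13 : ℝ) ^ (X + 1) - 1) / (7 / 13 - 1) = (13 / 6) * (1 - (7 / 13 : ℝ) ^ (X + 1)) := by ring
  rw [e]
  nlinarith

/-- the primes `13 ≤ l < p_k` which do not divide `cb k` -/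
noncomputable def EE (k : ℕ) : Finset ℕ := (Icc 13 (pr k)).filter (fun l => l.Prime ∧ l < pr k ∧ ¬ l ∣ cb k)

theorem avg : ∃ C : ℝ, 0 < C ∧ ∀ K : ℕ, 2 ≤ K → ∑ k ∈ Icc 1 K, ∑ l ∈ EE k, 1 / (l : ℝ) ≤ C * K := by
  obtain ⟨C1, hC1, hN⟩ := NN_card
  obtain ⟨C2, hC2, hw⟩ := wsum
  refine ⟨C1 * 5 * C2 + 1, by positivity, fun K hK => ?_⟩
  have hK0 : (0 : ℝ) < K := by exact_mod_cast (by omega : 0 < K)
  rcases Nat.lt_or_ge (pr K) 13 with hs | hX
  · have : ∑ k ∈ Icc 1 K, ∑ l ∈ EE k, 1 / (l : ℝ) = 0 := by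
      refine sum_eq_zero (fun k hk => ?_)
      rw [mem_Icc] at hk
      have h1 := pr_mono hk.2
      have : EE k = ∅ := by
        unfold EE
        rw [filter_eq_empty_iff]
        intro l hl
        rw [mem_Icc] at hl
        omega
      rw [this, sum_empty]
    rw [this]
    positivity
  have hsw : ∑ k ∈ Icc 1 K, ∑ l ∈ EE k, 1 / (l : ℝ) =
      ∑ l ∈ (Icc 13 (pr K)).filter Nat.Prime, ∑ k ∈ (Icc 1 K).filter (fun k => l ∈ EE k), 1 / (l : ℝ) := by
    refine sum_comm' (fun k l => ?_)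
    constructor
    · rintro ⟨hk, hl⟩
      have hl' := hl
      unfold EE at hl'
      rw [mem_filter, mem_Icc] at hl'
      rw [mem_Icc] at hk
      have h1 := pr_mono hk.2
      refine ⟨?_, ?_⟩
      · rw [mem_filter, mem_Icc]
        exact ⟨hk, hl⟩
      · rw [mem_filter, mem_Icc]
        exact ⟨⟨hl'.1.1, by omega⟩, hl'.2.1⟩
    · rintro ⟨hk, hl⟩
      rw [mem_filter] at hk
      exact hk
  rw [hsw]
  have h1 : ∀ l ∈ (Icc 13 (pr K)).filter Nat.Prime, ∑ k ∈ (Icc 1 K).filter (fun k => l ∈ EE k), 1 / (l : ℝ) ≤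
      C1 * (pr K / Real.log (pr K)) * (1 / (l : ℝ) * (7 / 13 : ℝ) ^ (Nat.log l (pr K) / 2)) := by
    intro l hl
    rw [mem_filter, mem_Icc] at hl
    rw [sum_const, nsmul_eq_mul]
    have h2 : ((Icc 1 K).filter (fun k => l ∈ EE k)).card ≤ (NN l (pr K)).card := by
      refine card_le_card_of_injOn pr ?_ ?_
      · intro k hk
        rw [mem_coe, mem_filter, mem_Icc] at hk
        obtain ⟨⟨hk1, hkK⟩, hk2⟩ := hk
        unfold EE at hk2
        rw [mem_filter, mem_Icc] at hk2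
        rw [mem_coe]
        unfold NN
        rw [mem_filter, mem_Icc]
        exact ⟨⟨(pr_prime k).one_le, pr_mono hkK⟩, pr_prime k, hk2.2.2.1, hk2.2.2.2⟩
      · intro a ha b hb hab
        rw [mem_coe, mem_filter, mem_Icc] at ha hb
        exact pr_inj ha.1.1 hb.1.1 hab
    have h3 := hN l (pr K) hl.2 hl.1.1 hl.1.2
    have h4 : ((((Icc 1 K).filter (fun k => l ∈ EE k)).card : ℕ) : ℝ) ≤ ((NN l (pr K)).card : ℝ) := by exact_mod_cast h2
    calc ((((Icc 1 K).filter (fun k => l ∈ EE k)).card : ℕ) : ℝ) * (1 / (l : ℝ))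
        ≤ (C1 * (pr K / Real.log (pr K)) * (7 / 13 : ℝ) ^ (Nat.log l (pr K) / 2)) * (1 / (l : ℝ)) :=
          mul_le_mul_of_nonneg_right (h4.trans h3) (by positivity)
      _ = _ := by ring
  refine (sum_le_sum h1).trans ?_
  rw [← mul_sum]
  have hcheb := cheb (P := pr K) (by omega)
  rw [pi_pr (by omega)] at hcheb
  have hl0 : 0 < Real.log (pr K) := Real.log_pos (by exact_mod_cast (by omega : 1 < pr K))
  have h5 : (pr K : ℝ) / Real.log (pr K) ≤ 5 * K := by
    rw [div_le_iff₀ hl0]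
    linarith
  have h6 := hw (pr K) hX
  have h7 : (0 : ℝ) ≤ (pr K : ℝ) / Real.log (pr K) := div_nonneg (Nat.cast_nonneg _) hl0.le
  calc C1 * (pr K / Real.log (pr K)) * ∑ l ∈ (Icc 13 (pr K)).filter Nat.Prime, 1 / (l : ℝ) * (7 / 13 : ℝ) ^ (Nat.log l (pr K) / 2)
      ≤ C1 * (5 * K) * C2 := by
        refine mul_le_mul (mul_le_mul_of_nonneg_left h5 hC1.le) h6 (sum_nonneg (fun l _ => by positivity)) (by positivity)
    _ ≤ (C1 * 5 * C2 + 1) * K := by nlinarith

end H78AP
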