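import Pool.Agent.H78.AP.Col

/-!
# The number of coincidences
-/

set_option autoImplicit false

open Finset

namespace H78AP

section gen

variable {α β γ : Type*} [DecidableEq α] [DecidableEq β] [DecidableEq γ]

lemma pc (A : Finset α) (f : α → β) (t : Finset β) (h : ∀ a ∈ A, f a ∈ t) :
    ((A ×ˢ A).filter (fun e => f e.1 = f e.2)).card = ∑ b ∈ t, (A.filter (fun a => f a = b)).card ^ 2 := by
  rw [card_eq_sum_card_fiberwise (f := fun e : α × α => f e.1) (t := t)]
  · refine sum_congr rfl (fun b _ => ?_)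
    rw [sq, ← card_product]
    congr 1
    ext e
    simp only [mem_filter, mem_product]
    constructor
    · rintro ⟨⟨⟨h1, h2⟩, h3⟩, h4⟩
      exact ⟨⟨h1, h4⟩, h2, by rw [← h3, h4]⟩
    · rintro ⟨⟨h1, h2⟩, h3, h4⟩
      exact ⟨⟨⟨h1, h3⟩, by rw [h2, h4]⟩, h2⟩
  · intro e he
    rw [mem_coe, mem_filter, mem_product] at he
    exact h _ he.1.1

lemma pcs (A : Finset α) (f : α → β) (t : Finset β) (h : ∀ a ∈ A, f a ∈ t) (g : α → γ) (u : Finset γ) (hg : ∀ a ∈ A, g a ∈ u) :
    ((A ×ˢ A).filter (fun e => f e.1 = f e.2)).card ≤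
      u.card * ((A ×ˢ A).filter (fun e => f e.1 = f e.2 ∧ g e.1 = g e.2)).card := by
  have h1 : ((A ×ˢ A).filter (fun e => f e.1 = f e.2 ∧ g e.1 = g e.2)).card =
      ∑ b ∈ t, ∑ c ∈ u, (A.filter (fun a => f a = b ∧ g a = c)).card ^ 2 := by
    have h2 := pc A (fun a => (f a, g a)) (t ×ˢ u) (fun a ha => mem_product.2 ⟨h a ha, hg a ha⟩)
    simp only [Prod.mk.injEq] at h2
    rw [h2, sum_product]
    refine sum_congr rfl (fun b _ => sum_congr rfl (fun c _ => ?_))
    simp only [Prod.mk.injEq]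
  rw [pc A f t h, h1, mul_sum]
  refine sum_le_sum (fun b _ => ?_)
  have h3 : (A.filter (fun a => f a = b)).card = ∑ c ∈ u, (A.filter (fun a => f a = b ∧ g a = c)).card := by
    rw [card_eq_sum_card_fiberwise (f := g) (t := u)]
    · refine sum_congr rfl (fun c _ => ?_)
      rw [filter_filter]
    · intro a ha
      rw [mem_coe, mem_filter] at ha
      exact hg a ha.1
  rw [h3]
  exact sq_sum_le_card_mul_sum_sq

end gen

open Classical in
/-- the `m < n` with `c_m` not divisible by `l` -/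
noncomputable def AA (l n : ℕ) : Finset ℕ := (range n).filter (fun m => ((Nat.centralBinom m : ℕ) : ZMod l) ≠ 0)

open Classical in
theorem collide {l n : ℕ} [hl : Fact l.Prime] (hl4 : 4 ≤ l) (hn : l ≤ n) :
    (((((AA l n) ×ˢ (AA l n)).filter (fun e => ((Nat.centralBinom e.1 : ℕ) : ZMod l) = ((Nat.centralBinom e.2 : ℕ) : ZMod l))).card : ℕ) : ℝ) ≤
      15 * (n : ℝ) ^ 2 / Real.sqrt l := by
  obtain ⟨s, hs⟩ : ∃ s, s = Nat.sqrt l := ⟨_, rfl⟩
  have hs2 : 2 ≤ s := by
    rw [hs]
    exact Nat.le_sqrt.2 (by omega)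
  have hss : s * s ≤ l := by
    rw [hs]
    exact Nat.sqrt_le l
  have hss2 : l < (s + 1) * (s + 1) := by
    rw [hs]
    exact Nat.lt_succ_sqrt l
  haveI : NeZero l := ⟨hl.out.ne_zero⟩
  obtain ⟨f, hf⟩ : ∃ f : ℕ → ZMod l, f = fun m => ((Nat.centralBinom m : ℕ) : ZMod l) := ⟨_, rfl⟩
  obtain ⟨CD, hCD⟩ : ∃ CD : ℕ → Finset ℕ, CD = fun d => (range n).filter (fun m => ((Nat.centralBinom m : ℕ) : ZMod l) ≠ 0 ∧
      ((Nat.centralBinom (m + d) : ℕ) : ZMod l) = ((Nat.centralBinom m : ℕ) : ZMod l)) := ⟨_, rfl⟩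
  have hCDc : ∀ d ∈ Ico 1 s, (CD d).card ≤ s * (2 * n / l) := by
    intro d hd
    rw [mem_Ico] at hd
    have h1 := count_d (l := l) (d := d) hd.1 (by nlinarith) n
    rw [hCD]
    refine h1.trans (Nat.mul_le_mul hd.2.le ?_)
    have h2 : 1 ≤ n / l := (Nat.one_le_div_iff hl.out.pos).2 hn
    have h3 : 2 * (n / l) ≤ 2 * n / l := by
      rw [Nat.le_div_iff_mul_le hl.out.pos]
      have := Nat.div_mul_le_self n l
      nlinarith
    omega
  have h1 := pcs (AA l n) f univ (fun a _ => mem_univ _) (fun m => m / s) (range (n / s + 1)) (fun a ha => by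
    unfold AA at ha
    rw [mem_filter, mem_range] at ha
    rw [mem_range]
    have : a / s ≤ n / s := Nat.div_le_div_right ha.1.le
    omega)
  have hQ : (((AA l n) ×ˢ (AA l n)).filter (fun e => f e.1 = f e.2 ∧ e.1 / s = e.2 / s)) ⊆
      ((range n).image (fun m => (m, m))) ∪ (((Ico 1 s).biUnion (fun d => (CD d).image (fun m => (m, m + d)))) ∪
        ((Ico 1 s).biUnion (fun d => (CD d).image (fun m => (m + d, m))))) := by
    rintro ⟨a, b⟩ he
    rw [mem_filter, mem_product] at he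
    obtain ⟨⟨ha, hb⟩, hab, hg⟩ := he
    simp only at ha hb hab hg
    unfold AA at ha hb
    rw [mem_filter, mem_range] at ha hb
    rw [hf] at hab
    simp only at hab
    have hda := Nat.div_add_mod a s
    have hdb := Nat.div_add_mod b s
    have hma : a % s < s := Nat.mod_lt _ (by omega)
    have hmb : b % s < s := Nat.mod_lt _ (by omega)
    rw [hg] at hda
    rw [mem_union, mem_union]
    rcases lt_trichotomy a b with h | h | h
    · right
      left
      rw [mem_biUnion]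
      refine ⟨b - a, mem_Ico.2 ⟨by omega, by omega⟩, ?_⟩
      rw [mem_image]
      refine ⟨a, ?_, by rw [show a + (b - a) = b by omega]⟩
      rw [hCD]
      simp only
      rw [mem_filter, mem_range, show a + (b - a) = b by omega]
      exact ⟨ha.1, ha.2, hab.symm⟩
    · left
      rw [mem_image]
      exact ⟨a, mem_range.2 ha.1, by rw [h]⟩
    · right
      right
      rw [mem_biUnion]
      refine ⟨a - b, mem_Ico.2 ⟨by omega, by omega⟩, ?_⟩
      rw [mem_image]
      refine ⟨b, ?_, by rw [show b + (a - b) = a by omega]⟩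
      rw [hCD]
      simp only
      rw [mem_filter, mem_range, show b + (a - b) = a by omega]
      exact ⟨hb.1, hb.2, hab⟩
  have hQc : (((AA l n) ×ˢ (AA l n)).filter (fun e => f e.1 = f e.2 ∧ e.1 / s = e.2 / s)).card ≤ 5 * n := by
    have h2 : ∀ F : ℕ → ℕ → ℕ × ℕ, ((Ico 1 s).biUnion (fun d => (CD d).image (F d))).card ≤ 2 * n := by
      intro F
      refine card_biUnion_le.trans ?_
      calc ∑ d ∈ Ico 1 s, ((CD d).image (F d)).card ≤ ∑ _d ∈ Ico 1 s, s * (2 * n / l) :=
            sum_le_sum (fun d hd => card_image_le.trans (hCDc d hd))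
        _ = (s - 1) * (s * (2 * n / l)) := by rw [sum_const, Nat.card_Ico, smul_eq_mul]
        _ ≤ s * (s * (2 * n / l)) := Nat.mul_le_mul_right _ (Nat.sub_le _ _)
        _ = (s * s) * (2 * n / l) := by ring
        _ ≤ l * (2 * n / l) := Nat.mul_le_mul_right _ hss
        _ ≤ 2 * n := Nat.mul_div_le _ _
    refine (card_le_card hQ).trans ((card_union_le _ _).trans ?_)
    have h3 : ((range n).image (fun m => (m, m))).card ≤ n := card_image_le.trans (by rw [card_range])
    have h4 := card_union_le ((Ico 1 s).biUnion (fun d => (CD d).image (fun m => (m, m + d))))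
      ((Ico 1 s).biUnion (fun d => (CD d).image (fun m => (m + d, m))))
    have h5 := h2 (fun d m => (m, m + d))
    have h6 := h2 (fun d m => (m + d, m))
    omega
  have h2 : (((AA l n) ×ˢ (AA l n)).filter (fun e => f e.1 = f e.2)).card ≤ (n / s + 1) * (5 * n) := by
    refine h1.trans ?_
    rw [card_range]
    exact Nat.mul_le_mul_left _ hQc
  have h3 : ((((AA l n) ×ˢ (AA l n)).filter (fun e => f e.1 = f e.2)).card : ℝ) ≤ (((n / s + 1) * (5 * n) : ℕ) : ℝ) := by
    exact_mod_cast h2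
  have hs0 : (0 : ℝ) < s := by exact_mod_cast (by omega : 0 < s)
  have hl0 : (0 : ℝ) < l := by exact_mod_cast hl.out.pos
  have hn0 : (0 : ℝ) ≤ n := Nat.cast_nonneg _
  have hsn : (s : ℝ) ≤ n := by
    have : s ≤ n := by nlinarith
    exact_mod_cast this
  have hs21 : (2 : ℝ) ≤ s := by exact_mod_cast hs2
  have h4 : (((n / s + 1) * (5 * n) : ℕ) : ℝ) ≤ (2 * (n / (s : ℝ))) * (5 * n) := by
    push_cast
    refine mul_le_mul_of_nonneg_right ?_ (by positivity)
    have h5 : ((n / s : ℕ) : ℝ) ≤ (n : ℝ) / s := Nat.cast_div_le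
    have h6 : (1 : ℝ) ≤ (n : ℝ) / s := by
      rw [one_le_div hs0]
      exact hsn
    linarith
  have h5 : Real.sqrt l ≤ (6 / 5 : ℝ) * (s : ℝ) ∨ Real.sqrt l ≤ (3 / 2 : ℝ) * s := by
    right
    rw [Real.sqrt_le_left (by positivity)]
    have h6 : (l : ℝ) ≤ ((s + 1) * (s + 1) : ℕ) - 1 := by
      have : l + 1 ≤ (s + 1) * (s + 1) := by omega
      have h7 : ((l + 1 : ℕ) : ℝ) ≤ (((s + 1) * (s + 1) : ℕ) : ℝ) := by exact_mod_cast this
      push_cast at h7 ⊢
      linarith
    push_cast at h6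
    nlinarith
  have h6 : Real.sqrt l ≤ (3 / 2 : ℝ) * s := by
    rcases h5 with h | h
    · linarith
    · exact h
  have hsq : 0 < Real.sqrt l := Real.sqrt_pos.2 hl0
  rw [hf] at h3
  refine h3.trans (h4.trans ?_)
  rw [le_div_iff₀ hsq]
  have e : 2 * ((n : ℝ) / s) * (5 * n) = 10 * n ^ 2 / s := by ring
  rw [e, div_mul_eq_mul_div, div_le_iff₀ hs0]
  have h7 : 0 ≤ (n : ℝ) ^ 2 := by positivity
  nlinarith [mul_le_mul_of_nonneg_left h6 h7]

end H78AP
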