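import Pool.Agent.H78.AP.Wl
import Pool.Agent.H78.AP.U3

/-!
# Upper bound for the pairs of shifts
-/

set_option autoImplicit false

open Finset

namespace H78AP

open Pool.Agent.H78.CB

lemma centralBinom_lt (n : ℕ) : Nat.centralBinom n < Nat.centralBinom (n + 1) := by
  have h1 := Nat.succ_mul_centralBinom_succ n
  have h2 := Nat.centralBinom_pos n
  by_contra hcon
  rw [not_lt] at hcon
  have h3 : (n + 1) * Nat.centralBinom (n + 1) ≤ (n + 1) * Nat.centralBinom n := Nat.mul_le_mul_left _ hcon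
  nlinarith

lemma cb_eq {k : ℕ} (hk : 2 ≤ k) : cb k = Nat.centralBinom ((pr k - 1) / 2) := by
  have h3 := three_le_pr hk
  obtain ⟨m, hm⟩ : ∃ m, pr k = 2 * m + 1 := by
    rcases (pr_prime k).eq_two_or_odd' with h | h
    · omega
    · exact h
  unfold cb Nat.centralBinom
  rw [hm]
  have e1 : 2 * m + 1 - 1 = 2 * m := by omega
  have e2 : 2 * m / 2 = m := by omega
  rw [e1, e2]

lemma cb_lt {k j : ℕ} (hk : 2 ≤ k) (hkj : k < j) : cb k < cb j := by
  rw [cb_eq hk, cb_eq (by omega)]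
  refine strictMono_nat_of_lt_succ centralBinom_lt ?_
  have h1 : pr k < pr j := by
    rcases lt_or_eq_of_le (pr_mono hkj.le) with h | h
    · exact h
    · have := pr_inj (by omega) (by omega) h
      omega
  have h3 := three_le_pr hk
  obtain ⟨m, hm⟩ : ∃ m, pr k = 2 * m + 1 := by
    rcases (pr_prime k).eq_two_or_odd' with h | h
    · omega
    · exact h
  obtain ⟨m', hm'⟩ : ∃ m', pr j = 2 * m' + 1 := by
    rcases (pr_prime j).eq_two_or_odd' with h | h
    · omega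
    · exact h
  omega

lemma card_pf {n a : ℕ} (hn : n ≠ 0) (h : n ≤ 2 ^ a) : n.primeFactors.card ≤ a := by
  have h1 : 2 ^ n.primeFactors.card ≤ ∏ p ∈ n.primeFactors, p := by
    rw [← prod_const]
    exact prod_le_prod' (fun p hp => (Nat.prime_of_mem_primeFactors hp).two_le)
  have h2 : ∏ p ∈ n.primeFactors, p ≤ n := Nat.le_of_dvd (Nat.pos_of_ne_zero hn) (Nat.prod_primeFactors_dvd n)
  exact (Nat.pow_le_pow_iff_right (by norm_num : 1 < 2)).1 ((h1.trans h2).trans h)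

lemma im_one {α : Type*} [DecidableEq α] (u : Fin 3 → α) : 1 ≤ (univ.image u).card := by
  rw [Nat.one_le_iff_ne_zero, Ne, card_eq_zero, image_eq_empty]
  exact univ_nonempty.ne_empty

lemma im_two {α : Type*} [DecidableEq α] (u : Fin 3 → α) (a b : Fin 3) (hab : u a ≠ u b) : 2 ≤ (univ.image u).card := by
  rw [← card_pair hab]
  refine card_le_card ?_
  intro v hv
  rw [mem_insert, mem_singleton] at hv
  rcases hv with rfl | rfl
  · exact mem_image_of_mem _ (mem_univ _)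
  · exact mem_image_of_mem _ (mem_univ _)

lemma im_three {α : Type*} [DecidableEq α] (u : Fin 3 → α) (h1 : u 0 ≠ u 1) (h2 : u 0 ≠ u 2) (h3 : u 1 ≠ u 2) :
    3 ≤ (univ.image u).card := by
  have hc : ({u 0, u 1, u 2} : Finset α).card = 3 := by
    rw [card_insert_of_notMem, card_pair h3]
    rw [mem_insert, mem_singleton]
    exact fun h => h.elim h1 h2
  refine hc.symm.le.trans (card_le_card ?_)
  intro v hv
  rw [mem_insert, mem_insert, mem_singleton] at hv
  rcases hv with rfl | rfl | rfl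
  · exact mem_image_of_mem _ (mem_univ _)
  · exact mem_image_of_mem _ (mem_univ _)
  · exact mem_image_of_mem _ (mem_univ _)

theorem pairU : ∃ δ₀ : ℝ, 0 < δ₀ ∧ δ₀ ≤ 1 / 8 ∧ ∀ δ : ℝ, 0 < δ → δ ≤ δ₀ → ∃ C : ℝ, 0 < C ∧ ∃ X0 : ℕ, ∀ x : ℕ, X0 ≤ x →
    ∀ k j : ℕ, 2 ≤ k → k < j → (pr j : ℝ) ≤ (x : ℝ) ^ δ → ∀ A : ℝ, ∑ l ∈ EE j, 1 / (l : ℝ) ≤ A →
    ∀ G : Finset ℕ, (∀ t ∈ G, 1 ≤ t ∧ t ≤ x ∧ t.Prime ∧ (x : ℝ) ^ δ < t ∧ ∀ l : ℕ, l.Prime → 12 < l → (l : ℝ) ≤ (x : ℝ) ^ δ →
      ¬ l ∣ t + cb k ∧ ¬ l ∣ t + cb j) →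
    (G.card : ℝ) ≤ C * Real.exp (6 * (A + 1)) * ((x : ℝ) / Real.log x ^ 3) * (ww k * ww j) := by
  classical
  obtain ⟨δ₀, hδ₀, hδ₀1, hU⟩ := U3_bd
  refine ⟨δ₀, hδ₀, hδ₀1, fun δ hδ hδ1 => ?_⟩
  obtain ⟨C, hC, X0, hX⟩ := hU δ hδ hδ1
  refine ⟨C, hC, X0 + 3, fun x hx k j hk hkj hpj A hA G hG => ?_⟩
  have hlt := cb_lt hk hkj
  obtain ⟨Bad, hBad⟩ : ∃ Bad, Bad = (cb j - cb k).primeFactors.filter (fun l => ¬ l ∣ cb k ∧ ¬ l ∣ cb j) := ⟨_, rfl⟩
  have hpk : (pr k : ℝ) ≤ (x : ℝ) ^ δ := le_trans (by exact_mod_cast pr_mono hkj.le) hpj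
  have hZ : ∀ i : ℕ, (pr i : ℝ) ≤ (x : ℝ) ^ δ → ∀ l ∈ ZZ i, l.Prime ∧ 12 < l ∧ (l : ℝ) ≤ (x : ℝ) ^ δ := by
    intro i hi l hl
    rw [mem_ZZ] at hl
    refine ⟨hl.1, hl.2.1, le_trans ?_ hi⟩
    exact_mod_cast (cb_smooth i l hl.1 hl.2.2).le
  have hmain := hX x (by omega) (fun i l => (![0, -((cb k : ℕ) : ZMod l), -((cb j : ℕ) : ZMod l)] : Fin 3 → ZMod l) i)
    (ZZ k) (ZZ j) Bad (hZ k hpk) (hZ j hpj) (by
      intro l hl hl12 hlx hlB
      have hfact : Fact l.Prime := ⟨hl⟩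
      have hnz : ∀ i : ℕ, l ∉ ZZ i → (-((cb i : ℕ) : ZMod l)) ≠ 0 := by
        intro i hi h0
        rw [neg_eq_zero, ZMod.natCast_eq_zero_iff] at h0
        exact hi (mem_ZZ.2 ⟨hl, hl12, h0⟩)
      obtain ⟨u, hu⟩ : ∃ u : Fin 3 → ZMod l, u = ![0, -((cb k : ℕ) : ZMod l), -((cb j : ℕ) : ZMod l)] := ⟨_, rfl⟩
      have hcard := im_one u
      have htwo := im_two u
      have hthree := im_three u
      have u0 : u 0 = 0 := by rw [hu]; rfl
      have u1 : u 1 = -((cb k : ℕ) : ZMod l) := by rw [hu]; rfl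
      have u2 : u 2 = -((cb j : ℕ) : ZMod l) := by rw [hu]; rfl
      have e : (fun i => (![0, -((cb k : ℕ) : ZMod l), -((cb j : ℕ) : ZMod l)] : Fin 3 → ZMod l) i) = u := by
        rw [hu]
      rw [e]
      by_cases hk1 : l ∈ ZZ k
      · rw [if_pos hk1]
        by_cases hj1 : l ∈ ZZ j
        · rw [if_pos hj1]
          omega
        · rw [if_neg hj1]
          have := htwo 0 2 (by
            rw [u0, u2]
            exact (hnz j hj1).symm)
          omega
      · rw [if_neg hk1]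
        by_cases hj1 : l ∈ ZZ j
        · rw [if_pos hj1]
          have := htwo 0 1 (by
            rw [u0, u1]
            exact (hnz k hk1).symm)
          omega
        · rw [if_neg hj1]
          have := hthree (by
            rw [u0, u1]
            exact (hnz k hk1).symm) (by
            rw [u0, u2]
            exact (hnz j hj1).symm) (by
            rw [u1, u2]
            intro hh
            rw [neg_inj] at hh
            apply hlB
            rw [hBad, mem_filter, Nat.mem_primeFactors]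
            refine ⟨⟨hl, ?_, by omega⟩, fun h => hk1 (mem_ZZ.2 ⟨hl, hl12, h⟩), fun h => hj1 (mem_ZZ.2 ⟨hl, hl12, h⟩)⟩
            rw [← ZMod.natCast_eq_zero_iff, Nat.cast_sub hlt.le, hh, sub_self])
          omega) G (by
      intro t ht
      obtain ⟨t1, t2, t3, t4, t5⟩ := hG t ht
      refine ⟨t1, t2, fun l hl hl12 hlx i => ?_⟩
      obtain ⟨t6, t7⟩ := t5 l hl hl12 hlx
      have hlt' : (l : ℝ) < t := lt_of_le_of_lt hlx t4
      have hlt2 : l < t := by exact_mod_cast hlt'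
      fin_cases i
      · show (t : ZMod l) ≠ 0
        intro h0
        rw [ZMod.natCast_eq_zero_iff] at h0
        rcases (Nat.dvd_prime t3).1 h0 with h | h <;> omega
      · show (t : ZMod l) ≠ -((cb k : ℕ) : ZMod l)
        intro h0
        apply t6
        rw [← ZMod.natCast_eq_zero_iff, Nat.cast_add, h0, neg_add_cancel]
      · show (t : ZMod l) ≠ -((cb j : ℕ) : ZMod l)
        intro h0
        apply t7
        rw [← ZMod.natCast_eq_zero_iff, Nat.cast_add, h0, neg_add_cancel])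
  obtain ⟨BF, hBF⟩ : ∃ BF, BF = Bad.filter (fun l => l.Prime ∧ 12 < l) := ⟨_, rfl⟩
  have hBFm : ∀ l ∈ BF, l.Prime ∧ 12 < l ∧ l ∣ cb j - cb k ∧ ¬ l ∣ cb j := by
    intro l hl
    rw [hBF, mem_filter, hBad, mem_filter, Nat.mem_primeFactors] at hl
    exact ⟨hl.2.1, hl.2.2, hl.1.1.2.1, hl.1.2.2⟩
  have hcardBF : BF.card ≤ pr j := by
    have h1 : BF ⊆ (cb j - cb k).primeFactors := by
      rw [hBF, hBad]
      exact (filter_subset _ _).trans (filter_subset _ _)
    refine (card_le_card h1).trans (card_pf (by omega) ?_)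
    have h2 : cb j ≤ 2 ^ (pr j - 1) := Nat.choose_le_two_pow _ _
    exact (Nat.sub_le _ _).trans (h2.trans (Nat.pow_le_pow_right (by norm_num) (Nat.sub_le _ _)))
  have hpj0 : (0 : ℝ) < pr j := by exact_mod_cast (pr_prime j).pos
  have hsum : ∑ l ∈ BF, 1 / (l : ℝ) ≤ A + 1 := by
    rw [← sum_filter_add_sum_filter_not BF (fun l => l < pr j)]
    refine add_le_add ?_ ?_
    · refine le_trans (sum_le_sum_of_subset_of_nonneg ?_ (fun l _ _ => by positivity)) hA
      intro l hl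
      rw [mem_filter] at hl
      obtain ⟨b1, b2, b3, b4⟩ := hBFm l hl.1
      exact mem_EE.2 ⟨b1, b2, hl.2, b4⟩
    · calc ∑ l ∈ BF.filter (fun l => ¬ l < pr j), 1 / (l : ℝ) ≤ ∑ l ∈ BF.filter (fun l => ¬ l < pr j), 1 / (pr j : ℝ) := by
            refine sum_le_sum (fun l hl => ?_)
            rw [mem_filter, not_lt] at hl
            exact one_div_le_one_div_of_le hpj0 (by exact_mod_cast hl.2)
        _ = ((BF.filter (fun l => ¬ l < pr j)).card : ℝ) * (1 / (pr j : ℝ)) := by rw [sum_const, nsmul_eq_mul]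
        _ ≤ (pr j : ℝ) * (1 / (pr j : ℝ)) := by
            refine mul_le_mul_of_nonneg_right ?_ (by positivity)
            exact_mod_cast (card_filter_le _ _).trans hcardBF
        _ = 1 := by field_simp
  have hprod : ∏ l ∈ BF, (1 + 6 / (l : ℝ)) ≤ Real.exp (6 * (A + 1)) := by
    calc ∏ l ∈ BF, (1 + 6 / (l : ℝ)) ≤ ∏ l ∈ BF, Real.exp (6 * (1 / (l : ℝ))) :=
          prod_le_prod (fun l _ => by positivity) (fun l _ => by
            have := Real.add_one_le_exp (6 * (1 / (l : ℝ)))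
            have e : 6 * (1 / (l : ℝ)) = 6 / l := by ring
            rw [e] at this ⊢
            linarith)
      _ = Real.exp (∑ l ∈ BF, 6 * (1 / (l : ℝ))) := (Real.exp_sum _ _).symm
      _ ≤ Real.exp (6 * (A + 1)) := by
          rw [← mul_sum]
          exact Real.exp_le_exp.2 (by linarith)
  rw [← hBF] at hmain
  have hlog : 0 ≤ (x : ℝ) / Real.log x ^ 3 := by
    have : 0 ≤ Real.log (x : ℝ) := Real.log_nonneg (by exact_mod_cast (by omega : 1 ≤ x))
    positivity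
  have hw : 0 ≤ ww k * ww j := mul_nonneg (by linarith [ww_one_le k]) (by linarith [ww_one_le j])
  refine hmain.trans ?_
  have h1 : 0 ≤ C * ((x : ℝ) / Real.log x ^ 3) * (ww k * ww j) := mul_nonneg (mul_nonneg hC.le hlog) hw
  have h2 := mul_le_mul_of_nonneg_left hprod h1
  unfold ww at h2 ⊢
  linarith

end H78AP
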