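import Pool.Agent.H78.AP.Av
import Pool.Agent.H78.AP.Cl
import Pool.Agent.H78.AP.Pu

/-!
# The bad primes of a pair of shifts, on average
-/

set_option autoImplicit false

open Finset

namespace H78AP

open Pool.Agent.H78.CB

/-- the bad primes -/
noncomputable def BD (k j : ℕ) : Finset ℕ := (cb j - cb k).primeFactors.filter (fun l => 12 < l ∧ ¬ l ∣ cb k ∧ ¬ l ∣ cb j)

lemma mem_BD {k j l : ℕ} (hk : 2 ≤ k) (hkj : k < j) : l ∈ BD k j ↔ l.Prime ∧ 12 < l ∧ l ∣ cb j - cb k ∧ ¬ l ∣ cb k ∧ ¬ l ∣ cb j := by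
  have := cb_lt hk hkj
  unfold BD
  rw [mem_filter, Nat.mem_primeFactors]
  constructor
  · rintro ⟨⟨h1, h2, h3⟩, h4, h5, h6⟩
    exact ⟨h1, h4, h2, h5, h6⟩
  · rintro ⟨h1, h2, h3, h4, h5⟩
    exact ⟨⟨h1, h3, by omega⟩, h2, h4, h5⟩

/-- the large bad primes -/
lemma bd_large {k j : ℕ} (hk : 2 ≤ k) (hkj : k < j) :
    ∑ l ∈ (BD k j).filter (fun l => ¬ l < pr j), 1 / (l : ℝ) ≤ 1 / Real.log j := by
  have hlt := cb_lt hk hkj
  obtain ⟨B, hB⟩ : ∃ B, B = (BD k j).filter (fun l => ¬ l < pr j) := ⟨_, rfl⟩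
  rw [← hB]
  have hBm : ∀ l ∈ B, l.Prime ∧ pr j ≤ l ∧ l ∣ cb j - cb k := by
    intro l hl
    rw [hB, mem_filter, mem_BD hk hkj, not_lt] at hl
    exact ⟨hl.1.1, hl.2, hl.1.2.2.1⟩
  have hpj0 : (0 : ℝ) < pr j := by exact_mod_cast (pr_prime j).pos
  have h1 : (pr j) ^ B.card ≤ 2 ^ (pr j) := by
    calc (pr j) ^ B.card = ∏ _l ∈ B, pr j := by rw [prod_const]
      _ ≤ ∏ l ∈ B, l := prod_le_prod' (fun l hl => (hBm l hl).2.1)
      _ ≤ ∏ l ∈ (cb j - cb k).primeFactors, l := by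
          refine prod_le_prod_of_subset_of_one_le' ?_ (fun l hl _ => (Nat.prime_of_mem_primeFactors hl).one_le)
          intro l hl
          rw [Nat.mem_primeFactors]
          exact ⟨(hBm l hl).1, (hBm l hl).2.2, by omega⟩
      _ ≤ cb j - cb k := Nat.le_of_dvd (by omega) (Nat.prod_primeFactors_dvd _)
      _ ≤ cb j := Nat.sub_le _ _
      _ ≤ 2 ^ (pr j - 1) := Nat.choose_le_two_pow _ _
      _ ≤ 2 ^ (pr j) := Nat.pow_le_pow_right (by norm_num) (Nat.sub_le _ _)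
  have hj2 : (2 : ℝ) ≤ j := by exact_mod_cast (by omega : 2 ≤ j)
  have hjp : (j : ℝ) ≤ pr j := by exact_mod_cast le_pr
  have hlj : 0 < Real.log j := Real.log_pos (by linarith)
  have hlp : Real.log j ≤ Real.log (pr j) := Real.log_le_log (by linarith) hjp
  have h2 : (B.card : ℝ) * Real.log (pr j) ≤ pr j := by
    have h3 : ((pr j : ℝ)) ^ B.card ≤ 2 ^ (pr j) := by exact_mod_cast h1
    have h4 := Real.log_le_log (by positivity) h3
    rw [Real.log_pow, Real.log_pow] at h4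
    have h5 := Real.log_two_lt_d9
    nlinarith
  have h3 : (B.card : ℝ) * Real.log j ≤ pr j := (mul_le_mul_of_nonneg_left hlp (Nat.cast_nonneg _)).trans h2
  calc ∑ l ∈ B, 1 / (l : ℝ) ≤ ∑ _l ∈ B, 1 / (pr j : ℝ) := by
        refine sum_le_sum (fun l hl => ?_)
        exact one_div_le_one_div_of_le hpj0 (by exact_mod_cast (hBm l hl).2.1)
    _ = (B.card : ℝ) / (pr j : ℝ) := by rw [sum_const, nsmul_eq_mul, mul_one_div]
    _ ≤ 1 / Real.log j := by
        rw [div_le_div_iff₀ hpj0 hlj]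
        linarith

end H78AP
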