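import Pool.Agent.H78.AP.Bd

/-!
# The sum over the pairs
-/

set_option autoImplicit false

open Finset

namespace H78AP

open Pool.Agent.H78.CB

lemma T_ge2 (I : ℕ) (hI : 1 ≤ I) : 2 * Nat.log 2 I ≤ I / 2 + 2 := by
  obtain ⟨s, hs⟩ : ∃ s, s = Nat.log 2 I := ⟨_, rfl⟩
  have h1 : 2 ^ s ≤ I := by
    rw [hs]
    exact Nat.pow_log_le_self 2 (by omega)
  rw [← hs]
  rcases Nat.lt_or_ge s 2 with h | h
  · interval_cases s <;> omega
  · obtain ⟨r, rfl⟩ : ∃ r, s = r + 2 := ⟨s - 2, by omega⟩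
    have h2 : r < 2 ^ r := Nat.lt_two_pow_self
    rw [pow_add] at h1
    omega

/-- sum over all scales -/
theorem wsum2 : ∃ C : ℝ, 0 < C ∧ ∀ X : ℕ, 13 ≤ X →
    ∑ l ∈ (Icc 13 X).filter Nat.Prime, 1 / (l : ℝ) * (7 / 13 : ℝ) ^ (Nat.log 2 (Nat.log l X)) ≤ C := by
  obtain ⟨C, hC, h⟩ := scale
  refine ⟨C * (13 / 6), by positivity, fun X hX => ?_⟩
  have hmaps : ∀ l ∈ (Icc 13 X).filter Nat.Prime, Nat.log 2 (Nat.log l X) ∈ range (X + 1) := by
    intro l hl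
    rw [mem_range]
    have h1 : Nat.log 2 (Nat.log l X) ≤ Nat.log l X := Nat.log_le_self _ _
    have h2 : Nat.log l X ≤ X := Nat.log_le_self _ _
    omega
  rw [← sum_fiberwise_of_maps_to hmaps]
  have h2 : ∀ s ∈ range (X + 1), ∑ l ∈ ((Icc 13 X).filter Nat.Prime).filter (fun l => Nat.log 2 (Nat.log l X) = s),
      1 / (l : ℝ) * (7 / 13 : ℝ) ^ (Nat.log 2 (Nat.log l X)) ≤ C * (7 / 13 : ℝ) ^ s := by
    intro s _
    rw [filter_filter]
    calc ∑ l ∈ (Icc 13 X).filter (fun l => l.Prime ∧ Nat.log 2 (Nat.log l X) = s), 1 / (l : ℝ) * (7 / 13 : ℝ) ^ (Nat.log 2 (Nat.log l X))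
        = ∑ l ∈ (Icc 13 X).filter (fun l => l.Prime ∧ Nat.log 2 (Nat.log l X) = s), 1 / (l : ℝ) * (7 / 13 : ℝ) ^ s := by
          refine sum_congr rfl (fun l hl => ?_)
          rw [mem_filter] at hl
          rw [hl.2.2]
      _ = (∑ l ∈ (Icc 13 X).filter (fun l => l.Prime ∧ Nat.log 2 (Nat.log l X) = s), 1 / (l : ℝ)) * (7 / 13 : ℝ) ^ s := by
          rw [sum_mul]
      _ ≤ C * (7 / 13 : ℝ) ^ s := mul_le_mul_of_nonneg_right (h X s hX) (by positivity)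
  refine (sum_le_sum h2).trans ?_
  rw [← mul_sum]
  refine mul_le_mul_of_nonneg_left ?_ hC.le
  rw [geom_sum_eq (by norm_num)]
  have h4 : (0 : ℝ) ≤ (7 / 13 : ℝ) ^ (X + 1) := by positivity
  have e : ((7 / 13 : ℝ) ^ (X + 1) - 1) / (7 / 13 - 1) = (13 / 6) * (1 - (7 / 13 : ℝ) ^ (X + 1)) := by ring
  rw [e]
  nlinarith

/-- part 2: primes with a large logarithm -/
theorem part2 : ∃ C : ℝ, 0 < C ∧ ∀ s1 K : ℕ, 2 ≤ s1 → 2 ≤ K → 13 ≤ pr K →
    ∑ j ∈ Icc 1 K, ∑ l ∈ (EE j).filter (fun l => s1 ≤ Nat.log 2 (Nat.log l (pr K))), 1 / (l : ℝ) ≤ C * K * (7 / 13 : ℝ) ^ (s1 - 2) := by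
  obtain ⟨C1, hC1, hN⟩ := NN_card
  obtain ⟨C2, hC2, hw⟩ := wsum2
  refine ⟨C1 * 5 * C2, by positivity, fun s1 K hs1 hK hX => ?_⟩
  have hK0 : (0 : ℝ) < K := by exact_mod_cast (by omega : 0 < K)
  obtain ⟨X, hXd⟩ : ∃ X, X = pr K := ⟨_, rfl⟩
  rw [← hXd] at hX ⊢
  have hsw : ∑ j ∈ Icc 1 K, ∑ l ∈ (EE j).filter (fun l => s1 ≤ Nat.log 2 (Nat.log l X)), 1 / (l : ℝ) =
      ∑ l ∈ ((Icc 13 X).filter Nat.Prime).filter (fun l => s1 ≤ Nat.log 2 (Nat.log l X)), ∑ k ∈ (Icc 1 K).filter (fun k => l ∈ EE k), 1 / (l : ℝ) := by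
    refine sum_comm' (fun k l => ?_)
    constructor
    · rintro ⟨hk, hl⟩
      rw [mem_filter] at hl
      obtain ⟨hl, hls⟩ := hl
      have hl' := hl
      unfold EE at hl'
      rw [mem_filter, mem_Icc] at hl'
      rw [mem_Icc] at hk
      have h1 := pr_mono hk.2
      refine ⟨?_, ?_⟩
      · rw [mem_filter, mem_Icc]
        exact ⟨hk, hl⟩
      · rw [mem_filter, mem_filter, mem_Icc]
        exact ⟨⟨⟨hl'.1.1, by omega⟩, hl'.2.1⟩, hls⟩
    · rintro ⟨hk, hl⟩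
      rw [mem_filter] at hk hl
      exact ⟨hk.1, mem_filter.2 ⟨hk.2, hl.2⟩⟩
  rw [hsw]
  have hcheb := cheb (P := pr K) (by omega)
  rw [pi_pr (by omega), ← hXd] at hcheb
  have hl0 : 0 < Real.log X := Real.log_pos (by exact_mod_cast (by omega : 1 < X))
  have h5 : (X : ℝ) / Real.log X ≤ 5 * K := by
    rw [div_le_iff₀ hl0]
    linarith
  have h7 : (0 : ℝ) ≤ (X : ℝ) / Real.log X := div_nonneg (Nat.cast_nonneg _) hl0.le
  have h1 : ∀ l ∈ ((Icc 13 X).filter Nat.Prime).filter (fun l => s1 ≤ Nat.log 2 (Nat.log l X)), ∑ k ∈ (Icc 1 K).filter (fun k => l ∈ EE k), 1 / (l : ℝ) ≤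
      C1 * (5 * K) * (7 / 13 : ℝ) ^ (s1 - 2) * (1 / (l : ℝ) * (7 / 13 : ℝ) ^ (Nat.log 2 (Nat.log l X))) := by
    intro l hl
    rw [mem_filter, mem_filter, mem_Icc] at hl
    rw [sum_const, nsmul_eq_mul]
    have h2 : ((Icc 1 K).filter (fun k => l ∈ EE k)).card ≤ (NN l X).card := by
      refine card_le_card_of_injOn pr ?_ ?_
      · intro k hk
        rw [mem_coe, mem_filter, mem_Icc] at hk
        obtain ⟨⟨hk1, hkK⟩, hk2⟩ := hk
        unfold EE at hk2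
        rw [mem_filter, mem_Icc] at hk2
        rw [mem_coe]
        unfold NN
        rw [mem_filter, mem_Icc, hXd]
        exact ⟨⟨(pr_prime k).one_le, pr_mono hkK⟩, pr_prime k, hk2.2.2.1, hk2.2.2.2⟩
      · intro a ha b hb hab
        rw [mem_coe, mem_filter, mem_Icc] at ha hb
        exact pr_inj ha.1.1 hb.1.1 hab
    have h3 := hN l X hl.1.2 hl.1.1.1 hl.1.1.2
    have h4 : ((((Icc 1 K).filter (fun k => l ∈ EE k)).card : ℕ) : ℝ) ≤ ((NN l X).card : ℝ) := by exact_mod_cast h2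
    have hI1 : 1 ≤ Nat.log l X := Nat.log_pos (by omega) hl.1.1.2
    have hT := T_ge2 _ hI1
    have h8 : (7 / 13 : ℝ) ^ (Nat.log l X / 2) ≤ (7 / 13 : ℝ) ^ (s1 - 2) * (7 / 13 : ℝ) ^ (Nat.log 2 (Nat.log l X)) := by
      rw [← pow_add]
      exact pow_le_pow_of_le_one (by norm_num) (by norm_num) (by omega)
    calc ((((Icc 1 K).filter (fun k => l ∈ EE k)).card : ℕ) : ℝ) * (1 / (l : ℝ))
        ≤ (C1 * (5 * K) * ((7 / 13 : ℝ) ^ (s1 - 2) * (7 / 13 : ℝ) ^ (Nat.log 2 (Nat.log l X)))) * (1 / (l : ℝ)) := by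
          refine mul_le_mul_of_nonneg_right ((h4.trans h3).trans ?_) (by positivity)
          exact mul_le_mul (mul_le_mul_of_nonneg_left h5 hC1.le) h8 (by positivity) (by positivity)
      _ = _ := by ring
  refine (sum_le_sum h1).trans ?_
  rw [← mul_sum]
  have h6 : ∑ l ∈ ((Icc 13 X).filter Nat.Prime).filter (fun l => s1 ≤ Nat.log 2 (Nat.log l X)), 1 / (l : ℝ) * (7 / 13 : ℝ) ^ (Nat.log 2 (Nat.log l X)) ≤ C2 :=
    (sum_le_sum_of_subset_of_nonneg (filter_subset _ _) (fun l _ _ => by positivity)).trans (hw X hX)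
  calc _ ≤ C1 * (5 * K) * (7 / 13 : ℝ) ^ (s1 - 2) * C2 := mul_le_mul_of_nonneg_left h6 (by positivity)
    _ = C1 * 5 * C2 * K * (7 / 13 : ℝ) ^ (s1 - 2) := by ring

/-- part 3: one prime -/
lemma part3a {l K : ℕ} (hl : l.Prime) (hl13 : 13 ≤ l) (hlX : l ≤ pr K) (S : Finset ℕ) (hS : ∀ k ∈ S, 2 ≤ k ∧ k ≤ K) :
    ((((S ×ˢ S).filter (fun e => e.1 < e.2 ∧ l ∈ BD e.1 e.2)).card : ℕ) : ℝ) ≤ 15 * (pr K : ℝ) ^ 2 / Real.sqrt l := by
  classical
  haveI : Fact l.Prime := ⟨hl⟩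
  refine le_trans ?_ (collide (l := l) (n := pr K) (by omega) hlX)
  have hodd : ∀ k : ℕ, 2 ≤ k → ∃ m, pr k = 2 * m + 1 := by
    intro k hk
    have h3 := three_le_pr hk
    rcases (pr_prime k).eq_two_or_odd' with h | h
    · omega
    · exact h
  have h1 : ((S ×ˢ S).filter (fun e => e.1 < e.2 ∧ l ∈ BD e.1 e.2)).card ≤
      (((AA l (pr K)) ×ˢ (AA l (pr K))).filter (fun e => ((Nat.centralBinom e.1 : ℕ) : ZMod l) = ((Nat.centralBinom e.2 : ℕ) : ZMod l))).card := by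
    refine card_le_card_of_injOn (fun e => ((pr e.1 - 1) / 2, (pr e.2 - 1) / 2)) ?_ ?_
    · rintro ⟨k, j⟩ he
      rw [mem_coe, mem_filter, mem_product] at he
      obtain ⟨⟨hk, hj⟩, hkj, hB⟩ := he
      simp only at hk hj hkj hB
      have hk2 := hS k hk
      have hj2 := hS j hj
      rw [mem_BD hk2.1 hkj] at hB
      obtain ⟨_, _, b3, b4, b5⟩ := hB
      have hlt := cb_lt hk2.1 hkj
      rw [mem_coe, mem_filter, mem_product]
      simp only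
      unfold AA
      rw [mem_filter, mem_filter, mem_range, mem_range, ← cb_eq hk2.1, ← cb_eq hj2.1]
      have p1 := pr_mono hk2.2
      have p2 := pr_mono hj2.2
      have p3 := three_le_pr hk2.1
      have p4 := three_le_pr hj2.1
      refine ⟨⟨⟨by omega, ?_⟩, ⟨by omega, ?_⟩⟩, ?_⟩
      · rw [Ne, ZMod.natCast_eq_zero_iff]
        exact b4
      · rw [Ne, ZMod.natCast_eq_zero_iff]
        exact b5
      · rw [← ZMod.natCast_eq_zero_iff, Nat.cast_sub hlt.le, sub_eq_zero] at b3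
        exact b3.symm
    · rintro ⟨k, j⟩ he ⟨k', j'⟩ he' hab
      rw [mem_coe, mem_filter, mem_product] at he he'
      simp only [Prod.mk.injEq] at hab he he' ⊢
      obtain ⟨m1, e1⟩ := hodd k (hS k he.1.1).1
      obtain ⟨m2, e2⟩ := hodd j (hS j he.1.2).1
      obtain ⟨m3, e3⟩ := hodd k' (hS k' he'.1.1).1
      obtain ⟨m4, e4⟩ := hodd j' (hS j' he'.1.2).1
      have q1 := hS k he.1.1
      have q2 := hS j he.1.2
      have q3 := hS k' he'.1.1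
      have q4 := hS j' he'.1.2
      refine ⟨pr_inj (by omega) (by omega) (by omega), pr_inj (by omega) (by omega) (by omega)⟩
  exact_mod_cast h1

end H78AP
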