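import Pool.Agent.H78.AP.Bs

/-!
# The sum over the pairs, final
-/

set_option autoImplicit false

open Finset

namespace H78AP

open Pool.Agent.H78.CB

lemma scale_small : ∃ C : ℝ, 0 < C ∧ ∀ X s1 : ℕ, 13 ≤ X →
    ∑ l ∈ ((Icc 13 X).filter Nat.Prime).filter (fun l => Nat.log 2 (Nat.log l X) < s1), 1 / (l : ℝ) ≤ s1 * C := by
  obtain ⟨C, hC, h⟩ := scale
  refine ⟨C, hC, fun X s1 hX => ?_⟩
  have hmaps : ∀ l ∈ ((Icc 13 X).filter Nat.Prime).filter (fun l => Nat.log 2 (Nat.log l X) < s1), Nat.log 2 (Nat.log l X) ∈ range s1 := by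
    intro l hl
    rw [mem_filter] at hl
    exact mem_range.2 hl.2
  rw [← sum_fiberwise_of_maps_to hmaps]
  calc ∑ s ∈ range s1, ∑ l ∈ (((Icc 13 X).filter Nat.Prime).filter (fun l => Nat.log 2 (Nat.log l X) < s1)).filter
          (fun l => Nat.log 2 (Nat.log l X) = s), 1 / (l : ℝ) ≤ ∑ _s ∈ range s1, C := by
        refine sum_le_sum (fun s _ => ?_)
        refine le_trans (sum_le_sum_of_subset_of_nonneg ?_ (fun l _ _ => by positivity)) (h X s hX)
        intro l hl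
        rw [mem_filter, mem_filter, mem_filter] at hl
        rw [mem_filter]
        exact ⟨hl.1.1.1, hl.1.1.2, hl.2⟩
    _ = s1 * C := by rw [sum_const, card_range, nsmul_eq_mul]

lemma sqrt_low {l X s1 : ℕ} (hl : 2 ≤ l) (hX : 1 ≤ X) (h : Nat.log 2 (Nat.log l X) < s1) :
    Real.exp (Real.log X / 2 ^ (s1 + 1)) ≤ Real.sqrt l := by
  have h1 : Nat.log l X < 2 ^ s1 := by
    rcases Nat.eq_zero_or_pos (Nat.log l X) with h0 | h0
    · rw [h0]
      positivity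
    · exact (Nat.log_lt_iff_lt_pow (by norm_num) h0.ne').1 h
  have h2 : X < l ^ (2 ^ s1) := (Nat.log_lt_iff_lt_pow (by omega) (by omega)).1 h1
  have hl0 : (0 : ℝ) < l := by exact_mod_cast (by omega : 0 < l)
  have hX0 : (0 : ℝ) < X := by exact_mod_cast (by omega : 0 < X)
  have h3 : Real.log X ≤ (2 : ℝ) ^ s1 * Real.log l := by
    have h4 : (X : ℝ) ≤ (l : ℝ) ^ (2 ^ s1) := by exact_mod_cast h2.le
    have h5 := Real.log_le_log hX0 h4
    rw [Real.log_pow] at h5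
    push_cast at h5
    exact h5
  have h4 : Real.log X / 2 ^ (s1 + 1) ≤ Real.log l / 2 := by
    rw [pow_succ, div_le_div_iff₀ (by positivity) (by norm_num)]
    linarith
  calc Real.exp (Real.log X / 2 ^ (s1 + 1)) ≤ Real.exp (Real.log l / 2) := Real.exp_le_exp.2 h4
    _ = Real.sqrt l := by
        rw [← Real.log_sqrt hl0.le, Real.exp_log (Real.sqrt_pos.2 hl0)]

theorem badsum (η : ℝ) (hη : 0 < η) : ∃ K0 : ℕ, ∀ K : ℕ, K0 ≤ K → ∀ S : Finset ℕ, (∀ k ∈ S, 13 ≤ k ∧ k ≤ K ∧ K < k ^ 2) →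
    ∑ e ∈ (S ×ˢ S).filter (fun e => e.1 < e.2), ∑ l ∈ BD e.1 e.2, 1 / (l : ℝ) ≤ η * (K : ℝ) ^ 2 := by
  classical
  obtain ⟨C2, hC2, h2⟩ := part2
  obtain ⟨C3, hC3, h3⟩ := scale_small
  have hlim : Filter.Tendsto (fun m : ℕ => (7 / 13 : ℝ) ^ m) Filter.atTop (nhds 0) :=
    tendsto_pow_atTop_nhds_zero_of_lt_one (by norm_num) (by norm_num)
  obtain ⟨m0, hm0⟩ := Filter.eventually_atTop.1 (hlim.eventually (ge_mem_nhds (show (0 : ℝ) < η / (3 * C2) by positivity)))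
  obtain ⟨s1, hs1⟩ : ∃ s1, s1 = m0 + 2 := ⟨_, rfl⟩
  have hs12 := hm0 m0 le_rfl
  -- growth
  obtain ⟨γ, hγ⟩ : ∃ γ : ℝ, γ = 1 / 2 ^ (s1 + 1) := ⟨_, rfl⟩
  have hγ0 : 0 < γ := by rw [hγ]; positivity
  obtain ⟨B, hB⟩ : ∃ B : ℝ, B = 15 * 2025 * (s1 * C3) := ⟨_, rfl⟩
  have hB0 : 0 < B := by
    rw [hB]
    have : (0 : ℝ) < s1 := by exact_mod_cast (by omega : 0 < s1)
    positivity
  have hg1 : ∀ᶠ x : ℝ in Filter.atTop, B * Real.log x ^ 2 ≤ η / 3 * x ^ γ := by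
    have h := (isLittleO_log_rpow_rpow_atTop 2 hγ0).bound (show (0 : ℝ) < η / (3 * B) by positivity)
    filter_upwards [h, Filter.eventually_ge_atTop 1] with x h1 h2
    rw [Real.norm_of_nonneg (Real.rpow_nonneg (Real.log_nonneg h2) _), Real.norm_of_nonneg (by positivity), Real.rpow_two] at h1
    calc B * Real.log x ^ 2 ≤ B * (η / (3 * B) * x ^ γ) := mul_le_mul_of_nonneg_left h1 hB0.le
      _ = η / 3 * x ^ γ := by field_simp
  have hg2 : ∀ᶠ x : ℝ in Filter.atTop, 6 / η ≤ Real.log x := Real.tendsto_log_atTop.eventually_ge_atTop _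
  obtain ⟨K1, hK1⟩ := Filter.eventually_atTop.1 (tendsto_natCast_atTop_atTop.eventually (hg1.and hg2))
  refine ⟨K1 + 13, fun K hK S hS => ?_⟩
  obtain ⟨g1, g2⟩ := hK1 K (by omega)
  have hK0 : (0 : ℝ) < K := by exact_mod_cast (by omega : 0 < K)
  obtain ⟨X, hX⟩ : ∃ X, X = pr K := ⟨_, rfl⟩
  have hKX : K ≤ X := by rw [hX]; exact le_pr
  have hlK : 0 < Real.log K := Real.log_pos (by exact_mod_cast (by omega : 1 < K))
  have hS2 : ∀ k ∈ S, 2 ≤ k ∧ k ≤ K := fun k hk => ⟨by have := (hS k hk).1; omega, (hS k hk).2.1⟩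
  have hScard : S.card ≤ K := by
    have : S ⊆ Icc 1 K := fun k hk => mem_Icc.2 ⟨by have := (hS k hk).1; omega, (hS k hk).2.1⟩
    have h := card_le_card this
    rw [Nat.card_Icc, Nat.add_sub_cancel] at h
    exact h
  obtain ⟨P, hP⟩ : ∃ P, P = (S ×ˢ S).filter (fun e => e.1 < e.2) := ⟨_, rfl⟩
  rw [← hP]
  have hPm : ∀ e ∈ P, e.1 ∈ S ∧ e.2 ∈ S ∧ e.1 < e.2 := by
    intro e he
    rw [hP, mem_filter, mem_product] at he
    exact ⟨he.1.1, he.1.2, he.2⟩
  have hPc : (P.card : ℝ) ≤ (K : ℝ) ^ 2 := by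
    have h1 : P.card ≤ K * K := by
      rw [hP]
      refine (card_filter_le _ _).trans ?_
      rw [card_product]
      exact Nat.mul_le_mul hScard hScard
    have h4 : ((P.card : ℕ) : ℝ) ≤ ((K * K : ℕ) : ℝ) := by exact_mod_cast h1
    push_cast at h4
    nlinarith
  have hsplit : ∀ e ∈ P, ∑ l ∈ BD e.1 e.2, 1 / (l : ℝ) ≤ 2 / Real.log K +
      ∑ l ∈ (EE e.2).filter (fun l => s1 ≤ Nat.log 2 (Nat.log l X)), 1 / (l : ℝ) +
      ∑ l ∈ (BD e.1 e.2).filter (fun l => l < pr e.2 ∧ Nat.log 2 (Nat.log l X) < s1), 1 / (l : ℝ) := by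
    intro e he
    obtain ⟨p1, p2, p3⟩ := hPm e he
    have q1 := hS e.1 p1
    have q2 := hS e.2 p2
    have hlog : 1 / Real.log e.2 ≤ 2 / Real.log K := by
      have h4 : Real.log K ≤ 2 * Real.log e.2 := by
        have h5 : (K : ℝ) ≤ (e.2 : ℝ) ^ 2 := by exact_mod_cast q2.2.2.le
        have h6 := Real.log_le_log hK0 h5
        rw [Real.log_pow] at h6
        push_cast at h6
        exact h6
      have h5 : 0 < Real.log e.2 := by linarith
      rw [div_le_div_iff₀ h5 hlK]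
      linarith
    have hl := (bd_large (by omega : 2 ≤ e.1) p3).trans hlog
    rw [← sum_filter_add_sum_filter_not (BD e.1 e.2) (fun l => ¬ l < pr e.2)]
    have h4 : ∑ l ∈ (BD e.1 e.2).filter (fun l => ¬ ¬ l < pr e.2), 1 / (l : ℝ) ≤
        ∑ l ∈ (EE e.2).filter (fun l => s1 ≤ Nat.log 2 (Nat.log l X)), 1 / (l : ℝ) +
        ∑ l ∈ (BD e.1 e.2).filter (fun l => l < pr e.2 ∧ Nat.log 2 (Nat.log l X) < s1), 1 / (l : ℝ) := by
      rw [← sum_filter_add_sum_filter_not ((BD e.1 e.2).filter (fun l => ¬ ¬ l < pr e.2)) (fun l => s1 ≤ Nat.log 2 (Nat.log l X))]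
      refine add_le_add ?_ ?_
      · refine sum_le_sum_of_subset_of_nonneg ?_ (fun l _ _ => by positivity)
        intro l hl'
        rw [mem_filter, mem_filter, not_not, mem_BD (by omega) p3] at hl'
        obtain ⟨⟨⟨b1, b2, b3, b4, b5⟩, b6⟩, b7⟩ := hl'
        rw [mem_filter]
        exact ⟨mem_EE.2 ⟨b1, b2, b6, b5⟩, b7⟩
      · refine sum_le_sum_of_subset_of_nonneg ?_ (fun l _ _ => by positivity)
        intro l hl'
        rw [mem_filter, mem_filter, not_not, not_le] at hl'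
        rw [mem_filter]
        exact ⟨hl'.1.1, hl'.1.2, hl'.2⟩
    linarith
  refine (sum_le_sum hsplit).trans ?_
  rw [sum_add_distrib, sum_add_distrib]
  -- A1
  have A1 : ∑ _e ∈ P, 2 / Real.log K ≤ η / 3 * (K : ℝ) ^ 2 := by
    rw [sum_const, nsmul_eq_mul]
    have h4 : 2 / Real.log K ≤ η / 3 := by
      rw [div_le_div_iff₀ hlK (by norm_num)]
      rw [div_le_iff₀ hη] at g2
      linarith
    calc (P.card : ℝ) * (2 / Real.log K) ≤ (K : ℝ) ^ 2 * (η / 3) := mul_le_mul hPc h4 (by positivity) (by positivity)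
      _ = _ := by ring
  -- A2
  have A2 : ∑ e ∈ P, ∑ l ∈ (EE e.2).filter (fun l => s1 ≤ Nat.log 2 (Nat.log l X)), 1 / (l : ℝ) ≤ η / 3 * (K : ℝ) ^ 2 := by
    have hsub : P ⊆ (Icc 1 K) ×ˢ (Icc 1 K) := by
      intro e he
      obtain ⟨p1, p2, p3⟩ := hPm e he
      rw [mem_product, mem_Icc, mem_Icc]
      have q1 := hS2 e.1 p1
      have q2 := hS2 e.2 p2
      exact ⟨⟨by omega, q1.2⟩, ⟨by omega, q2.2⟩⟩
    calc ∑ e ∈ P, ∑ l ∈ (EE e.2).filter (fun l => s1 ≤ Nat.log 2 (Nat.log l X)), 1 / (l : ℝ)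
        ≤ ∑ e ∈ (Icc 1 K) ×ˢ (Icc 1 K), ∑ l ∈ (EE e.2).filter (fun l => s1 ≤ Nat.log 2 (Nat.log l X)), 1 / (l : ℝ) :=
          sum_le_sum_of_subset_of_nonneg hsub (fun e _ _ => sum_nonneg (fun l _ => by positivity))
      _ = K * ∑ j ∈ Icc 1 K, ∑ l ∈ (EE j).filter (fun l => s1 ≤ Nat.log 2 (Nat.log l X)), 1 / (l : ℝ) := by
          rw [sum_product]
          simp only
          rw [sum_const, nsmul_eq_mul, Nat.card_Icc, Nat.add_sub_cancel]
      _ ≤ K * (C2 * K * (7 / 13 : ℝ) ^ (s1 - 2)) := by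
          refine mul_le_mul_of_nonneg_left ?_ hK0.le
          have h4 := h2 s1 K (by omega) (by omega) (by rw [← hX]; omega)
          rw [← hX] at h4
          exact h4
      _ ≤ K * (C2 * K * (η / (3 * C2))) := by
          rw [hs1, Nat.add_sub_cancel]
          exact mul_le_mul_of_nonneg_left (mul_le_mul_of_nonneg_left hs12 (by positivity)) hK0.le
      _ = η / 3 * (K : ℝ) ^ 2 := by
          field_simp
  -- A3
  have A3 : ∑ e ∈ P, ∑ l ∈ (BD e.1 e.2).filter (fun l => l < pr e.2 ∧ Nat.log 2 (Nat.log l X) < s1), 1 / (l : ℝ) ≤ η / 3 * (K : ℝ) ^ 2 := by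
    obtain ⟨LL, hLL⟩ : ∃ LL, LL = ((Icc 13 X).filter Nat.Prime).filter (fun l => Nat.log 2 (Nat.log l X) < s1) := ⟨_, rfl⟩
    have hX0 : (0 : ℝ) < X := by exact_mod_cast (by omega : 0 < X)
    obtain ⟨E, hE⟩ : ∃ E, E = Real.exp (Real.log X / 2 ^ (s1 + 1)) := ⟨_, rfl⟩
    have hE0 : 0 < E := by rw [hE]; exact Real.exp_pos _
    have h4 : ∑ e ∈ P, ∑ l ∈ (BD e.1 e.2).filter (fun l => l < pr e.2 ∧ Nat.log 2 (Nat.log l X) < s1), 1 / (l : ℝ) ≤
        ∑ l ∈ LL, ∑ _e ∈ P.filter (fun e => l ∈ BD e.1 e.2), 1 / (l : ℝ) := by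
      have h5 : ∑ l ∈ LL, ∑ _e ∈ P.filter (fun e => l ∈ BD e.1 e.2), 1 / (l : ℝ) =
          ∑ e ∈ P, ∑ l ∈ LL.filter (fun l => l ∈ BD e.1 e.2), 1 / (l : ℝ) := by
        refine sum_comm' (fun l e => ?_)
        simp only [mem_filter]
        tauto
      rw [h5]
      refine sum_le_sum (fun e he => sum_le_sum_of_subset_of_nonneg ?_ (fun l _ _ => by positivity))
      intro l hl
      obtain ⟨p1, p2, p3⟩ := hPm e he
      have q1 := hS2 e.1 p1
      have q2 := hS2 e.2 p2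
      rw [mem_filter] at hl
      obtain ⟨b0, b6, b7⟩ := hl
      have b0' := b0
      rw [mem_BD q1.1 p3] at b0'
      have b8 := pr_mono q2.2
      rw [mem_filter, hLL, mem_filter, mem_filter, mem_Icc]
      exact ⟨⟨⟨⟨by omega, by omega⟩, b0'.1⟩, b7⟩, b0⟩
    refine h4.trans ?_
    have h5 : ∀ l ∈ LL, ∑ _e ∈ P.filter (fun e => l ∈ BD e.1 e.2), 1 / (l : ℝ) ≤ 15 * (X : ℝ) ^ 2 / E * (1 / (l : ℝ)) := by
      intro l hl
      rw [hLL, mem_filter, mem_filter, mem_Icc] at hl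
      rw [sum_const, nsmul_eq_mul]
      refine mul_le_mul_of_nonneg_right ?_ (by positivity)
      have h6 := part3a hl.1.2 hl.1.1.1 (by rw [← hX]; exact hl.1.1.2) S hS2
      rw [← hX] at h6
      have h7 : P.filter (fun e => l ∈ BD e.1 e.2) = (S ×ˢ S).filter (fun e => e.1 < e.2 ∧ l ∈ BD e.1 e.2) := by
        rw [hP, filter_filter]
      rw [h7]
      refine h6.trans ?_
      refine div_le_div_of_nonneg_left (by positivity) hE0 ?_
      rw [hE]
      exact sqrt_low (by omega) (by omega) hl.2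
    refine (sum_le_sum h5).trans ?_
    rw [← mul_sum]
    have h6 := h3 X s1 (by omega)
    rw [← hLL] at h6
    have hXK : (X : ℝ) ≤ 45 * (K * Real.log K) := by
      have hc := cheb (three_le_pr (by omega : 2 ≤ K))
      rw [pi_pr (by omega)] at hc
      have hl := log_pr_le (by omega : 2 ≤ K)
      have h1 : (K : ℝ) * Real.log (pr K : ℝ) ≤ K * (9 * Real.log K) := mul_le_mul_of_nonneg_left hl hK0.le
      rw [hX]
      linarith
    have hX2 : (X : ℝ) ^ 2 ≤ 2025 * ((K : ℝ) ^ 2 * Real.log K ^ 2) := by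
      calc (X : ℝ) ^ 2 ≤ (45 * (K * Real.log K)) ^ 2 := pow_le_pow_left₀ hX0.le hXK 2
        _ = _ := by ring
    have hEK : (K : ℝ) ^ γ ≤ E := by
      rw [hE, Real.rpow_def_of_pos hK0]
      apply Real.exp_le_exp.2
      rw [hγ, mul_one_div]
      refine div_le_div_of_nonneg_right ?_ (by positivity)
      exact Real.log_le_log hK0 (by exact_mod_cast hKX)
    have hKγ : 0 < (K : ℝ) ^ γ := by positivity
    calc 15 * (X : ℝ) ^ 2 / E * ∑ l ∈ LL, 1 / (l : ℝ) ≤ 15 * (X : ℝ) ^ 2 / E * (s1 * C3) :=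
          mul_le_mul_of_nonneg_left h6 (by positivity)
      _ ≤ 15 * (2025 * ((K : ℝ) ^ 2 * Real.log K ^ 2)) / (K : ℝ) ^ γ * (s1 * C3) := by
          refine mul_le_mul_of_nonneg_right ?_ (by positivity)
          exact div_le_div₀ (by positivity) (by linarith) hKγ hEK
      _ = (B * Real.log K ^ 2) / (K : ℝ) ^ γ * (K : ℝ) ^ 2 := by
          rw [hB]
          ring
      _ ≤ η / 3 * (K : ℝ) ^ 2 := by
          refine mul_le_mul_of_nonneg_right ?_ (by positivity)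
          rw [div_le_iff₀ hKγ]
          exact g1
  linarith

end H78AP
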