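import Pool.Agent.H63.SG.CoreB

/-!
# Asymptotic sieve along the primes (adapted from `Pool.Agent.H63.SG.CoreB`)
-/

set_option autoImplicit false

open Finset

namespace H78AP

open H69PG BVL Pool.Agent.H63.SG

/-- the sifting exponent -/
noncomputable def dl (b0 : ℕ) : ℝ := 1 / (8 * ((4 * b0 + 10 : ℕ) : ℝ))

/-- the sifting level -/
noncomputable def zl (b0 x : ℕ) : ℕ := ⌊(x : ℝ) ^ dl b0⌋₊

theorem coreA : ∃ C0 : ℕ, 1 ≤ C0 ∧ ∀ b0 : ℕ, C0 ≤ b0 → ∀ M : ℕ, 1 ≤ M → (∀ l : ℕ, l.Prime → 12 < l → Nat.Coprime M l) →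
    ∃ X0 : ℕ, ∀ x y : ℕ, X0 ≤ x → y ≤ x → (x : ℝ) ^ (1 / 2 : ℝ) ≤ y →
      ∀ a : ℕ, Nat.Coprime a M → ∀ D : ℕ → Finset ℕ, (∀ l, (D l).card ≤ 2) →
      ∃ F : Finset ℕ, |(F.card : ℝ) - (Pool.Agent.H17.ZB.Li x - Pool.Agent.H17.ZB.Li y) / (Nat.totient M : ℝ) *
          ∏ l ∈ PK 12 (zl b0 x), (1 - ((Ds D l).card : ℝ) / ((l : ℝ) - 1))| ≤
          Real.exp (-(b0 : ℝ)) * ((Pool.Agent.H17.ZB.Li x - Pool.Agent.H17.ZB.Li y) / (Nat.totient M : ℝ) *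
          ∏ l ∈ PK 12 (zl b0 x), (1 - ((Ds D l).card : ℝ) / ((l : ℝ) - 1))) + (x : ℝ) / Real.log x ^ 6 ∧
        ∀ t, t ∈ F ↔ y < t ∧ t ≤ x ∧ t.Prime ∧ t ≡ a [MOD M] ∧
          ∀ l : ℕ, l.Prime → 12 < l → l ≤ zl b0 x → t % l ∉ D l := by
  classical
  obtain ⟨C0, hC0, HB⟩ := H60PP.bhG
  refine ⟨C0 * (3 + 1), by omega, fun b0 hb0 M hM hMc => ?_⟩
  set D0 : ℕ := 4 * b0 + 10 with hD0
  have hD0r : (0 : ℝ) < D0 := by
    have : 0 < D0 := by omega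
    exact_mod_cast this
  obtain ⟨δ, hδ⟩ : ∃ δ : ℝ, δ = 1 / (8 * (D0 : ℝ)) := ⟨_, rfl⟩
  have hδ0 : 0 < δ := by rw [hδ]; positivity
  have hδ1 : δ ≤ 1 / 8 := by
    rw [hδ]
    apply one_div_le_one_div_of_le (by norm_num)
    have : (1 : ℝ) ≤ D0 := by
      have : 1 ≤ D0 := by omega
      exact_mod_cast this
    linarith
  obtain ⟨N0, hN0⟩ := bv_pi (ε := 1 / 4) (by norm_num) 8 3
  have hφ : (0 : ℝ) < (Nat.totient M : ℝ) := by exact_mod_cast Nat.totient_pos.2 hM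
  obtain ⟨X1, hX1⟩ := Core_ev δ hδ0 M 10
  refine ⟨max N0 X1, fun x y hx hyx hyy a ha D hD => ?_⟩
  obtain ⟨hx100, hxL, hxl1, hx13, hxM⟩ := hX1 x ((le_max_right _ _).trans hx)
  obtain ⟨E, hE0, hE1, hE2⟩ := hN0 x ((le_max_left _ _).trans hx)
  have hxr : (100 : ℝ) ≤ x := by exact_mod_cast hx100
  have hx0 : (0 : ℝ) < x := by linarith
  have hl0 : 0 < Real.log x := by linarith
  -- the sifting level
  obtain ⟨z, hz⟩ : ∃ z : ℕ, z = ⌊(x : ℝ) ^ δ⌋₊ := ⟨_, rfl⟩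
  have hzl : zl b0 x = z := by
    unfold zl dl
    rw [hz, hδ, hD0]
  rw [hzl]
  have hz12 : 12 ≤ z := by
    rw [hz]
    exact Nat.le_floor (by push_cast; linarith)
  have hzx : (z : ℝ) ≤ (x : ℝ) ^ δ := by
    rw [hz]
    exact Nat.floor_le (by positivity)
  have hz0 : (0 : ℝ) < z := by
    have : 0 < z := by omega
    exact_mod_cast this
  have hlz : Real.log z ≤ Real.log x := by
    have h1 : (x : ℝ) ^ δ ≤ (x : ℝ) ^ (1 : ℝ) :=
      Real.rpow_le_rpow_of_exponent_le (by linarith) (by linarith)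
    rw [Real.rpow_one] at h1
    exact Real.log_le_log hz0 (hzx.trans h1)
  have hlz0 : 0 < Real.log z := by
    apply Real.log_pos
    have : 1 < z := by omega
    exact_mod_cast this
  -- `z` is smaller than `y`
  have hzy : (x : ℝ) ^ δ < y := by
    refine lt_of_lt_of_le ?_ hyy
    exact Real.rpow_lt_rpow_of_exponent_lt (by linarith : (1 : ℝ) < x) (by linarith : δ < 1 / 2)
  have hy2 : 2 ≤ y := by
    have h1 : (13 : ℝ) < y := lt_of_le_of_lt hx13 hzy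
    have h2 : 13 < y := by exact_mod_cast h1
    omega
  -- the level of distribution
  set Q : ℕ := ⌊(x : ℝ) ^ (1 / 2 - 1 / 4 : ℝ)⌋₊ with hQ
  have hzD : ((z ^ D0 : ℕ) : ℝ) ≤ (x : ℝ) ^ (1 / 8 : ℝ) := by
    rw [Nat.cast_pow]
    calc (z : ℝ) ^ D0 ≤ ((x : ℝ) ^ δ) ^ D0 := pow_le_pow_left₀ hz0.le hzx D0
      _ = (x : ℝ) ^ (1 / 8 : ℝ) := by
        rw [← Real.rpow_natCast, ← Real.rpow_mul hx0.le]
        congr 1
        rw [hδ]
        field_simp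
  have hQM : M * z ^ D0 ≤ Q := by
    rw [hQ]
    apply Nat.le_floor
    rw [Nat.cast_mul]
    calc (M : ℝ) * ((z ^ D0 : ℕ) : ℝ) ≤ (x : ℝ) ^ (1 / 8 : ℝ) * (x : ℝ) ^ (1 / 8 : ℝ) :=
          mul_le_mul hxM hzD (by positivity) (by positivity)
      _ = (x : ℝ) ^ (1 / 2 - 1 / 4 : ℝ) := by
        rw [← Real.rpow_add hx0]
        norm_num
  have hEQ : ∀ q : ℕ, 1 ≤ q → q ≤ Q → ∀ a : ℕ, Nat.Coprime a q → ∀ y : ℕ, 2 ≤ y → y ≤ x →
      |((((Icc 1 y).filter (fun p => p.Prime ∧ p ≡ a [MOD q])).card : ℕ) : ℝ) -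
        Pool.Agent.H17.ZB.Li y / (Nat.totient q : ℝ)| ≤ E q := by
    intro q hq hqQ
    refine hE1 q hq ?_
    exact (Nat.cast_le.2 hqQ).trans (Nat.floor_le (by positivity))
  -- the sieve
  set Y : ℝ := (Pool.Agent.H17.ZB.Li x - Pool.Agent.H17.ZB.Li y) / (Nat.totient M : ℝ) with hY
  have hli := Core_li (x := (x : ℝ)) (y := (y : ℝ)) (by exact_mod_cast hy2) (by exact_mod_cast hyx)
  have hY0 : 0 ≤ Y := by
    rw [hY]
    refine div_nonneg (le_trans ?_ hli) hφ.le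
    refine div_nonneg (sub_nonneg.2 (by exact_mod_cast hyx)) hl0.le
  set g : ℕ → ℝ := fun l => ((Ds D l).card : ℝ) / ((l : ℝ) - 1) with hg
  set T : Finset ℕ := (Ioc y x).filter (fun t => t.Prime ∧ t ≡ a [MOD M]) with hT
  set B : ℕ → ℕ → Prop := fun t l => t % l ∈ Ds D l with hB
  set R : Finset ℕ → ℝ := fun S => (3 : ℝ) ^ S.card * (2 * E (M * ∏ p ∈ S, p)) with hR
  have hprime : ∀ S ⊆ PK 12 z, ∀ l ∈ S, l.Prime ∧ 12 < l := by
    intro S hS l hl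
    have h := bh_mem_PK.1 (hS hl)
    exact ⟨h.2.2, h.1⟩
  have key := HB 3 b0 hb0 12 z (by norm_num) (by norm_num) hz12 g (by
      intro p hp
      have h := bh_mem_PK.1 hp
      have hp' : (13 : ℝ) ≤ p := by exact_mod_cast h.1
      have hcd : ((Ds D p).card : ℝ) ≤ 3 := by exact_mod_cast (Ds_card hD p).trans (by norm_num)
      refine ⟨div_nonneg (Nat.cast_nonneg _) (by linarith), ?_⟩
      show ((Ds D p).card : ℝ) / ((p : ℝ) - 1) ≤ 2 * ((3 : ℕ) : ℝ) / p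
      rw [div_le_div_iff₀ (by linarith) (by linarith)]
      push_cast
      nlinarith) T B Y R hY0 (fun S => mul_nonneg (by positivity) (mul_nonneg (by norm_num) (hE0 _))) (by
      intro S hS hSD
      have hMS : M * ∏ p ∈ S, p ≤ Q := (Nat.mul_le_mul_left M hSD).trans hQM
      have h1 := Cnt_main (x := x) (y := y) hEQ (Ds D) hy2 hyx le_rfl S (fun l hl => (hprime S hS l hl).1)
        (fun l _ r hr => Ds_mem hr) M a hM (fun l hl => hMc l (hprime S hS l hl).1 (hprime S hS l hl).2) ha hMS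
      rw [Core_filt T _ _ (TT (Ds D) y x M a S) (fun t => TT_mem)]
      refine h1.trans ?_
      show (∏ l ∈ S, ((Ds D l).card : ℝ)) * (2 * E (M * ∏ l ∈ S, l)) ≤ (3 : ℝ) ^ S.card * (2 * E (M * ∏ p ∈ S, p))
      refine mul_le_mul_of_nonneg_right ?_ (mul_nonneg (by norm_num) (hE0 _))
      calc ∏ l ∈ S, ((Ds D l).card : ℝ) ≤ ∏ l ∈ S, (3 : ℝ) :=
            prod_le_prod (fun l _ => Nat.cast_nonneg _) (fun l _ => by exact_mod_cast (Ds_card hD l).trans (by norm_num))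
        _ = (3 : ℝ) ^ S.card := by rw [prod_const])
  have hsum := Core_sum (z := z) (D0 := D0) hE0 hM hQM
  have hlog2 : ((Nat.log 2 z : ℝ) + 2) ≤ 5 * Real.log x := by
    have h1 : (2 : ℝ) ^ (Nat.log 2 z) ≤ z := by exact_mod_cast Nat.pow_log_le_self 2 (by omega : z ≠ 0)
    have h2 := Real.log_le_log (by positivity) h1
    rw [Real.log_pow] at h2
    have h3 := Real.log_two_gt_d9
    have h4 : (0 : ℝ) ≤ (Nat.log 2 z : ℝ) := Nat.cast_nonneg _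
    nlinarith
  have hE2' : ∑ q ∈ Icc 1 Q, |(3 : ℝ)| ^ q.primeFactors.card * E q ≤ (x : ℝ) / Real.log x ^ 8 := by
    have h1 := hE2
    rw [show (8 : ℝ) = ((8 : ℕ) : ℝ) by norm_num, Real.rpow_natCast] at h1
    exact h1
  have herr : ((Nat.log 2 z : ℝ) + 2) * ∑ S ∈ (PK 12 z).powerset.filter (fun S => ∏ p ∈ S, p ≤ z ^ (4 * b0 + 10)), R S ≤
      (x : ℝ) / Real.log x ^ 6 := by
    have h1 : ∑ S ∈ (PK 12 z).powerset.filter (fun S => ∏ p ∈ S, p ≤ z ^ (4 * b0 + 10)), R S ≤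
        2 * ((x : ℝ) / Real.log x ^ 8) := hsum.trans (mul_le_mul_of_nonneg_left hE2' (by norm_num))
    have h2 : ((Nat.log 2 z : ℝ) + 2) * ∑ S ∈ (PK 12 z).powerset.filter (fun S => ∏ p ∈ S, p ≤ z ^ (4 * b0 + 10)), R S ≤
        5 * Real.log x * (2 * ((x : ℝ) / Real.log x ^ 8)) :=
      mul_le_mul hlog2 h1 (sum_nonneg (fun S _ => mul_nonneg (by positivity) (mul_nonneg (by norm_num) (hE0 _)))) (by positivity)
    refine h2.trans ?_
    have e : 5 * Real.log x * (2 * ((x : ℝ) / Real.log x ^ 8)) = 10 / Real.log x * ((x : ℝ) / Real.log x ^ 6) := by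
      field_simp
      ring
    rw [e]
    refine mul_le_of_le_one_left (by positivity) ?_
    rw [div_le_one hl0]
    exact hxL
  obtain ⟨F, hF2, hF1⟩ : ∃ F : Finset ℕ,
      |((F.card : ℕ) : ℝ) - Y * ∏ p ∈ PK 12 z, (1 - g p)| ≤ Real.exp (-(b0 : ℝ)) * (Y * ∏ p ∈ PK 12 z, (1 - g p)) +
        ((Nat.log 2 z : ℝ) + 2) * ∑ S ∈ (PK 12 z).powerset.filter (fun S => ∏ p ∈ S, p ≤ z ^ (4 * b0 + 10)), R S ∧
      (∀ t, t ∈ F ↔ t ∈ T ∧ ∀ p ∈ PK 12 z, ¬ B t p) :=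
    ⟨_, key, fun t => Core_filtm T _ _ t⟩
  refine ⟨F, ?_, fun t => ?_⟩
  · show |((F.card : ℕ) : ℝ) - Y * ∏ p ∈ PK 12 z, (1 - g p)| ≤ Real.exp (-(b0 : ℝ)) * (Y * ∏ p ∈ PK 12 z, (1 - g p)) + (x : ℝ) / Real.log x ^ 6
    linarith
  rw [hF1 t]
  constructor
  · rintro ⟨ht1, ht2⟩
    obtain ⟨ht3, ht4, ht5⟩ := mem_filter.1 ht1
    refine ⟨(mem_Ioc.1 ht3).1, (mem_Ioc.1 ht3).2, ht4, ht5, fun l hl hl12 hlz' hmem => ?_⟩
    refine ht2 l (bh_mem_PK.2 ⟨hl12, hlz', hl⟩) ?_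
    show t % l ∈ Ds D l
    refine mem_filter.2 ⟨hmem, ?_, Nat.mod_lt _ hl.pos⟩
    rw [Nat.pos_iff_ne_zero]
    intro h0
    have h1 : l ∣ t := Nat.dvd_of_mod_eq_zero h0
    have h2 : l = t := (Nat.prime_dvd_prime_iff_eq hl ht4).1 h1
    have h3 : y < t := (mem_Ioc.1 ht3).1
    have h4 : (y : ℝ) < l := by
      rw [h2]
      exact_mod_cast h3
    have h5 : (l : ℝ) ≤ z := by exact_mod_cast hlz'
    linarith
  · rintro ⟨h1, h2, h3, h4, h5⟩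
    refine ⟨mem_filter.2 ⟨mem_Ioc.2 ⟨h1, h2⟩, h3, h4⟩, fun l hl hmem => ?_⟩
    obtain ⟨p1, p2, p3⟩ := bh_mem_PK.1 hl
    exact h5 l p3 p1 p2 (mem_filter.1 hmem).1

end H78AP
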