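import Mathlib

/-!
# Coincidences of central binomial coefficients modulo a prime
-/

set_option autoImplicit false

open Finset Polynomial

namespace H78AP

/-- `∏ (t + i) - ∏ 2 (2 t + 2 i - 1)`, `1 ≤ i ≤ d` -/
noncomputable def Pd (l d : ℕ) : (ZMod l)[X] :=
  (∏ i ∈ range d, (X + C ((i + 1 : ℕ) : ZMod l))) - ∏ i ∈ range d, (C 4 * X + C ((2 * (2 * i + 1) : ℕ) : ZMod l))

lemma Pd_eval (l d : ℕ) (m : ZMod l) : (Pd l d).eval m =
    (∏ i ∈ range d, (m + ((i + 1 : ℕ) : ZMod l))) - ∏ i ∈ range d, (4 * m + ((2 * (2 * i + 1) : ℕ) : ZMod l)) := by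
  unfold Pd
  rw [eval_sub, eval_prod, eval_prod]
  simp

lemma Pd_ne {l d : ℕ} [hl : Fact l.Prime] (hd : 1 ≤ d) (hdl : 2 * d < l) : Pd l d ≠ 0 := by
  intro h0
  have h1 := Pd_eval l d (-1)
  rw [h0, eval_zero] at h1
  have h2 : ∏ i ∈ range d, ((-1 : ZMod l) + ((i + 1 : ℕ) : ZMod l)) = 0 := by
    refine prod_eq_zero (mem_range.2 hd : (0 : ℕ) ∈ range d) ?_
    simp
  rw [h2, zero_sub, eq_comm, neg_eq_zero, prod_eq_zero_iff] at h1
  obtain ⟨i, hi, h3⟩ := h1
  rw [mem_range] at hi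
  -- 4 * (-1) + 2 (2 i + 1) = 2 (2 i - 1)
  have h4 : ((2 * (2 * i + 1) : ℕ) : ZMod l) = ((4 : ℕ) : ZMod l) := by
    have : ((2 * (2 * i + 1) : ℕ) : ZMod l) - 4 = 0 := by
      rw [← h3]
      ring
    rw [sub_eq_zero] at this
    rw [this]
    norm_num
  rw [ZMod.natCast_eq_natCast_iff] at h4
  have h5 : (l : ℤ) ∣ 2 * (2 * (i : ℤ) - 1) := by
    have h6 := (Nat.modEq_iff_dvd.1 h4)
    push_cast at h6
    have : (2 * (2 * (i : ℤ) - 1)) = -(4 - 2 * (2 * (i : ℤ) + 1)) := by ring
    rw [this]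
    exact (dvd_neg).2 h6
  have hlp := hl.out
  have hl3 : 3 ≤ l := by omega
  have hpr : Prime (l : ℤ) := Nat.prime_iff_prime_int.1 hlp
  rcases hpr.dvd_or_dvd h5 with h | h
  · have := Int.le_of_dvd (by norm_num) h
    omega
  · rcases Nat.eq_zero_or_pos i with hi0 | hi0
    · subst hi0
      have h7 : (l : ℤ) ∣ 1 := by
        have : (2 * ((0 : ℕ) : ℤ) - 1) = -1 := by norm_num
        rw [this] at h
        exact (dvd_neg).1 h
      have := Int.le_of_dvd (by norm_num) h7
      omega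
    · have := Int.le_of_dvd (by omega) h
      omega

lemma Pd_deg {l d : ℕ} [hl : Fact l.Prime] : (Pd l d).natDegree ≤ d := by
  unfold Pd
  refine (natDegree_sub_le _ _).trans (max_le ?_ ?_)
  · refine (natDegree_prod_le _ _).trans ?_
    have h : ∀ i ∈ range d, (X + C ((i + 1 : ℕ) : ZMod l)).natDegree ≤ 1 := by
      intro i _
      exact le_of_eq (natDegree_X_add_C _)
    refine (sum_le_sum h).trans (le_of_eq ?_)
    rw [sum_const, card_range, smul_eq_mul, mul_one]
  · refine (natDegree_prod_le _ _).trans ?_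
    have h : ∀ i ∈ range d, (C 4 * X + C ((2 * (2 * i + 1) : ℕ) : ZMod l)).natDegree ≤ 1 := by
      intro i _
      refine (natDegree_add_le _ _).trans (max_le ?_ ?_)
      · exact (natDegree_C_mul_le _ _).trans natDegree_X_le
      · rw [natDegree_C]
        exact Nat.zero_le 1
    refine (sum_le_sum h).trans (le_of_eq ?_)
    rw [sum_const, card_range, smul_eq_mul, mul_one]

/-- the recursion -/
lemma cbin_rec (m d : ℕ) : Nat.centralBinom (m + d) * ∏ i ∈ range d, (m + (i + 1)) =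
    Nat.centralBinom m * ∏ i ∈ range d, (4 * m + 2 * (2 * i + 1)) := by
  induction d with
  | zero => simp
  | succ d ih =>
      rw [prod_range_succ, prod_range_succ]
      have h1 := Nat.succ_mul_centralBinom_succ (m + d)
      have h2 : Nat.centralBinom (m + (d + 1)) * (m + (d + 1)) = 2 * (2 * (m + d) + 1) * Nat.centralBinom (m + d) := by
        rw [← h1, show m + (d + 1) = m + d + 1 by ring]
        ring
      calc Nat.centralBinom (m + (d + 1)) * ((∏ i ∈ range d, (m + (i + 1))) * (m + (d + 1)))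
          = (Nat.centralBinom (m + (d + 1)) * (m + (d + 1))) * ∏ i ∈ range d, (m + (i + 1)) := by ring
        _ = 2 * (2 * (m + d) + 1) * (Nat.centralBinom (m + d) * ∏ i ∈ range d, (m + (i + 1))) := by
            rw [h2]
            ring
        _ = 2 * (2 * (m + d) + 1) * (Nat.centralBinom m * ∏ i ∈ range d, (4 * m + 2 * (2 * i + 1))) := by rw [ih]
        _ = _ := by ring

lemma root {l d m : ℕ} (h : ((Nat.centralBinom (m + d) : ℕ) : ZMod l) = ((Nat.centralBinom m : ℕ) : ZMod l))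
    [hl : Fact l.Prime] (h0 : ((Nat.centralBinom m : ℕ) : ZMod l) ≠ 0) : (Pd l d).eval (m : ZMod l) = 0 := by
  rw [Pd_eval, sub_eq_zero]
  have h1 : ((Nat.centralBinom (m + d) * ∏ i ∈ range d, (m + (i + 1)) : ℕ) : ZMod l) =
      ((Nat.centralBinom m * ∏ i ∈ range d, (4 * m + 2 * (2 * i + 1)) : ℕ) : ZMod l) := by rw [cbin_rec m d]
  rw [Nat.cast_mul, Nat.cast_mul, h] at h1
  have h2 := mul_left_cancel₀ h0 h1
  rw [Nat.cast_prod, Nat.cast_prod] at h2
  push_cast at h2 ⊢
  exact h2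

/-- the number of `m < n` with `c_{m+d} = c_m` -/
lemma count_d {l d : ℕ} [hl : Fact l.Prime] (hd : 1 ≤ d) (hdl : 2 * d < l) (n : ℕ) :
    ((range n).filter (fun m => ((Nat.centralBinom m : ℕ) : ZMod l) ≠ 0 ∧
      ((Nat.centralBinom (m + d) : ℕ) : ZMod l) = ((Nat.centralBinom m : ℕ) : ZMod l))).card ≤ d * (n / l + 1) := by
  classical
  have hl0 := hl.out.pos
  have h1 : ((range n).filter (fun m => ((Nat.centralBinom m : ℕ) : ZMod l) ≠ 0 ∧
      ((Nat.centralBinom (m + d) : ℕ) : ZMod l) = ((Nat.centralBinom m : ℕ) : ZMod l))).card ≤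
      ((Pd l d).roots.toFinset ×ˢ range (n / l + 1)).card := by
    refine card_le_card_of_injOn (fun m => ((m : ZMod l), m / l)) ?_ ?_
    · intro m hm
      rw [mem_coe, mem_filter, mem_range] at hm
      rw [mem_coe, mem_product]
      refine ⟨?_, ?_⟩
      · rw [Multiset.mem_toFinset, mem_roots (Pd_ne hd hdl)]
        exact root hm.2.2 hm.2.1
      · rw [mem_range]
        have : m / l ≤ n / l := Nat.div_le_div_right hm.1.le
        simp only
        omega
    · intro a _ b _ hab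
      simp only [Prod.mk.injEq] at hab
      obtain ⟨h2, h3⟩ := hab
      rw [ZMod.natCast_eq_natCast_iff] at h2
      rw [← Nat.div_add_mod a l, ← Nat.div_add_mod b l, h3, h2]
  rw [card_product, card_range] at h1
  refine h1.trans (Nat.mul_le_mul_right _ ?_)
  exact (Multiset.toFinset_card_le _).trans ((card_roots' _).trans Pd_deg)

end H78AP
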