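import Mathlib
import Pool.Agent.H17.WBT
import Pool.Agent.H67.GT.MERT

/-!
# Primes `p` for which a given prime does not divide `binom(p - 1, (p - 1)/2)`
-/

set_option autoImplicit false

open Finset

namespace H78AP

/-- Kummer -/
lemma kummer {l m : ℕ} (hl : l.Prime) (h : ¬ l ∣ (2 * m).choose m) (i : ℕ) : 2 * (m % l ^ i) < l ^ i := by
  by_contra hcon
  rw [not_lt] at hcon
  rcases Nat.eq_zero_or_pos i with rfl | hi
  · simp [Nat.mod_one] at hcon
  apply h
  have h2 : (2 * m).choose m = (m + m).choose m := by rw [two_mul]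
  rw [h2]
  have h1 := Nat.factorization_choose' (p := l) (n := m) (k := m) (b := max (Nat.log l (m + m) + 1) (i + 1)) hl
    (lt_of_lt_of_le (Nat.lt_succ_self _) (le_max_left _ _))
  have h3 : 0 < ((m + m).choose m).factorization l := by
    rw [h1, Finset.card_pos]
    refine ⟨i, ?_⟩
    rw [mem_filter, mem_Ico]
    refine ⟨⟨hi, lt_of_lt_of_le (Nat.lt_succ_self i) (le_max_right _ _)⟩, by omega⟩
  exact Nat.dvd_of_factorization_pos h3.ne'

/-- small digits -/
def SD (l T a : ℕ) : Prop := ∀ t, t ≤ T → 2 * (a % l ^ t) < l ^ t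

open Classical in
/-- numbers with small digits -/
noncomputable def BB (l T : ℕ) : Finset ℕ := (range (l ^ T)).filter (SD l T)

lemma mem_BB {l T a : ℕ} : a ∈ BB l T ↔ a < l ^ T ∧ SD l T a := by
  classical
  unfold BB
  rw [mem_filter, mem_range]

lemma BB_card {l : ℕ} (hl : 2 ≤ l) (T : ℕ) : (BB l T).card ≤ ((l + 1) / 2) ^ T := by
  induction T with
  | zero =>
      have h : BB l 0 ⊆ range 1 := by
        intro a ha
        rw [mem_BB, pow_zero] at ha
        exact mem_range.2 ha.1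
      have := card_le_card h
      simpa using this
  | succ T ih =>
      have h1 : (BB l (T + 1)).card ≤ ((range ((l + 1) / 2)) ×ˢ (BB l T)).card := by
        refine card_le_card_of_injOn (fun a => (a / l ^ T, a % l ^ T)) ?_ ?_
        · intro a ha
          have hlT : 0 < l ^ T := pow_pos (by omega) T
          rw [mem_coe, mem_BB] at ha
          rw [mem_coe, mem_product]
          refine ⟨?_, ?_⟩
          · have h3 := ha.2 (T + 1) le_rfl
            rw [Nat.mod_eq_of_lt ha.1, pow_succ] at h3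
            simp only
            rw [mem_range]
            have h4 : l ^ T * (a / l ^ T) ≤ a := Nat.mul_div_le a _
            have h5 : l ^ T * (2 * (a / l ^ T)) < l ^ T * l := by nlinarith
            have h6 := lt_of_mul_lt_mul_left h5 (Nat.zero_le _)
            omega
          · simp only
            rw [mem_BB]
            refine ⟨Nat.mod_lt _ hlT, fun t ht => ?_⟩
            rw [Nat.mod_mod_of_dvd _ (pow_dvd_pow l ht)]
            exact ha.2 t (by omega)
        · intro a _ b _ hab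
          simp only [Prod.mk.injEq] at hab
          rw [← Nat.div_add_mod a (l ^ T), ← Nat.div_add_mod b (l ^ T), hab.1, hab.2]
      rw [card_product, card_range] at h1
      calc (BB l (T + 1)).card ≤ (l + 1) / 2 * (BB l T).card := h1
        _ ≤ (l + 1) / 2 * ((l + 1) / 2) ^ T := Nat.mul_le_mul_left _ ih
        _ = ((l + 1) / 2) ^ (T + 1) := by ring

/-- the primes `p > l` up to `X` for which `l` does not divide `binom(p - 1, (p - 1)/2)` -/
def NN (l X : ℕ) : Finset ℕ := (Icc 1 X).filter (fun p => p.Prime ∧ l < p ∧ ¬ l ∣ (p - 1).choose ((p - 1) / 2))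

theorem NN_card : ∃ C : ℝ, 0 < C ∧ ∀ l X : ℕ, l.Prime → 13 ≤ l → l ≤ X →
    ((NN l X).card : ℝ) ≤ C * (X / Real.log X) * (7 / 13 : ℝ) ^ (Nat.log l X / 2) := by
  obtain ⟨C, hC, hbt⟩ := Pool.Agent.H17.bt_interval
  refine ⟨16 * C, by positivity, fun l X hl hl13 hlX => ?_⟩
  obtain ⟨I, hI⟩ : ∃ I, I = Nat.log l X := ⟨_, rfl⟩
  obtain ⟨i0, hi0⟩ : ∃ i0, i0 = (I + 1) / 2 := ⟨_, rfl⟩
  obtain ⟨T, hT⟩ : ∃ T, T = I / 2 := ⟨_, rfl⟩
  have hIiT : I = i0 + T := by omega
  have hI1 : 1 ≤ I := by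
    rw [hI]
    exact Nat.log_pos (by omega) hlX
  have hlI : l ^ I ≤ X := by
    rw [hI]
    exact Nat.pow_log_le_self l (by omega)
  have hXl : X < l ^ (I + 1) := by
    rw [hI]
    exact Nat.lt_pow_succ_log_self (by omega) X
  have hi01 : 1 ≤ i0 := by omega
  have hl0 : 0 < l := hl.pos
  have hz2 : 2 ≤ 2 * l ^ i0 := by
    have : 1 ≤ l ^ i0 := Nat.one_le_pow _ _ hl0
    omega
  -- covering
  have hsub : NN l X ⊆ ((range (X / l ^ I + 1)) ×ˢ (BB l T)).biUnion (fun e =>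
      (Ioc (2 * ((e.1 * l ^ T + e.2) * l ^ i0)) (2 * ((e.1 * l ^ T + e.2) * l ^ i0) + 2 * l ^ i0)).filter Nat.Prime) := by
    intro p hp
    unfold NN at hp
    rw [mem_filter, mem_Icc] at hp
    obtain ⟨⟨hp1, hpX⟩, hpp, hlp, hnd⟩ := hp
    obtain ⟨m, hm⟩ : ∃ m, p = 2 * m + 1 := by
      rcases hpp.eq_two_or_odd' with h | h
      · omega
      · exact h
    have e1 : p - 1 = 2 * m := by omega
    have e2 : (p - 1) / 2 = m := by omega
    rw [e1, show 2 * m / 2 = m by omega] at hnd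
    have hk := kummer hl hnd
    have hT0 : 0 < l ^ T := pow_pos hl0 T
    have hi00 : 0 < l ^ i0 := pow_pos hl0 i0
    rw [mem_biUnion]
    refine ⟨(m / l ^ i0 / l ^ T, m / l ^ i0 % l ^ T), ?_, ?_⟩
    · rw [mem_product]
      refine ⟨?_, ?_⟩
      · simp only
        rw [mem_range, Nat.div_div_eq_div_mul, ← pow_add, ← hIiT]
        have : m / l ^ I ≤ X / l ^ I := Nat.div_le_div_right (by omega)
        omega
      · simp only
        rw [mem_BB]
        refine ⟨Nat.mod_lt _ hT0, fun t ht => ?_⟩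
        rw [Nat.mod_mod_of_dvd _ (pow_dvd_pow l ht)]
        have h1 := hk (i0 + t)
        rw [pow_add] at h1
        have h2 : m % (l ^ i0 * l ^ t) = m % l ^ i0 + l ^ i0 * (m / l ^ i0 % l ^ t) := Nat.mod_mul
        rw [h2] at h1
        have h3 : l ^ i0 * (2 * (m / l ^ i0 % l ^ t)) < l ^ i0 * l ^ t := by nlinarith [Nat.zero_le (m % l ^ i0)]
        exact lt_of_mul_lt_mul_left h3 (Nat.zero_le _)
    · simp only
      have h1 : m / l ^ i0 / l ^ T * l ^ T + m / l ^ i0 % l ^ T = m / l ^ i0 := Nat.div_add_mod' _ _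
      rw [h1, mem_filter, mem_Ioc]
      have h2 : m / l ^ i0 * l ^ i0 + m % l ^ i0 = m := Nat.div_add_mod' _ _
      have h3 : m % l ^ i0 < l ^ i0 := Nat.mod_lt _ hi00
      obtain ⟨r, hr⟩ : ∃ r, r = m % l ^ i0 := ⟨_, rfl⟩
      obtain ⟨a, ha⟩ : ∃ a, a = m / l ^ i0 * l ^ i0 := ⟨_, rfl⟩
      rw [← hr, ← ha] at h2
      rw [← hr] at h3
      rw [← ha]
      exact ⟨⟨by omega, by omega⟩, hpp⟩
  have hcard : ((NN l X).card : ℝ) ≤ ((X / l ^ I + 1 : ℕ) : ℝ) * ((BB l T).card : ℝ) *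
      (C * ((2 * l ^ i0 : ℕ) : ℝ) / Real.log ((2 * l ^ i0 : ℕ) : ℝ)) := by
    have h1 : (NN l X).card ≤ _ := (card_le_card hsub).trans card_biUnion_le
    refine (Nat.cast_le.2 h1).trans ?_
    rw [Nat.cast_sum]
    refine (sum_le_sum (fun e _ => hbt _ (2 * l ^ i0) hz2)).trans (le_of_eq ?_)
    rw [sum_const, nsmul_eq_mul, card_product, card_range, Nat.cast_mul]
  have hX0 : (0 : ℝ) < X := by exact_mod_cast (by omega : 0 < X)
  have hX1 : (1 : ℝ) < X := by exact_mod_cast (by omega : 1 < X)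
  have hlX0 : 0 < Real.log X := Real.log_pos hX1
  have hlr : (13 : ℝ) ≤ l := by exact_mod_cast hl13
  have hlr0 : (0 : ℝ) < l := by linarith
  have hlog : Real.log X / 4 ≤ Real.log ((2 * l ^ i0 : ℕ) : ℝ) := by
    have h1 : (X : ℝ) ≤ (((2 * l ^ i0 : ℕ) : ℝ)) ^ 4 := by
      have h2 : X ≤ (2 * l ^ i0) ^ 4 := by
        calc X ≤ l ^ (I + 1) := hXl.le
          _ ≤ l ^ (i0 * 4) := Nat.pow_le_pow_right hl0 (by omega)
          _ = (l ^ i0) ^ 4 := by rw [pow_mul]
          _ ≤ (2 * l ^ i0) ^ 4 := Nat.pow_le_pow_left (by omega) 4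
      exact_mod_cast h2
    have h3 := Real.log_le_log hX0 h1
    rw [Real.log_pow] at h3
    push_cast at h3 ⊢
    linarith
  have hB : ((BB l T).card : ℝ) ≤ (l : ℝ) ^ T * (7 / 13 : ℝ) ^ T := by
    have h1 : ((BB l T).card : ℝ) ≤ ((((l + 1) / 2 : ℕ)) : ℝ) ^ T := by
      exact_mod_cast BB_card (by omega) T
    refine h1.trans ?_
    rw [← mul_pow]
    refine pow_le_pow_left₀ (Nat.cast_nonneg _) ?_ T
    have h2 : (((l + 1) / 2 : ℕ) : ℝ) ≤ ((l : ℝ) + 1) / 2 := by
      refine (Nat.cast_div_le).trans ?_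
      push_cast
      linarith
    linarith
  have hD : ((X / l ^ I + 1 : ℕ) : ℝ) ≤ 2 * (X / (l : ℝ) ^ I) := by
    have h1 : ((X / l ^ I : ℕ) : ℝ) ≤ (X : ℝ) / (l : ℝ) ^ I := by
      refine (Nat.cast_div_le).trans ?_
      push_cast
      exact le_rfl
    have h2 : (1 : ℝ) ≤ X / (l : ℝ) ^ I := by
      rw [one_le_div (by positivity)]
      exact_mod_cast hlI
    push_cast
    linarith
  have hE : C * ((2 * l ^ i0 : ℕ) : ℝ) / Real.log ((2 * l ^ i0 : ℕ) : ℝ) ≤ 8 * C * (l : ℝ) ^ i0 / Real.log X := by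
    have h0 : 0 < Real.log ((2 * l ^ i0 : ℕ) : ℝ) := by linarith
    rw [div_le_div_iff₀ h0 hlX0]
    push_cast at hlog ⊢
    have h1 : 0 ≤ 2 * C * (l : ℝ) ^ i0 := by positivity
    nlinarith
  have hBn : (0 : ℝ) ≤ ((BB l T).card : ℝ) := Nat.cast_nonneg _
  calc ((NN l X).card : ℝ) ≤ _ := hcard
    _ ≤ (2 * (X / (l : ℝ) ^ I)) * ((l : ℝ) ^ T * (7 / 13 : ℝ) ^ T) * (8 * C * (l : ℝ) ^ i0 / Real.log X) := by
        refine mul_le_mul (mul_le_mul hD hB hBn (by positivity)) hE ?_ (by positivity)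
        have h0 : 0 < Real.log ((2 * l ^ i0 : ℕ) : ℝ) := by linarith
        positivity
    _ = 16 * C * (X / Real.log X) * (7 / 13 : ℝ) ^ T := by
        have e1 : (l : ℝ) ^ I = (l : ℝ) ^ i0 * (l : ℝ) ^ T := by rw [hIiT, pow_add]
        rw [e1]
        field_simp
        ring
    _ = _ := by rw [hT, hI]

end H78AP
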