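import Pool.Agent.H78.AP.Av
import Pool.Agent.H63.SG.CoreU
import Pool.Agent.H63.SG.Up

/-!
# Lower bound for the singular factor of the central binomial coefficient
-/

set_option autoImplicit false

open Finset

namespace H78AP

open Pool.Agent.H78.CB H69PG

/-- the primes `l ≥ 13` which divide `cb k` -/
noncomputable def ZZ (k : ℕ) : Finset ℕ := (Icc 13 (pr k)).filter (fun l => l.Prime ∧ l ∣ cb k)

noncomputable def ww (k : ℕ) : ℝ := ∏ l ∈ ZZ k, (1 + 1 / (l : ℝ))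

lemma mem_ZZ {k l : ℕ} : l ∈ ZZ k ↔ l.Prime ∧ 12 < l ∧ l ∣ cb k := by
  unfold ZZ
  rw [mem_filter, mem_Icc]
  constructor
  · rintro ⟨⟨h1, h2⟩, h3, h4⟩
    exact ⟨h3, by omega, h4⟩
  · rintro ⟨h1, h2, h3⟩
    have := cb_smooth k l h1 h3
    exact ⟨⟨by omega, by omega⟩, h1, h3⟩

lemma mem_EE {k l : ℕ} : l ∈ EE k ↔ l.Prime ∧ 12 < l ∧ l < pr k ∧ ¬ l ∣ cb k := by
  unfold EE
  rw [mem_filter, mem_Icc]
  constructor
  · rintro ⟨⟨h1, h2⟩, h3, h4, h5⟩
    exact ⟨h3, by omega, h4, h5⟩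
  · rintro ⟨h1, h2, h3, h4⟩
    exact ⟨⟨by omega, by omega⟩, h1, h3, h4⟩

lemma ww_one_le (k : ℕ) : 1 ≤ ww k :=
  prod_induction _ (fun r : ℝ => 1 ≤ r) (fun a b ha hb => one_le_mul_of_one_le_of_one_le ha hb) le_rfl
    (fun l _ => by
      have : (0 : ℝ) ≤ 1 / (l : ℝ) := by positivity
      linarith)

theorem ww_low : ∃ c : ℝ, 0 < c ∧ ∀ k : ℕ, 13 ≤ k → ∀ A : ℝ, ∑ l ∈ EE k, 1 / (l : ℝ) ≤ A →
    c * Real.exp (-A) * Real.log k ≤ ww k := by
  obtain ⟨C, hC, hvv⟩ := Pool.Agent.H63.SG.UpX_vv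
  refine ⟨11 / 12 / C, by positivity, fun k hk A hA => ?_⟩
  obtain ⟨z, hz⟩ : ∃ z, z = pr k - 1 := ⟨_, rfl⟩
  have hzk : k ≤ z := by
    have h := Nat.add_two_le_nth_prime (k - 1)
    unfold pr at hz
    omega
  have hC0 : 0 < C := by linarith
  have hlk : 0 < Real.log k := Real.log_pos (by exact_mod_cast (by omega : 1 < k))
  have hlz : Real.log k ≤ Real.log z := Real.log_le_log (by exact_mod_cast (by omega : 0 < k)) (by exact_mod_cast hzk)
  have hlz0 : 0 < Real.log z := by linarith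
  have hV := hvv z (by omega)
  have hV0 : 0 < VV 12 z 1 := vv_pos (by norm_num)
  -- the product over all primes
  have h1 : ∏ l ∈ PK 12 z, (1 + 1 / (l : ℝ)) ≤ ww k * ∏ l ∈ EE k, (1 + 1 / (l : ℝ)) := by
    unfold ww
    rw [← prod_union]
    · have hsub : PK 12 z ⊆ ZZ k ∪ EE k := by
        intro l hl
        obtain ⟨a1, a2, a3⟩ := bh_mem_PK.1 hl
        rw [mem_union, mem_ZZ, mem_EE]
        by_cases h : l ∣ cb k
        · exact Or.inl ⟨a3, a1, h⟩
        · exact Or.inr ⟨a3, a1, by omega, h⟩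
      rw [← prod_sdiff hsub]
      refine le_mul_of_one_le_left (prod_nonneg (fun l _ => by positivity)) ?_
      exact prod_induction _ (fun r : ℝ => 1 ≤ r) (fun a b ha hb => one_le_mul_of_one_le_of_one_le ha hb) le_rfl
        (fun l _ => by
          have : (0 : ℝ) ≤ 1 / (l : ℝ) := by positivity
          linarith)
    · rw [disjoint_left]
      intro l h1 h2
      rw [mem_ZZ] at h1
      rw [mem_EE] at h2
      exact h2.2.2.2 h1.2.2
  have h2 : ∏ l ∈ EE k, (1 + 1 / (l : ℝ)) ≤ Real.exp A := by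
    calc ∏ l ∈ EE k, (1 + 1 / (l : ℝ)) ≤ ∏ l ∈ EE k, Real.exp (1 / (l : ℝ)) :=
          prod_le_prod (fun l _ => by positivity) (fun l _ => by
            have := Real.add_one_le_exp (1 / (l : ℝ))
            linarith)
      _ = Real.exp (∑ l ∈ EE k, 1 / (l : ℝ)) := (Real.exp_sum _ _).symm
      _ ≤ Real.exp A := Real.exp_le_exp.2 hA
  have h3 : (11 / 12 : ℝ) ≤ (∏ l ∈ PK 12 z, (1 + 1 / (l : ℝ))) * VV 12 z 1 := by
    have e : (∏ l ∈ PK 12 z, (1 + 1 / (l : ℝ))) * VV 12 z 1 = ∏ l ∈ PK 12 z, (1 - 1 / (l : ℝ) ^ 2) := by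
      unfold VV
      rw [← prod_mul_distrib]
      refine prod_congr rfl (fun l hl => ?_)
      rw [Nat.cast_one]
      have : (0 : ℝ) < l := by exact_mod_cast (bh_mem_PK.1 hl).2.2.pos
      field_simp
      ring
    rw [e]
    refine le_trans ?_ (Pool.Agent.H63.SG.Core_one_sub (PK 12 z) (fun l => 1 / (l : ℝ) ^ 2) (fun l _ => by positivity) (fun l hl => ?_))
    · have h3 : ∑ l ∈ PK 12 z, (1 / (l : ℝ) ^ 2) ≤ ∑ l ∈ Ioc 12 z, (1 / (l : ℝ) ^ 2) :=
        sum_le_sum_of_subset_of_nonneg (filter_subset _ _) (fun l _ _ => by positivity)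
      have h4 : ∑ l ∈ Ioc 12 z, (1 / (l : ℝ) ^ 2) = ∑ l ∈ Ioc 12 z, ((l : ℝ) ^ 2)⁻¹ :=
        sum_congr rfl (fun l _ => by rw [one_div])
      have h5 := sum_Ioc_inv_sq_le_sub (α := ℝ) (k := 12) (n := z) (by norm_num) (by omega)
      have h6 : (0 : ℝ) ≤ ((z : ℝ))⁻¹ := by positivity
      rw [h4] at h3
      norm_num at h5
      linarith
    · have hl' : (13 : ℝ) ≤ l := by exact_mod_cast (bh_mem_PK.1 hl).1
      show 1 / (l : ℝ) ^ 2 ≤ 1
      rw [div_le_one (by positivity)]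
      nlinarith
  have hw1 := ww_one_le k
  have h4 : (11 / 12 : ℝ) ≤ ww k * Real.exp A * (C / Real.log k) := by
    calc (11 / 12 : ℝ) ≤ (∏ l ∈ PK 12 z, (1 + 1 / (l : ℝ))) * VV 12 z 1 := h3
      _ ≤ (ww k * Real.exp A) * (C / Real.log k) := by
          refine mul_le_mul (h1.trans (mul_le_mul_of_nonneg_left h2 (by linarith))) (hV.trans ?_) hV0.le (by positivity)
          exact div_le_div_of_nonneg_left hC0.le hlk hlz
  have hE := Real.exp_pos A
  have h5 : 11 / 12 * Real.log k ≤ ww k * Real.exp A * C := by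
    have := mul_le_mul_of_nonneg_right h4 hlk.le
    have e : ww k * Real.exp A * (C / Real.log k) * Real.log k = ww k * Real.exp A * C := by field_simp
    rw [e] at this
    exact this
  rw [Real.exp_neg]
  have e2 : 11 / 12 / C * (Real.exp A)⁻¹ * Real.log k = 11 / 12 * Real.log k / (Real.exp A * C) := by
    field_simp
  rw [e2, div_le_iff₀ (by positivity)]
  linarith

end H78AP
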