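import Pool.Agent.H78.AP.Bt
import Pool.Agent.H78.AP.Sm
import Pool.Agent.H78.AP.Wl

/-!
# The good set of indices
-/

set_option autoImplicit false

open Finset

namespace H78AP

open Pool.Agent.H78.CB

lemma bd_le {k j : ℕ} (hk : 2 ≤ k) (hkj : k < j) (hj : 13 ≤ j) {A : ℝ} (hA : ∑ l ∈ EE j, 1 / (l : ℝ) ≤ A) :
    ∑ l ∈ BD k j, 1 / (l : ℝ) ≤ A + 1 := by
  have h1 := bd_large hk hkj
  have hj3 : Real.exp 1 ≤ j := by
    have h2 := Real.exp_one_lt_d9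
    have h3 : (13 : ℝ) ≤ j := by exact_mod_cast hj
    linarith
  have hj0 : (0 : ℝ) < j := (Real.exp_pos 1).trans_le hj3
  have hl : 1 ≤ Real.log j := (Real.le_log_iff_exp_le hj0).2 hj3
  have h2 : 1 / Real.log j ≤ 1 := by
    rw [div_le_one (by linarith)]
    exact hl
  rw [← sum_filter_add_sum_filter_not (BD k j) (fun l => ¬ l < pr j)]
  have h3 : ∑ l ∈ (BD k j).filter (fun l => ¬ ¬ l < pr j), 1 / (l : ℝ) ≤ ∑ l ∈ EE j, 1 / (l : ℝ) := by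
    refine sum_le_sum_of_subset_of_nonneg ?_ (fun l _ _ => by positivity)
    intro l hl'
    rw [mem_filter, not_not, mem_BD hk hkj] at hl'
    exact mem_EE.2 ⟨hl'.1.1, hl'.1.2.1, hl'.2, hl'.1.2.2.2.2⟩
  linarith

theorem goodT : ∃ A : ℝ, 0 < A ∧ ∀ η : ℝ, 0 < η → ∃ K0 : ℕ, ∀ K : ℕ, K0 ≤ K → ∃ S : Finset ℕ, (K : ℝ) / 4 ≤ (S.card : ℝ) ∧
    (∀ k ∈ S, 13 ≤ k ∧ k ≤ K ∧ K < k ^ 2 ∧ ∑ l ∈ EE k, 1 / (l : ℝ) ≤ A ∧ 2310 ∣ cb k) ∧
    ∑ e ∈ (S ×ˢ S).filter (fun e => e.1 < e.2), ∑ l ∈ BD e.1 e.2, 1 / (l : ℝ) ≤ η * (K : ℝ) ^ 2 := by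
  classical
  obtain ⟨C, hC, havg⟩ := avg
  refine ⟨4 * C, by positivity, fun η hη => ?_⟩
  obtain ⟨K1, hK1⟩ := badsum η hη
  obtain ⟨K2, hK2⟩ := smallp
  refine ⟨K1 + K2 + 169, fun K hK => ?_⟩
  have hK0 : (169 : ℝ) ≤ K := by exact_mod_cast (by omega : 169 ≤ K)
  obtain ⟨B, hB⟩ : ∃ B, B = (Icc 1 K).filter (fun k => 4 * C < ∑ l ∈ EE k, 1 / (l : ℝ)) := ⟨_, rfl⟩
  obtain ⟨Q, hQ⟩ : ∃ Q, Q = (Icc 1 K).filter (fun k => k ^ 2 ≤ K) := ⟨_, rfl⟩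
  obtain ⟨M, hM⟩ : ∃ M : ℕ → Finset ℕ, M = fun l => (Icc 1 K).filter (fun k => l < pr k ∧ ¬ l ∣ cb k) := ⟨_, rfl⟩
  have hBc : (B.card : ℝ) ≤ K / 4 := by
    have h1 : (B.card : ℝ) * (4 * C) ≤ C * K := by
      calc (B.card : ℝ) * (4 * C) = ∑ _k ∈ B, 4 * C := by rw [sum_const, nsmul_eq_mul]
        _ ≤ ∑ k ∈ B, ∑ l ∈ EE k, 1 / (l : ℝ) := sum_le_sum (fun k hk => by
            rw [hB, mem_filter] at hk
            exact hk.2.le)
        _ ≤ ∑ k ∈ Icc 1 K, ∑ l ∈ EE k, 1 / (l : ℝ) := by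
            refine sum_le_sum_of_subset_of_nonneg ?_ (fun k _ _ => sum_nonneg (fun l _ => by positivity))
            rw [hB]
            exact filter_subset _ _
        _ ≤ C * K := havg K (by omega)
    nlinarith
  have hQc : (Q.card : ℝ) ≤ K / 4 := by
    have h1 : Q ⊆ Icc 1 (Nat.sqrt K) := by
      intro k hk
      rw [hQ, mem_filter, mem_Icc] at hk
      rw [mem_Icc]
      exact ⟨hk.1.1, Nat.le_sqrt'.2 hk.2⟩
    have h2 := card_le_card h1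
    rw [Nat.card_Icc, Nat.add_sub_cancel] at h2
    have h3 : Nat.sqrt K * Nat.sqrt K ≤ K := Nat.sqrt_le K
    have h4 : 4 ≤ Nat.sqrt K := Nat.le_sqrt.2 (by omega)
    have h5 : 4 * Q.card ≤ K := by nlinarith
    have h6 : (4 : ℝ) * Q.card ≤ K := by exact_mod_cast h5
    linarith
  have hMc : ∀ l : ℕ, l.Prime → 3 ≤ l → l ≤ 11 → ((M l).card : ℝ) ≤ K / 40 := by
    intro l h1 h2 h3
    rw [hM]
    exact hK2 K (by omega) l h1 h2 h3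
  have m3 := hMc 3 (by norm_num) (by norm_num) (by norm_num)
  have m5 := hMc 5 (by norm_num) (by norm_num) (by norm_num)
  have m7 := hMc 7 (by norm_num) (by norm_num) (by norm_num)
  have m11 := hMc 11 (by norm_num) (by norm_num) (by norm_num)
  obtain ⟨S, hS⟩ : ∃ S, S = Icc 1 K \ (B ∪ (Q ∪ (M 3 ∪ (M 5 ∪ (M 7 ∪ M 11))))) := ⟨_, rfl⟩
  have hSc : (K : ℝ) / 4 ≤ (S.card : ℝ) := by
    have h1 : K ≤ S.card + (B.card + (Q.card + ((M 3).card + ((M 5).card + ((M 7).card + (M 11).card))))) := by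
      have h2 := card_le_card_sdiff_add_card (s := Icc 1 K) (t := B ∪ (Q ∪ (M 3 ∪ (M 5 ∪ (M 7 ∪ M 11)))))
      rw [Nat.card_Icc, Nat.add_sub_cancel] at h2
      have h3 := card_union_le B (Q ∪ (M 3 ∪ (M 5 ∪ (M 7 ∪ M 11))))
      have h4 := card_union_le Q (M 3 ∪ (M 5 ∪ (M 7 ∪ M 11)))
      have h5 := card_union_le (M 3) (M 5 ∪ (M 7 ∪ M 11))
      have h6 := card_union_le (M 5) (M 7 ∪ M 11)
      have h7 := card_union_le (M 7) (M 11)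
      rw [hS]
      omega
    have h4 : (K : ℝ) ≤ S.card + (B.card + (Q.card + ((M 3).card + ((M 5).card + ((M 7).card + (M 11).card))))) := by exact_mod_cast h1
    linarith
  have hmem : ∀ k ∈ S, 13 ≤ k ∧ k ≤ K ∧ K < k ^ 2 ∧ ∑ l ∈ EE k, 1 / (l : ℝ) ≤ 4 * C ∧ 2310 ∣ cb k := by
    intro k hk
    rw [hS, mem_sdiff, mem_union, not_or, mem_union, not_or, mem_union, not_or, mem_union, not_or, mem_union, not_or, hB, hQ, hM] at hk
    simp only [mem_filter, mem_Icc] at hk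
    obtain ⟨⟨h1, h2⟩, h3, h4, h5, h6, h7, h8⟩ := hk
    have h9 : K < k ^ 2 := by
      by_contra hcon
      exact h4 ⟨⟨h1, h2⟩, by omega⟩
    have h13 : 13 ≤ k := by nlinarith
    have hpk : k ≤ pr k := le_pr
    have d2 := cb_even (by omega : 2 ≤ k)
    have d3 : 3 ∣ cb k := by
      by_contra hcon
      exact h5 ⟨⟨h1, h2⟩, by omega, hcon⟩
    have d5 : 5 ∣ cb k := by
      by_contra hcon
      exact h6 ⟨⟨h1, h2⟩, by omega, hcon⟩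
    have d7 : 7 ∣ cb k := by
      by_contra hcon
      exact h7 ⟨⟨h1, h2⟩, by omega, hcon⟩
    have d11 : 11 ∣ cb k := by
      by_contra hcon
      exact h8 ⟨⟨h1, h2⟩, by omega, hcon⟩
    refine ⟨h13, h2, h9, ?_, by omega⟩
    by_contra hcon
    exact h3 ⟨⟨h1, h2⟩, not_le.1 hcon⟩
  exact ⟨S, hSc, hmem, hK1 K (by omega) S (fun k hk => ⟨(hmem k hk).1, (hmem k hk).2.1, (hmem k hk).2.2.1⟩)⟩

end H78AP
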