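import Pool.Agent.H78.AP.Sel
import Pool.Agent.H78.AP.Pu

/-!
# Second moment
-/

set_option autoImplicit false

open Finset

namespace H78AP

open Pool.Agent.H78.CB

lemma cs (S : Finset ℕ) (F : ℕ → Finset ℕ) : (∑ k ∈ S, ((F k).card : ℝ)) ^ 2 ≤
    ((S.biUnion F).card : ℝ) * ∑ k ∈ S, ∑ j ∈ S, ((F k ∩ F j).card : ℝ) := by
  classical
  obtain ⟨U, hU⟩ : ∃ U, U = S.biUnion F := ⟨_, rfl⟩
  have hsub : ∀ k ∈ S, F k ⊆ U := by
    intro k hk
    rw [hU]
    exact subset_biUnion_of_mem F hk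
  have h1 : ∀ G : Finset ℕ, G ⊆ U → (G.card : ℝ) = ∑ t ∈ U, (if t ∈ G then (1 : ℝ) else 0) := by
    intro G hG
    rw [sum_ite_mem, inter_eq_right.2 hG, sum_const, nsmul_eq_mul, mul_one]
  have h2 : ∑ k ∈ S, ((F k).card : ℝ) = ∑ t ∈ U, ∑ k ∈ S, (if t ∈ F k then (1 : ℝ) else 0) := by
    rw [sum_comm]
    exact sum_congr rfl (fun k hk => h1 _ (hsub k hk))
  have h3 : ∑ k ∈ S, ∑ j ∈ S, ((F k ∩ F j).card : ℝ) = ∑ t ∈ U, (∑ k ∈ S, (if t ∈ F k then (1 : ℝ) else 0)) ^ 2 := by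
    have e : ∀ k ∈ S, ∀ j ∈ S, ((F k ∩ F j).card : ℝ) = ∑ t ∈ U, (if t ∈ F k then (1 : ℝ) else 0) * (if t ∈ F j then (1 : ℝ) else 0) := by
      intro k hk j _
      rw [h1 (F k ∩ F j) (inter_subset_left.trans (hsub k hk))]
      refine sum_congr rfl (fun t _ => ?_)
      by_cases a : t ∈ F k <;> by_cases b : t ∈ F j <;> simp [a, b]
    calc ∑ k ∈ S, ∑ j ∈ S, ((F k ∩ F j).card : ℝ)
        = ∑ k ∈ S, ∑ j ∈ S, ∑ t ∈ U, (if t ∈ F k then (1 : ℝ) else 0) * (if t ∈ F j then (1 : ℝ) else 0) :=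
          sum_congr rfl (fun k hk => sum_congr rfl (fun j hj => e k hk j hj))
      _ = ∑ k ∈ S, ∑ t ∈ U, ∑ j ∈ S, (if t ∈ F k then (1 : ℝ) else 0) * (if t ∈ F j then (1 : ℝ) else 0) :=
          sum_congr rfl (fun k _ => sum_comm)
      _ = ∑ t ∈ U, ∑ k ∈ S, ∑ j ∈ S, (if t ∈ F k then (1 : ℝ) else 0) * (if t ∈ F j then (1 : ℝ) else 0) := sum_comm
      _ = _ := by
          refine sum_congr rfl (fun t _ => ?_)
          rw [sq, sum_mul_sum]
  rw [h2, h3, ← hU]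
  exact sq_sum_le_card_mul_sum_sq

lemma alg {T U R V : ℝ} (hT : 0 < T) (hVT : V ≤ T) (hV : 0 < V) (hR : 0 < R) (h : T ^ 2 ≤ U * (T + R)) :
    V / 2 ≤ U ∨ V ^ 2 / (2 * R) ≤ U := by
  have hU : 0 < U := by
    by_contra hcon
    rw [not_lt] at hcon
    have : U * (T + R) ≤ 0 := mul_nonpos_of_nonpos_of_nonneg hcon (by linarith)
    nlinarith [pow_pos hT 2]
  rcases le_total R T with h1 | h1
  · left
    have h2 : T * T ≤ (2 * U) * T := by nlinarith
    have h3 := le_of_mul_le_mul_right h2 hT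
    linarith
  · right
    rw [div_le_iff₀ (by positivity)]
    have h2 : V ^ 2 ≤ T ^ 2 := pow_le_pow_left₀ hV.le hVT 2
    nlinarith

theorem apmain : ∃ δ : ℝ, 0 < δ ∧ δ ≤ 1 / 8 ∧ ∃ c : ℝ, 0 < c ∧ ∃ X0 : ℕ, ∀ x : ℕ, X0 ≤ x → ∀ K : ℕ, 169 ≤ K →
    (K : ℝ) * Real.log K ≤ Real.log x → ∃ U : Finset ℕ, c * ((x : ℝ) * (K * Real.log K) / Real.log x ^ 2) ≤ (U.card : ℝ) ∧
      ∀ t ∈ U, t ≤ x ∧ t.Prime ∧ ∃ k : ℕ, 1 < k ∧ k ≤ K ∧ ∀ l : ℕ, l.Prime → l ∣ t + cb k → (x : ℝ) ^ δ < l := by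
  classical
  obtain ⟨δ1, hδ1, hδ11, κ, hκ, X1, hlow⟩ := lowF
  obtain ⟨δ2, hδ2, hδ21, hup⟩ := pairU
  obtain ⟨C, hC, X2, hpair⟩ := hup (min δ1 δ2) (lt_min hδ1 hδ2) (min_le_right _ _)
  obtain ⟨A, hA, hgood⟩ := goodS
  obtain ⟨cw, hcw, hww⟩ := ww_low
  obtain ⟨δ, hδ⟩ : ∃ δ, δ = min δ1 δ2 := ⟨_, rfl⟩
  rw [← hδ] at hpair
  have hδ0 : 0 < δ := by rw [hδ]; exact lt_min hδ1 hδ2
  have hδle1 : δ ≤ δ1 := by rw [hδ]; exact min_le_left _ _
  have hδ8 : δ ≤ 1 / 8 := hδle1.trans hδ11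
  obtain ⟨C', hC'⟩ : ∃ C', C' = C * Real.exp (6 * (A + 1)) := ⟨_, rfl⟩
  have hC'0 : 0 < C' := by rw [hC']; positivity
  obtain ⟨c3, hc3⟩ : ∃ c3, c3 = cw * Real.exp (-A) / 2 := ⟨_, rfl⟩
  have hc30 : 0 < c3 := by rw [hc3]; positivity
  -- growth
  have hg1 : ∀ᶠ x : ℝ in Filter.atTop, 45 * Real.log x ≤ x ^ δ := by
    have := (isLittleO_log_rpow_atTop hδ0).bound (show (0 : ℝ) < 1 / 45 by norm_num)
    filter_upwards [this, Filter.eventually_ge_atTop 1] with x h1 h2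
    rw [Real.norm_of_nonneg (Real.log_nonneg h2), Real.norm_of_nonneg (by positivity)] at h1
    linarith
  have hg2 : ∀ᶠ x : ℝ in Filter.atTop, x ^ (1 / 8 : ℝ) ≤ x / 4 := by
    have h1 : ∀ᶠ x : ℝ in Filter.atTop, 4 ≤ x ^ (7 / 8 : ℝ) :=
      (tendsto_rpow_atTop (by norm_num : (0 : ℝ) < 7 / 8)).eventually_ge_atTop 4
    filter_upwards [h1, Filter.eventually_gt_atTop 0] with x h2 h3
    have e : x = x ^ (7 / 8 : ℝ) * x ^ (1 / 8 : ℝ) := by
      rw [← Real.rpow_add h3]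
      norm_num
    have h4 : 0 < x ^ (1 / 8 : ℝ) := by positivity
    have h5 : 4 * x ^ (1 / 8 : ℝ) ≤ x ^ (7 / 8 : ℝ) * x ^ (1 / 8 : ℝ) := mul_le_mul_of_nonneg_right h2 h4.le
    rw [← e] at h5
    linarith
  obtain ⟨X3, hX3⟩ := Filter.eventually_atTop.1 (tendsto_natCast_atTop_atTop.eventually (hg1.and hg2))
  refine ⟨δ, hδ0, hδ8, min (κ * c3 / 9240) (κ ^ 2 / (2 * C')), by positivity, X1 + X2 + X3 + 4, fun x hx K hK hKx => ?_⟩
  obtain ⟨g1, g2⟩ := hX3 x (by omega)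
  have hx1 : (1 : ℝ) < x := by exact_mod_cast (by omega : 1 < x)
  have hx0 : (0 : ℝ) < x := by linarith
  have hL : 0 < Real.log x := Real.log_pos hx1
  have hK0 : (169 : ℝ) ≤ K := by exact_mod_cast hK
  have hlK : 0 < Real.log K := Real.log_pos (by linarith)
  obtain ⟨S, a, b, ha, hab, hSc, hS⟩ := hgood K hK
  have hprK : (pr K : ℝ) ≤ (x : ℝ) ^ δ := by
    have hc := cheb (three_le_pr (by omega : 2 ≤ K))
    rw [pi_pr (by omega)] at hc
    have hl := log_pr_le (by omega : 2 ≤ K)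
    have h1 : (K : ℝ) * Real.log (pr K : ℝ) ≤ K * (9 * Real.log K) := mul_le_mul_of_nonneg_left hl (by linarith)
    linarith
  have hpk : ∀ k ∈ S, (pr k : ℝ) ≤ (x : ℝ) ^ δ := fun k hk =>
    le_trans (by exact_mod_cast pr_mono (hS k hk).2.1) hprK
  have hxδ : (x : ℝ) ^ δ ≤ (x : ℝ) ^ δ1 := Real.rpow_le_rpow_of_exponent_le hx1.le hδle1
  have hxδ8 : (x : ℝ) ^ δ ≤ x / 4 := (Real.rpow_le_rpow_of_exponent_le hx1.le hδ8).trans g2
  have hchoice : ∀ k : ℕ, ∃ F : Finset ℕ, k ∈ S → κ * ((x : ℝ) / Real.log x ^ 2) * ww k ≤ (F.card : ℝ) ∧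
      ∀ t ∈ F, x / 2 < t ∧ t ≤ x ∧ t.Prime ∧ ∀ l : ℕ, l.Prime → (l : ℝ) ≤ (x : ℝ) ^ δ1 → ¬ l ∣ t + cb k := by
    intro k
    by_cases hk : k ∈ S
    · obtain ⟨F, hF⟩ := hlow x (by omega) a b ha hab k (hS k hk).2.2.2.2 ((hpk k hk).trans hxδ)
      exact ⟨F, fun _ => hF⟩
    · exact ⟨∅, fun h => absurd h hk⟩
  choose F hF using hchoice
  refine ⟨S.biUnion F, ?_, ?_⟩
  · obtain ⟨P, hP⟩ : ∃ P, P = (x : ℝ) / Real.log x ^ 2 := ⟨_, rfl⟩
    have hP0 : 0 < P := by rw [hP]; positivity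
    obtain ⟨W, hW⟩ : ∃ W, W = ∑ k ∈ S, ww k := ⟨_, rfl⟩
    obtain ⟨T, hT⟩ : ∃ T, T = ∑ k ∈ S, ((F k).card : ℝ) := ⟨_, rfl⟩
    obtain ⟨R, hR⟩ : ∃ R, R = C' * ((x : ℝ) / Real.log x ^ 3) * W ^ 2 := ⟨_, rfl⟩
    have hWlow : (K : ℝ) / 4620 * (c3 * Real.log K) ≤ W := by
      have h1 : ∀ k ∈ S, c3 * Real.log K ≤ ww k := by
        intro k hk
        obtain ⟨s1, s2, s3, s4, s5⟩ := hS k hk
        have h2 := hww k s1 A s4
        have h3 : Real.log K ≤ 2 * Real.log k := by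
          have h4 : (K : ℝ) ≤ (k : ℝ) ^ 2 := by exact_mod_cast s3.le
          have h5 := Real.log_le_log (by linarith) h4
          rw [Real.log_pow] at h5
          push_cast at h5
          exact h5
        have h6 : 0 < cw * Real.exp (-A) := by positivity
        rw [hc3]
        nlinarith
      calc (K : ℝ) / 4620 * (c3 * Real.log K) ≤ (S.card : ℝ) * (c3 * Real.log K) :=
            mul_le_mul_of_nonneg_right hSc (by positivity)
        _ = ∑ _k ∈ S, c3 * Real.log K := by rw [sum_const, nsmul_eq_mul]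
        _ ≤ W := by
            rw [hW]
            exact sum_le_sum h1
    have hW0 : 0 < W := lt_of_lt_of_le (by positivity) hWlow
    have hTlow : κ * P * W ≤ T := by
      rw [hT, hW, mul_sum, hP]
      exact sum_le_sum (fun k hk => (hF k hk).1)
    have hV0 : 0 < κ * P * W := by positivity
    have hR0 : 0 < R := by rw [hR]; positivity
    have hpairs : ∑ k ∈ S, ∑ j ∈ S, ((F k ∩ F j).card : ℝ) ≤ T + R := by
      have h0 : ∀ k ∈ S, ∀ j ∈ S, k < j → ((F k ∩ F j).card : ℝ) ≤ C' * ((x : ℝ) / Real.log x ^ 3) * (ww k * ww j) := by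
        intro k hk j hj hkj
        rw [hC']
        obtain ⟨s1, s2, s3, s4, s5⟩ := hS k hk
        obtain ⟨r1, r2, r3, r4, r5⟩ := hS j hj
        refine hpair x (by omega) k j (by omega) hkj (hpk j hj) A r4 _ (fun t ht => ?_)
        rw [mem_inter] at ht
        obtain ⟨a1, a2, a3, a4⟩ := (hF k hk).2 t ht.1
        obtain ⟨b1, b2, b3, b4⟩ := (hF j hj).2 t ht.2
        refine ⟨by omega, a2, a3, ?_, fun l hl _ hlx => ⟨a4 l hl (hlx.trans hxδ), b4 l hl (hlx.trans hxδ)⟩⟩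
        have h1 : (x : ℝ) ≤ 2 * t := by
          have : x ≤ 2 * t := by omega
          exact_mod_cast this
        linarith
      have h1 : ∀ k ∈ S, ∀ j ∈ S, ((F k ∩ F j).card : ℝ) ≤ (if k = j then ((F k).card : ℝ) else 0) +
          C' * ((x : ℝ) / Real.log x ^ 3) * (ww k * ww j) := by
        intro k hk j hj
        have hw : 0 ≤ ww k * ww j := mul_nonneg (by linarith [ww_one_le k]) (by linarith [ww_one_le j])
        have hn : 0 ≤ C' * ((x : ℝ) / Real.log x ^ 3) * (ww k * ww j) := by positivity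
        rcases lt_trichotomy k j with h | h | h
        · rw [if_neg h.ne, zero_add]
          exact h0 k hk j hj h
        · subst h
          rw [if_pos rfl, inter_self]
          linarith
        · rw [if_neg h.ne', zero_add, inter_comm, mul_comm (ww k) (ww j)]
          exact h0 j hj k hk h
      calc ∑ k ∈ S, ∑ j ∈ S, ((F k ∩ F j).card : ℝ)
          ≤ ∑ k ∈ S, ∑ j ∈ S, ((if k = j then ((F k).card : ℝ) else 0) + C' * ((x : ℝ) / Real.log x ^ 3) * (ww k * ww j)) :=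
            sum_le_sum (fun k hk => sum_le_sum (fun j hj => h1 k hk j hj))
        _ = ∑ k ∈ S, (((F k).card : ℝ) + C' * ((x : ℝ) / Real.log x ^ 3) * (ww k * W)) := by
            refine sum_congr rfl (fun k hk => ?_)
            rw [sum_add_distrib, sum_ite_eq, if_pos hk, ← mul_sum, ← mul_sum, hW]
        _ = T + R := by
            rw [sum_add_distrib, ← mul_sum, ← sum_mul, ← hW, hT, hR]
            ring
    have hcs := cs S F
    rw [← hT] at hcs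
    have h2 : T ^ 2 ≤ ((S.biUnion F).card : ℝ) * (T + R) := hcs.trans (mul_le_mul_of_nonneg_left hpairs (Nat.cast_nonneg _))
    have hKL : (x : ℝ) * (K * Real.log K) / Real.log x ^ 2 ≤ x / Real.log x := by
      rw [div_le_div_iff₀ (by positivity) hL]
      have : (x : ℝ) * (K * Real.log K) ≤ x * Real.log x := mul_le_mul_of_nonneg_left hKx hx0.le
      nlinarith
    have hY0 : 0 ≤ (x : ℝ) * (K * Real.log K) / Real.log x ^ 2 := by positivity
    rcases alg (lt_of_lt_of_le hV0 hTlow) hTlow hV0 hR0 h2 with h | h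
    · refine le_trans ?_ h
      calc min (κ * c3 / 9240) (κ ^ 2 / (2 * C')) * ((x : ℝ) * (K * Real.log K) / Real.log x ^ 2)
          ≤ κ * c3 / 9240 * ((x : ℝ) * (K * Real.log K) / Real.log x ^ 2) := mul_le_mul_of_nonneg_right (min_le_left _ _) hY0
        _ = κ * P * ((K : ℝ) / 4620 * (c3 * Real.log K)) / 2 := by
            rw [hP]
            ring
        _ ≤ κ * P * W / 2 := by
            have := mul_le_mul_of_nonneg_left hWlow (by positivity : 0 ≤ κ * P)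
            linarith
    · refine le_trans ?_ h
      calc min (κ * c3 / 9240) (κ ^ 2 / (2 * C')) * ((x : ℝ) * (K * Real.log K) / Real.log x ^ 2)
          ≤ κ ^ 2 / (2 * C') * ((x : ℝ) * (K * Real.log K) / Real.log x ^ 2) := mul_le_mul_of_nonneg_right (min_le_right _ _) hY0
        _ ≤ κ ^ 2 / (2 * C') * (x / Real.log x) := mul_le_mul_of_nonneg_left hKL (by positivity)
        _ = (κ * P * W) ^ 2 / (2 * R) := by
            rw [hP, hR]
            field_simp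
  · intro t ht
    rw [mem_biUnion] at ht
    obtain ⟨k, hk, htk⟩ := ht
    obtain ⟨a1, a2, a3, a4⟩ := (hF k hk).2 t htk
    obtain ⟨s1, s2, s3, s4, s5⟩ := hS k hk
    refine ⟨a2, a3, k, by omega, s2, fun l hl hd => ?_⟩
    by_contra hcon
    rw [not_lt] at hcon
    exact a4 l hl (hcon.trans hxδ) hd

end H78AP
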