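import Pool.Agent.H78.AP.Wl

/-!
# The set of indices, and the lower bound for one shift
-/

set_option autoImplicit false

open Finset

namespace H78AP

open Pool.Agent.H78.CB

lemma dvd2310 {l : ℕ} (hl : l.Prime) (h : l ∣ 2310) : l ≤ 12 := by
  have h1 : (2310 : ℕ) = 2 * (3 * (5 * (7 * 11))) := by norm_num
  rw [h1] at h
  rcases hl.dvd_mul.1 h with h | h
  · have := Nat.le_of_dvd (by norm_num) h
    omega
  rcases hl.dvd_mul.1 h with h | h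
  · have := Nat.le_of_dvd (by norm_num) h
    omega
  rcases hl.dvd_mul.1 h with h | h
  · have := Nat.le_of_dvd (by norm_num) h
    omega
  rcases hl.dvd_mul.1 h with h | h
  · have := Nat.le_of_dvd (by norm_num) h
    omega
  · have := Nat.le_of_dvd (by norm_num) h
    omega

lemma small_dvd {l : ℕ} (hl : l.Prime) (h : l ≤ 12) : l ∣ 2310 := by
  interval_cases l <;> revert hl <;> decide

lemma cls0 : ∀ i < 33, ∀ j < 35, ∃ a ∈ ([1, 13, 17, 19, 23, 29, 31, 37, 41] : List ℕ), Nat.gcd a 2310 = 1 ∧ Nat.gcd (a + 2 * (35 * i + j)) 2310 = 1 := by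
  decide +kernel

lemma cls (c : ℕ) (hc : c < 1155) : ∃ a : ℕ, Nat.gcd a 2310 = 1 ∧ Nat.gcd (a + 2 * c) 2310 = 1 := by
  obtain ⟨a, _, h1, h2⟩ := cls0 (c / 35) (by omega) (c % 35) (by omega)
  rw [Nat.div_add_mod] at h2
  exact ⟨a, h1, h2⟩

theorem lowF : ∃ δ : ℝ, 0 < δ ∧ δ ≤ 1 / 8 ∧ ∃ κ : ℝ, 0 < κ ∧ ∃ X0 : ℕ, ∀ x : ℕ, X0 ≤ x → ∀ a b : ℕ,
    Nat.gcd a 2310 = 1 → Nat.gcd (a + b) 2310 = 1 → ∀ k : ℕ, cb k % 2310 = b → (pr k : ℝ) ≤ (x : ℝ) ^ δ →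
    ∃ F : Finset ℕ, κ * ((x : ℝ) / Real.log x ^ 2) * ww k ≤ (F.card : ℝ) ∧
      ∀ t ∈ F, x / 2 < t ∧ t ≤ x ∧ t.Prime ∧ ∀ l : ℕ, l.Prime → (l : ℝ) ≤ (x : ℝ) ^ δ → ¬ l ∣ t + cb k := by
  obtain ⟨δ, hδ, hδ1, h⟩ := Pool.Agent.H63.SG.coreU 1 (by norm_num) le_rfl Pool.Agent.H63.SG.Fac1
  obtain ⟨κ, hκ, X0, hX⟩ := h 2310 (by norm_num) (fun l hl hl12 => by
    rw [Nat.coprime_comm, hl.coprime_iff_not_dvd]
    intro hd
    have := dvd2310 hl hd
    omega)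
  refine ⟨δ, hδ, hδ1, κ, hκ, X0 + 4, fun x hx a b ha hab k hk hpk => ?_⟩
  obtain ⟨F, hF1, hF2⟩ := hX x (x / 2) (by omega) (by omega) (by omega) (by omega) a ha
    (fun l => {(l - cb k % l) % l}) (fun l => by simp) (ZZ k) (fun l hl => by
      rw [mem_ZZ] at hl
      refine ⟨hl.1, hl.2.1, le_trans ?_ hpk, fun r hr => ?_⟩
      · exact_mod_cast (cb_smooth k l hl.1 hl.2.2).le
      · rw [mem_singleton] at hr
        rw [hr, Nat.mod_mod, Nat.mod_eq_zero_of_dvd hl.2.2, Nat.sub_zero, Nat.mod_self])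
  refine ⟨F, hF1, fun t ht => ?_⟩
  obtain ⟨t1, t2, t3, t4, t5⟩ := hF2 t ht
  refine ⟨t1, t2, t3, fun l hl hlx hd => ?_⟩
  rcases Nat.lt_or_ge 12 l with h12 | h12
  · apply t5 l hl h12 hlx
    rw [mem_singleton]
    have hl0 := hl.pos
    have e1 : (t % l + cb k % l) % l = 0 := by
      rw [← Nat.add_mod]
      exact Nat.mod_eq_zero_of_dvd hd
    have e2 : t % l < l := Nat.mod_lt _ hl0
    have e3 : cb k % l < l := Nat.mod_lt _ hl0
    obtain ⟨u, hu⟩ : ∃ u, u = t % l := ⟨_, rfl⟩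
    obtain ⟨v, hv⟩ : ∃ v, v = cb k % l := ⟨_, rfl⟩
    rw [← hu, ← hv] at e1
    rw [← hu] at e2
    rw [← hv] at e3
    rw [← hu, ← hv]
    obtain ⟨q, hq⟩ := Nat.dvd_of_mod_eq_zero e1
    have hq2 : q < 2 := by
      by_contra hcon
      rw [not_lt] at hcon
      have := Nat.mul_le_mul_left l hcon
      omega
    interval_cases q
    · have hv0 : v = 0 := by omega
      have hu0 : u = 0 := by omega
      rw [hu0, hv0, Nat.sub_zero, Nat.mod_self]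
    · rcases Nat.eq_zero_or_pos v with hv0 | hv0
      · omega
      · have : l - v = u := by omega
        rw [this, Nat.mod_eq_of_lt e2]
  · have h1 := small_dvd hl h12
    have h2 : t % 2310 = a % 2310 := t4
    have h3 : (t + cb k) % 2310 = (a + b) % 2310 := by
      rw [Nat.add_mod, h2, hk, ← Nat.add_mod_mod, ← hk]
      simp [Nat.add_mod]
    have h4 : l ∣ a + b := by
      have h5 : l ∣ (t + cb k) % 2310 := (Nat.dvd_mod_iff h1).2 hd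
      rw [h3] at h5
      exact (Nat.dvd_mod_iff h1).1 h5
    have h6 : l ∣ Nat.gcd (a + b) 2310 := Nat.dvd_gcd h4 h1
    rw [hab] at h6
    exact hl.one_lt.ne' (Nat.dvd_one.1 h6)

theorem goodS : ∃ A : ℝ, 0 < A ∧ ∀ K : ℕ, 169 ≤ K → ∃ S : Finset ℕ, ∃ a b : ℕ, Nat.gcd a 2310 = 1 ∧ Nat.gcd (a + b) 2310 = 1 ∧
    (K : ℝ) / 4620 ≤ (S.card : ℝ) ∧ ∀ k ∈ S, 13 ≤ k ∧ k ≤ K ∧ K < k ^ 2 ∧ ∑ l ∈ EE k, 1 / (l : ℝ) ≤ A ∧ cb k % 2310 = b := by
  classical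
  obtain ⟨C, hC, havg⟩ := avg
  refine ⟨4 * C, by positivity, fun K hK => ?_⟩
  have hK0 : (169 : ℝ) ≤ K := by exact_mod_cast hK
  obtain ⟨B, hB⟩ : ∃ B, B = (Icc 1 K).filter (fun k => 4 * C < ∑ l ∈ EE k, 1 / (l : ℝ)) := ⟨_, rfl⟩
  obtain ⟨Q, hQ⟩ : ∃ Q, Q = (Icc 1 K).filter (fun k => k ^ 2 ≤ K) := ⟨_, rfl⟩
  have hBc : (B.card : ℝ) ≤ K / 4 := by
    have h1 : (B.card : ℝ) * (4 * C) ≤ C * K := by
      calc (B.card : ℝ) * (4 * C) = ∑ _k ∈ B, 4 * C := by rw [sum_const, nsmul_eq_mul]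
        _ ≤ ∑ k ∈ B, ∑ l ∈ EE k, 1 / (l : ℝ) := sum_le_sum (fun k hk => by
            rw [hB, mem_filter] at hk
            exact hk.2.le)
        _ ≤ ∑ k ∈ Icc 1 K, ∑ l ∈ EE k, 1 / (l : ℝ) := by
            refine sum_le_sum_of_subset_of_nonneg ?_ (fun k _ _ => sum_nonneg (fun l _ => by positivity))
            rw [hB]
            exact filter_subset _ _
        _ ≤ C * K := havg K (by omega)
    nlinarith
  have hQc : (Q.card : ℝ) ≤ K / 4 := by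
    have h1 : Q ⊆ Icc 1 (Nat.sqrt K) := by
      intro k hk
      rw [hQ, mem_filter, mem_Icc] at hk
      rw [mem_Icc]
      exact ⟨hk.1.1, Nat.le_sqrt'.2 hk.2⟩
    have h2 := card_le_card h1
    rw [Nat.card_Icc, Nat.add_sub_cancel] at h2
    have h3 : Nat.sqrt K * Nat.sqrt K ≤ K := Nat.sqrt_le K
    have h4 : 4 ≤ Nat.sqrt K := Nat.le_sqrt.2 (by omega)
    have h5 : 4 * Q.card ≤ K := by nlinarith
    have h6 : (4 : ℝ) * Q.card ≤ K := by exact_mod_cast h5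
    linarith
  obtain ⟨S1, hS1⟩ : ∃ S1, S1 = Icc 1 K \ (B ∪ Q) := ⟨_, rfl⟩
  have hS1c : (K : ℝ) / 2 ≤ (S1.card : ℝ) := by
    have h1 : K ≤ S1.card + (B.card + Q.card) := by
      have h2 : (Icc 1 K).card ≤ (Icc 1 K \ (B ∪ Q)).card + (B ∪ Q).card := by
        have := card_le_card_sdiff_add_card (s := Icc 1 K) (t := B ∪ Q)
        exact this
      rw [Nat.card_Icc, Nat.add_sub_cancel] at h2
      have h3 := card_union_le B Q
      rw [hS1]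
      omega
    have h4 : (K : ℝ) ≤ S1.card + (B.card + Q.card) := by exact_mod_cast h1
    linarith
  obtain ⟨b, hb, hbc⟩ := exists_le_card_fiber_of_nsmul_le_card_of_maps_to (s := S1) (t := range 2310) (f := fun k => cb k % 2310)
    (b := (K : ℝ) / 4620) (fun k _ => mem_range.2 (Nat.mod_lt _ (by norm_num))) ⟨0, mem_range.2 (by norm_num)⟩ (by
      rw [card_range, nsmul_eq_mul]
      push_cast
      linarith)
  have hmem : ∀ k ∈ S1.filter (fun k => cb k % 2310 = b), 13 ≤ k ∧ k ≤ K ∧ K < k ^ 2 ∧ ∑ l ∈ EE k, 1 / (l : ℝ) ≤ 4 * C ∧ cb k % 2310 = b := by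
    intro k hk
    rw [mem_filter, hS1, mem_sdiff, mem_union, not_or, hB, hQ, mem_filter, mem_filter, mem_Icc] at hk
    obtain ⟨⟨⟨h1, h2⟩, h3, h4⟩, h5⟩ := hk
    have h6 : K < k ^ 2 := by
      by_contra hcon
      exact h4 ⟨⟨h1, h2⟩, by omega⟩
    refine ⟨by nlinarith, h2, h6, ?_, h5⟩
    by_contra hcon
    exact h3 ⟨⟨h1, h2⟩, not_le.1 hcon⟩
  have hne : (S1.filter (fun k => cb k % 2310 = b)).Nonempty := by
    rw [← card_pos]
    have : (0 : ℝ) < ((S1.filter (fun k => cb k % 2310 = b)).card : ℝ) := lt_of_lt_of_le (by positivity) hbc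
    exact_mod_cast this
  obtain ⟨k0, hk0⟩ := hne
  obtain ⟨m1, m2, m3, m4, m5⟩ := hmem k0 hk0
  have heven : 2 ∣ b := by
    rw [← m5]
    exact (Nat.dvd_mod_iff (by norm_num)).2 (cb_even (by omega))
  obtain ⟨c, rfl⟩ := heven
  rw [mem_range] at hb
  obtain ⟨a, ha1, ha2⟩ := cls c (by omega)
  exact ⟨_, a, 2 * c, ha1, ha2, hbc, hmem⟩

end H78AP
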