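import Pool.Agent.H63.SG.UpU

/-!
# Upper bound sieve for two classes (adapted from `Pool.Agent.H63.SG.UpU`)
-/

set_option autoImplicit false

open Finset

namespace H78AP

open Pool.Agent.H63.SG

/-- one factor -/
theorem fac2 {l : ℕ} (hl : 12 < l) : 1 - 2 / (l : ℝ) ≤ (1 - ((1 : ℕ) : ℝ) / l) ^ 2 ∧
    1 ≤ (1 - ((1 : ℕ) : ℝ) / l) ^ 2 * (1 + 6 / (l : ℝ)) ∧ 0 ≤ (1 - ((1 : ℕ) : ℝ) / l) := by
  have hl' : (13 : ℝ) ≤ l := by exact_mod_cast hl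
  have hl0 : (0 : ℝ) < l := by linarith
  obtain ⟨u, hu⟩ : ∃ u : ℝ, u = 1 / (l : ℝ) := ⟨_, rfl⟩
  have hu0 : 0 < u := by rw [hu]; positivity
  have hu1 : u ≤ 1 / 13 := by
    rw [hu]
    exact one_div_le_one_div_of_le (by norm_num) hl'
  have e1 : 2 / (l : ℝ) = 2 * u := by rw [hu]; ring
  have e2 : 6 / (l : ℝ) = 6 * u := by rw [hu]; ring
  have e3 : ((1 : ℕ) : ℝ) / (l : ℝ) = u := by rw [hu, Nat.cast_one]
  rw [e1, e2, e3]
  have h1 : 1 - 2 * u ≤ (1 - u) ^ 2 := by nlinarith [pow_pos hu0 2, pow_pos hu0 3]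
  refine ⟨h1, ?_, by linarith⟩
  have h2 : 1 ≤ (1 - 2 * u) * (1 + 6 * u) := by nlinarith
  nlinarith

open H69PG in
/-- one factor -/
theorem U2_fac {l : ℕ} (hl : 12 < l) {d a b : ℕ} (ha : a ≤ 1) (hb : b ≤ 1) (hd : 2 ≤ d + a + b) :
    1 - (d : ℝ) / (l : ℝ) ≤ (1 - ((1 : ℕ) : ℝ) / l) ^ 2 * ((1 + 1 / (l : ℝ)) ^ a * ((1 + 1 / (l : ℝ)) ^ b * (1 + 20 / (l : ℝ) ^ 2))) := by
  obtain ⟨f1, f2, f3⟩ := fac2 hl
  have hl' : (13 : ℝ) ≤ l := by exact_mod_cast hl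
  have hl0 : (0 : ℝ) < l := by linarith
  have hd' : (2 : ℝ) - a - b ≤ d := by
    have : (2 : ℝ) ≤ (d : ℝ) + a + b := by exact_mod_cast hd
    linarith
  have h0 : 1 - (d : ℝ) / (l : ℝ) ≤ 1 - (2 - a - b) / (l : ℝ) := by
    have := div_le_div_of_nonneg_right hd' hl0.le
    linarith
  obtain ⟨u, hu⟩ : ∃ u : ℝ, u = 1 / (l : ℝ) := ⟨_, rfl⟩
  have hu0 : 0 < u := by rw [hu]; positivity
  have hu1 : u ≤ 1 / 13 := by
    rw [hu]
    exact one_div_le_one_div_of_le (by norm_num) hl'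
  have e1 : 2 / (l : ℝ) = 2 * u := by rw [hu]; ring
  have e2 : (2 - (a : ℝ) - b) / (l : ℝ) = (2 - a - b) * u := by rw [hu]; ring
  have e3 : 20 / (l : ℝ) ^ 2 = 20 * u ^ 2 := by rw [hu]; field_simp
  rw [e2] at h0
  rw [e1] at f1
  refine h0.trans ?_
  rw [← hu, e3]
  have hq : 0 ≤ (1 + u) ^ a * ((1 + u) ^ b * (1 + 20 * u ^ 2)) := by positivity
  refine le_trans ?_ (mul_le_mul_of_nonneg_right f1 hq)
  have u2 := pow_pos hu0 2
  have u3 := pow_pos hu0 3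
  have u4 := pow_pos hu0 4
  have u5 := pow_pos hu0 5
  have k2 : u ^ 3 ≤ u ^ 2 / 13 := by nlinarith
  have k3 : u ^ 4 ≤ u ^ 3 / 13 := by nlinarith
  have k4 : u ^ 5 ≤ u ^ 4 / 13 := by nlinarith
  interval_cases a <;> interval_cases b
  · have e : (1 - 2 * u) * ((1 + u) ^ 0 * ((1 + u) ^ 0 * (1 + 20 * u ^ 2))) = 1 - 2 * u + 20 * u ^ 2 - 40 * u ^ 3 := by ring
    rw [e]
    push_cast
    linarith
  · have e : (1 - 2 * u) * ((1 + u) ^ 0 * ((1 + u) ^ 1 * (1 + 20 * u ^ 2))) = 1 - u + 18 * u ^ 2 - 20 * u ^ 3 - 40 * u ^ 4 := by ring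
    rw [e]
    push_cast
    linarith
  · have e : (1 - 2 * u) * ((1 + u) ^ 1 * ((1 + u) ^ 0 * (1 + 20 * u ^ 2))) = 1 - u + 18 * u ^ 2 - 20 * u ^ 3 - 40 * u ^ 4 := by ring
    rw [e]
    push_cast
    linarith
  · have e : (1 - 2 * u) * ((1 + u) ^ 1 * ((1 + u) ^ 1 * (1 + 20 * u ^ 2))) =
        1 + 17 * u ^ 2 - 2 * u ^ 3 - 60 * u ^ 4 - 40 * u ^ 5 := by ring
    rw [e]
    push_cast
    linarith

open H69PG in
/-- the product -/
theorem U2_prod {z : ℕ} (hz : 12 ≤ z) (d : ℕ → ℕ) (Z₁ Z₂ Bad : Finset ℕ)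
    (hd : ∀ l ∈ PK 12 z, l ∉ Bad → 2 ≤ d l + (if l ∈ Z₁ then 1 else 0) + (if l ∈ Z₂ then 1 else 0))
    (hg1 : ∀ l ∈ PK 12 z, (d l : ℝ) / (l : ℝ) ≤ 1) :
    ∏ l ∈ PK 12 z, (1 - (d l : ℝ) / (l : ℝ)) ≤ (VV 12 z 1) ^ 2 *
      (Real.exp 2 * (((∏ l ∈ Z₁, (1 + 1 / (l : ℝ))) * (∏ l ∈ Z₂, (1 + 1 / (l : ℝ)))) *
        ∏ l ∈ Bad.filter (fun l => l.Prime ∧ 12 < l), (1 + 6 / (l : ℝ)))) := by
  classical
  have h1 : ∏ l ∈ PK 12 z, (1 - (d l : ℝ) / (l : ℝ)) ≤ ∏ l ∈ PK 12 z, ((1 - ((1 : ℕ) : ℝ) / l) ^ 2 *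
      ((1 + 20 / (l : ℝ) ^ 2) * (((if l ∈ Z₁ then 1 + 1 / (l : ℝ) else 1) * (if l ∈ Z₂ then 1 + 1 / (l : ℝ) else 1)) *
        (if l ∈ Bad.filter (fun l => l.Prime ∧ 12 < l) then 1 + 6 / (l : ℝ) else 1)))) := by
    refine prod_le_prod (fun l hl => by linarith [hg1 l hl]) (fun l hl => ?_)
    obtain ⟨f1, f2, f3⟩ := fac2 (bh_mem_PK.1 hl).1
    have q1 := UpUX_one l (c := 1) (by norm_num)
    have q6 := UpUX_one l (c := 6) (by norm_num)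
    have q20 : (1 : ℝ) ≤ 1 + 20 / (l : ℝ) ^ 2 := by
      have : (0 : ℝ) ≤ 20 / (l : ℝ) ^ 2 := by positivity
      linarith
    have r1 : (1 : ℝ) ≤ (if l ∈ Z₁ then 1 + 1 / (l : ℝ) else 1) := by split_ifs <;> linarith
    have r2 : (1 : ℝ) ≤ (if l ∈ Z₂ then 1 + 1 / (l : ℝ) else 1) := by split_ifs <;> linarith
    have r12 := one_le_mul_of_one_le_of_one_le r1 r2
    by_cases hb : l ∈ Bad
    · have hb' : l ∈ Bad.filter (fun l => l.Prime ∧ 12 < l) := by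
        rw [mem_filter]
        exact ⟨hb, (bh_mem_PK.1 hl).2.2, (bh_mem_PK.1 hl).1⟩
      rw [if_pos hb']
      have h2 : (0 : ℝ) ≤ (d l : ℝ) / (l : ℝ) := by positivity
      have h3 : (1 - ((1 : ℕ) : ℝ) / l) ^ 2 * (1 + 6 / (l : ℝ)) ≤ (1 - ((1 : ℕ) : ℝ) / l) ^ 2 *
          ((1 + 20 / (l : ℝ) ^ 2) * (((if l ∈ Z₁ then 1 + 1 / (l : ℝ) else 1) * (if l ∈ Z₂ then 1 + 1 / (l : ℝ) else 1)) *
            (1 + 6 / (l : ℝ)))) := by
        refine mul_le_mul_of_nonneg_left ?_ (by positivity)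
        rw [← mul_assoc]
        exact le_mul_of_one_le_left (by linarith) (one_le_mul_of_one_le_of_one_le q20 r12)
      linarith
    · have hb' : l ∉ Bad.filter (fun l => l.Prime ∧ 12 < l) := fun h => hb (mem_filter.1 h).1
      rw [if_neg hb', mul_one]
      have h2 := U2_fac (bh_mem_PK.1 hl).1 (d := d l) (a := if l ∈ Z₁ then 1 else 0) (b := if l ∈ Z₂ then 1 else 0)
        (by split_ifs <;> norm_num) (by split_ifs <;> norm_num) (hd l hl hb)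
      refine h2.trans (le_of_eq ?_)
      have e1 : (1 + 1 / (l : ℝ)) ^ (if l ∈ Z₁ then 1 else 0) = (if l ∈ Z₁ then 1 + 1 / (l : ℝ) else 1) := by
        split_ifs <;> simp
      have e2 : (1 + 1 / (l : ℝ)) ^ (if l ∈ Z₂ then 1 else 0) = (if l ∈ Z₂ then 1 + 1 / (l : ℝ) else 1) := by
        split_ifs <;> simp
      rw [e1, e2]
      ring
  refine h1.trans ?_
  rw [prod_mul_distrib, prod_pow, prod_mul_distrib, prod_mul_distrib, prod_mul_distrib]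
  have h3 : (0 : ℝ) ≤ (VV 12 z 1) ^ 2 := pow_nonneg (vv_pos (by norm_num)).le 2
  refine mul_le_mul_of_nonneg_left ?_ h3
  have n1 : (0 : ℝ) ≤ ∏ l ∈ PK 12 z, (if l ∈ Z₁ then 1 + 1 / (l : ℝ) else 1) :=
    prod_nonneg (fun l _ => by split_ifs <;> positivity)
  have n2 : (0 : ℝ) ≤ ∏ l ∈ PK 12 z, (if l ∈ Z₂ then 1 + 1 / (l : ℝ) else 1) :=
    prod_nonneg (fun l _ => by split_ifs <;> positivity)
  have n3 : (0 : ℝ) ≤ ∏ l ∈ PK 12 z, (if l ∈ Bad.filter (fun l => l.Prime ∧ 12 < l) then 1 + 6 / (l : ℝ) else 1) :=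
    prod_nonneg (fun l _ => by split_ifs <;> positivity)
  have m1 := UpUX_sub (c := 1) (by norm_num) (PK 12 z) Z₁
  have m2 := UpUX_sub (c := 1) (by norm_num) (PK 12 z) Z₂
  have m3 := UpUX_sub (c := 6) (by norm_num) (PK 12 z) (Bad.filter (fun l => l.Prime ∧ 12 < l))
  refine mul_le_mul (UpUX_sq hz) ?_ (mul_nonneg (mul_nonneg n1 n2) n3) (Real.exp_nonneg _)
  exact mul_le_mul (mul_le_mul m1 m2 n2 (n1.trans m1)) m3 n3 (mul_nonneg (n1.trans m1) (n2.trans m2))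

open H69PG in
theorem U2_bd : ∃ δ₀ : ℝ, 0 < δ₀ ∧ δ₀ ≤ 1 / 8 ∧ ∀ δ : ℝ, 0 < δ → δ ≤ δ₀ → ∃ C : ℝ, 0 < C ∧ ∃ X0 : ℕ, ∀ x : ℕ, X0 ≤ x → ∀ u : Fin 2 → ∀ l : ℕ, ZMod l,
    ∀ Z₁ Z₂ Bad : Finset ℕ, (∀ l ∈ Z₁, l.Prime ∧ 12 < l ∧ (l : ℝ) ≤ (x : ℝ) ^ δ) → (∀ l ∈ Z₂, l.Prime ∧ 12 < l ∧ (l : ℝ) ≤ (x : ℝ) ^ δ) →
    (∀ l : ℕ, l.Prime → 12 < l → (l : ℝ) ≤ (x : ℝ) ^ δ → l ∉ Bad →
      2 ≤ (univ.image (fun i => u i l)).card + (if l ∈ Z₁ then 1 else 0) + (if l ∈ Z₂ then 1 else 0)) →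
    ∀ F : Finset ℕ, (∀ t ∈ F, 1 ≤ t ∧ t ≤ x ∧ ∀ l : ℕ, l.Prime → 12 < l → (l : ℝ) ≤ (x : ℝ) ^ δ → ∀ i, (t : ZMod l) ≠ u i l) →
      (F.card : ℝ) ≤ C * ((x : ℝ) / Real.log x ^ 2) * ((∏ l ∈ Z₁, (1 + 1 / (l : ℝ))) * (∏ l ∈ Z₂, (1 + 1 / (l : ℝ)))) *
        ∏ l ∈ Bad.filter (fun l => l.Prime ∧ 12 < l), (1 + 6 / (l : ℝ)) := by
  classical
  obtain ⟨C0, hC0, hbh⟩ := H60PP.bhG
  obtain ⟨c, hc, hvv⟩ := UpX_vv
  obtain ⟨b0, hb0⟩ : ∃ b0, b0 = C0 * (2 + 1) := ⟨_, rfl⟩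
  obtain ⟨D0, hD0⟩ : ∃ D0, D0 = 4 * b0 + 10 := ⟨_, rfl⟩
  have hD0' : (10 : ℝ) ≤ D0 := by
    rw [hD0]
    push_cast
    have : (0 : ℝ) ≤ b0 := Nat.cast_nonneg _
    linarith
  refine ⟨1 / (8 * D0), by positivity, ?_, ?_⟩
  · apply one_div_le_one_div_of_le (by norm_num)
    linarith
  intro δ hδ0 hδ
  have hδ1 : δ ≤ 1 / 8 := by
    refine hδ.trans ?_
    apply one_div_le_one_div_of_le (by norm_num)
    linarith
  obtain ⟨X0, hX0⟩ := UpX_large hδ0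
  refine ⟨2 * ((c * (2 / δ)) ^ 2 * Real.exp 2) + 1, by positivity, X0, ?_⟩
  intro x hx u Z₁ Z₂ Bad hZ₁ hZ₂ hBad F hF
  obtain ⟨a0, a1, a2, a3⟩ := hX0 x hx
  have hx1 : (1 : ℝ) ≤ x := by
    by_contra hcon
    rw [not_le] at hcon
    have : x = 0 := by
      have : x < 1 := by exact_mod_cast hcon
      omega
    rw [this] at a0
    norm_num at a0
  have hx0 : (0 : ℝ) < x := by linarith
  set z : ℕ := ⌊(x : ℝ) ^ δ⌋₊ with hz
  have hz12 : 12 ≤ z := Nat.le_floor (by exact_mod_cast a1)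
  have hzle : (z : ℝ) ≤ (x : ℝ) ^ δ := Nat.floor_le (by positivity)
  have hPK : ∀ l ∈ PK 12 z, l.Prime ∧ 12 < l ∧ (l : ℝ) ≤ (x : ℝ) ^ δ := by
    intro l hl
    obtain ⟨h1, h2, h3⟩ := bh_mem_PK.1 hl
    have : (l : ℝ) ≤ (z : ℝ) := by exact_mod_cast h2
    exact ⟨h3, h1, this.trans hzle⟩
  set D : ℕ → Finset ℕ := fun l => (univ : Finset (Fin 2)).image (fun i => (u i l).val) with hD
  have hDc : ∀ l, (D l).card ≤ 4 := fun l => card_image_le.trans (by simp)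
  have hDlt : ∀ l, l.Prime → ∀ r ∈ D l, r < l := by
    intro l hl r hr
    have : Fact l.Prime := ⟨hl⟩
    obtain ⟨i, _, rfl⟩ := mem_image.1 hr
    exact ZMod.val_lt _
  set g : ℕ → ℝ := fun l => ((D l).card : ℝ) / (l : ℝ) with hg
  have hg0 : ∀ l, 0 ≤ g l := fun l => by rw [hg]; positivity
  have hg1 : ∀ l, g l ≤ 4 / (l : ℝ) := fun l =>
    div_le_div_of_nonneg_right (by exact_mod_cast hDc l) (Nat.cast_nonneg l)
  have hmain := hbh 2 b0 (le_of_eq hb0.symm) 12 z (by norm_num) (by norm_num) hz12 g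
    (fun p _ => ⟨hg0 p, by have := hg1 p; push_cast; norm_num; exact this⟩)
    (Ioc 0 x) (fun t p => t % p ∈ D p) (x : ℝ) (fun S => (4 : ℝ) ^ S.card) hx0.le (fun S => by positivity) (by
      intro S hS _
      have hP : ∀ l ∈ S, l.Prime := fun l hl => (hPK l (hS hl)).1
      have h1 := UpX_main D (x := x) S hP (fun l hl => hDlt l (hP l hl)) 1 0 le_rfl (fun l _ => Nat.coprime_one_left l)
      have h2 : UpXU D x 1 0 S = (Ioc 0 x).filter (fun t => ∀ p ∈ S, t % p ∈ D p) := by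
        unfold UpXU
        apply filter_congr
        intro t _
        simp [Nat.modEq_one]
      rw [h2, Nat.cast_one, div_one] at h1
      have h3 : ∏ l ∈ S, ((D l).card : ℝ) ≤ (4 : ℝ) ^ S.card := by
        rw [← prod_const]
        exact prod_le_prod (fun l _ => Nat.cast_nonneg _) (fun l _ => by exact_mod_cast hDc l)
      refine le_trans (le_of_eq ?_) (h1.trans h3)
      congr!)
  obtain ⟨P, hP⟩ : ∃ P : ℝ, P = ((∏ l ∈ Z₁, (1 + 1 / (l : ℝ))) * (∏ l ∈ Z₂, (1 + 1 / (l : ℝ)))) *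
      ∏ l ∈ Bad.filter (fun l => l.Prime ∧ 12 < l), (1 + 6 / (l : ℝ)) := ⟨_, rfl⟩
  have hone : ∀ (Z : Finset ℕ) (c : ℝ), 0 ≤ c → (1 : ℝ) ≤ ∏ l ∈ Z, (1 + c / (l : ℝ)) := fun Z c hc =>
    prod_induction _ (fun r : ℝ => 1 ≤ r) (fun a b ha hb => one_le_mul_of_one_le_of_one_le ha hb) le_rfl
      (fun l _ => UpUX_one l hc)
  have hP1 : 1 ≤ P := by
    rw [hP]
    exact one_le_mul_of_one_le_of_one_le (one_le_mul_of_one_le_of_one_le (hone _ _ (by norm_num)) (hone _ _ (by norm_num)))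
      (hone _ _ (by norm_num))
  -- the main term
  have hprod : ∏ l ∈ PK 12 z, (1 - g l) ≤ (VV 12 z 1) ^ 2 * (Real.exp 2 * P) := by
    rw [hP]
    refine U2_prod hz12 (fun l => (D l).card) Z₁ Z₂ Bad (fun l hl hb => ?_) (fun l hl => ?_)
    · obtain ⟨p1, p2, p3⟩ := hPK l hl
      have : Fact l.Prime := ⟨p1⟩
      have h1 := hBad l p1 p2 p3 hb
      have h2 : (univ.image (fun i => u i l)).card = (D l).card := by
        rw [hD]
        simp only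
        rw [← card_image_of_injective (univ.image (fun i => u i l)) (ZMod.val_injective l), image_image]
        rfl
      rw [h2] at h1
      exact h1
    · refine (hg1 l).trans ?_
      have h1 : (13 : ℝ) ≤ l := by exact_mod_cast (hPK l hl).2.1
      rw [div_le_one (by linarith)]
      linarith
  have hprod0 : 0 ≤ ∏ l ∈ PK 12 z, (1 - g l) := prod_nonneg (fun l hl => by
    have h1 : (13 : ℝ) ≤ l := by exact_mod_cast (hPK l hl).2.1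
    have h2 : 4 / (l : ℝ) ≤ 1 := by
      rw [div_le_one (by linarith)]
      linarith
    linarith [hg1 l])
  have hlogz : δ / 2 * Real.log x ≤ Real.log z := by
    rw [← Real.log_rpow hx0]
    apply Real.log_le_log (by positivity)
    have h1 : (x : ℝ) ^ δ < z + 1 := Nat.lt_floor_add_one _
    have h2 : (x : ℝ) ^ δ = (x : ℝ) ^ (δ / 2) * (x : ℝ) ^ (δ / 2) := by
      rw [← Real.rpow_add hx0]
      congr 1
      ring
    nlinarith
  have hlx : 0 < Real.log x := by linarith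
  have hlz : 0 < Real.log z := lt_of_lt_of_le (by positivity) hlogz
  have hV0 : 0 < VV 12 z 1 := vv_pos (by norm_num)
  have hV : VV 12 z 1 ≤ c * (2 / δ) / Real.log x := by
    refine (hvv z hz12).trans ?_
    rw [div_le_div_iff₀ hlz hlx]
    have h1 : c * (2 / δ) * (δ / 2 * Real.log x) = c * Real.log x := by
      field_simp
    rw [← h1]
    exact mul_le_mul_of_nonneg_left hlogz (by positivity)
  have hV4 : (VV 12 z 1) ^ 2 ≤ (c * (2 / δ)) ^ 2 / Real.log x ^ 2 := by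
    rw [← div_pow]
    exact pow_le_pow_left₀ hV0.le hV 2
  -- the error term
  have herr : ((Nat.log 2 z : ℝ) + 2) * ∑ S ∈ (PK 12 z).powerset.filter (fun S => ∏ p ∈ S, p ≤ z ^ (4 * b0 + 10)), (4 : ℝ) ^ S.card ≤
      (x : ℝ) / Real.log x ^ 2 := by
    have h1 := UpX_sum (z := z) (D0 := D0)
    rw [hD0] at h1
    have h2 : ((z : ℝ) ^ D0) * ((z : ℝ) ^ D0) ≤ (x : ℝ) ^ (1 / 4 : ℝ) := by
      have h3 : (z : ℝ) ^ D0 ≤ (x : ℝ) ^ (1 / 8 : ℝ) := by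
        calc (z : ℝ) ^ D0 ≤ ((x : ℝ) ^ δ) ^ D0 := pow_le_pow_left₀ (Nat.cast_nonneg _) hzle _
          _ = (x : ℝ) ^ (δ * D0) := by
              rw [← Real.rpow_natCast, ← Real.rpow_mul hx0.le]
          _ ≤ (x : ℝ) ^ (1 / 8 : ℝ) := by
              apply Real.rpow_le_rpow_of_exponent_le hx1
              have hD1 : (0 : ℝ) < 8 * D0 := by linarith
              rw [le_div_iff₀ hD1] at hδ
              linarith
      have h4 : (x : ℝ) ^ (1 / 4 : ℝ) = (x : ℝ) ^ (1 / 8 : ℝ) * (x : ℝ) ^ (1 / 8 : ℝ) := by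
        rw [← Real.rpow_add hx0]
        norm_num
      rw [h4]
      exact mul_le_mul h3 h3 (by positivity) (by positivity)
    have h5 : ((Nat.log 2 z : ℝ) + 2) ≤ 4 * Real.log x := by
      have hz0 : z ≠ 0 := by omega
      have h6 : ((2 : ℝ) ^ Nat.log 2 z) ≤ z := by
        exact_mod_cast Nat.pow_log_le_self 2 hz0
      have h7 : (z : ℝ) ≤ x := by
        refine hzle.trans ?_
        calc (x : ℝ) ^ δ ≤ (x : ℝ) ^ (1 : ℝ) := Real.rpow_le_rpow_of_exponent_le hx1 (by linarith)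
          _ = x := Real.rpow_one _
      have h8 : (Nat.log 2 z : ℝ) * Real.log 2 ≤ Real.log x := by
        have := Real.log_le_log (by positivity) (h6.trans h7)
        rwa [Real.log_pow] at this
      have h9 := Real.log_two_gt_d9
      have h10 : (0 : ℝ) ≤ (Nat.log 2 z : ℝ) := Nat.cast_nonneg _
      nlinarith
    rw [hD0] at h2
    calc ((Nat.log 2 z : ℝ) + 2) * ∑ S ∈ (PK 12 z).powerset.filter (fun S => ∏ p ∈ S, p ≤ z ^ (4 * b0 + 10)), (4 : ℝ) ^ S.card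
        ≤ 4 * Real.log x * (x : ℝ) ^ (1 / 4 : ℝ) :=
          mul_le_mul h5 (h1.trans h2) (sum_nonneg (fun S _ => by positivity)) (by positivity)
      _ ≤ _ := a3.trans (div_le_div_of_nonneg_left hx0.le (by positivity) (pow_le_pow_right₀ a0 (by norm_num)))
  have hexp : Real.exp (-(b0 : ℝ)) ≤ 1 := by
    rw [Real.exp_le_one_iff]
    have : (0 : ℝ) ≤ b0 := Nat.cast_nonneg _
    linarith
  have hfin := sub_le_iff_le_add.1 (abs_le.1 hmain).2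
  have hcard := le_trans (Nat.cast_le.2 (card_le_card (s := F) (fun t ht => by
    obtain ⟨t1, t2, t3⟩ := hF t ht
    simp only [mem_filter, mem_Ioc]
    refine ⟨⟨t1, t2⟩, fun p hp hmem => ?_⟩
    obtain ⟨p1, p2, p3⟩ := hPK p hp
    have : Fact p.Prime := ⟨p1⟩
    obtain ⟨i, _, hi⟩ := mem_image.1 hmem
    apply t3 p p1 p2 p3 i
    apply ZMod.val_injective p
    rw [ZMod.val_natCast]
    exact hi.symm))) hfin
  have hY : 0 ≤ (x : ℝ) * ∏ l ∈ PK 12 z, (1 - g l) := mul_nonneg hx0.le hprod0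
  have hX4 : 0 ≤ (x : ℝ) / Real.log x ^ 2 := by positivity
  have hm1 : (x : ℝ) * ∏ l ∈ PK 12 z, (1 - g l) ≤ ((c * (2 / δ)) ^ 2 * Real.exp 2) * ((x : ℝ) / Real.log x ^ 2) * P := by
    calc (x : ℝ) * ∏ l ∈ PK 12 z, (1 - g l) ≤ x * ((c * (2 / δ)) ^ 2 / Real.log x ^ 2 * (Real.exp 2 * P)) := by
          refine mul_le_mul_of_nonneg_left (hprod.trans ?_) hx0.le
          exact mul_le_mul_of_nonneg_right hV4 (mul_nonneg (Real.exp_nonneg _) (by linarith))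
      _ = _ := by ring
  have hm2 : Real.exp (-(b0 : ℝ)) * ((x : ℝ) * ∏ l ∈ PK 12 z, (1 - g l)) ≤ (x : ℝ) * ∏ l ∈ PK 12 z, (1 - g l) :=
    mul_le_of_le_one_left hY hexp
  have hm3 : (x : ℝ) / Real.log x ^ 2 ≤ (x : ℝ) / Real.log x ^ 2 * P := le_mul_of_one_le_right hX4 hP1
  have e : (2 * ((c * (2 / δ)) ^ 2 * Real.exp 2) + 1) * ((x : ℝ) / Real.log x ^ 2) *
      ((∏ l ∈ Z₁, (1 + 1 / (l : ℝ))) * (∏ l ∈ Z₂, (1 + 1 / (l : ℝ)))) *
        ∏ l ∈ Bad.filter (fun l => l.Prime ∧ 12 < l), (1 + 6 / (l : ℝ)) =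
      2 * (((c * (2 / δ)) ^ 2 * Real.exp 2) * ((x : ℝ) / Real.log x ^ 2) * P) + (x : ℝ) / Real.log x ^ 2 * P := by
    rw [hP]
    ring
  rw [e]
  linarith

end H78AP
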