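import Pool.Agent.H78.AP.Fn
import Pool.Agent.H78.AP.U2

/-!
# The upper bound of the same order
-/

set_option autoImplicit false

open Finset

namespace H78AP

open Pool.Agent.H78.CB

lemma ww_up {k : ℕ} (hk : 2 ≤ k) : ww k ≤ 18 * Real.exp 6 * Real.log k := by
  refine le_trans ?_ (SF_cb hk)
  have hcb := cb_pos k
  unfold ww SF
  have hsub : ZZ k ⊆ (cb k).primeFactors.filter (fun p => p ≠ 2) := by
    intro l hl
    rw [mem_ZZ] at hl
    rw [mem_filter, Nat.mem_primeFactors]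
    exact ⟨⟨hl.1, hl.2.2, by omega⟩, by omega⟩
  have hone : ∀ l ∈ (cb k).primeFactors.filter (fun p => p ≠ 2), (1 : ℝ) ≤ 1 + 1 / ((l : ℝ) - 1) := by
    intro l hl
    rw [mem_filter, Nat.mem_primeFactors] at hl
    have h2 : (2 : ℝ) ≤ l := by exact_mod_cast hl.1.1.two_le
    have : 0 ≤ 1 / ((l : ℝ) - 1) := div_nonneg zero_le_one (by linarith)
    linarith
  calc ∏ l ∈ ZZ k, (1 + 1 / (l : ℝ)) ≤ ∏ l ∈ ZZ k, (1 + 1 / ((l : ℝ) - 1)) := by
        refine prod_le_prod (fun l _ => by positivity) (fun l hl => ?_)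
        rw [mem_ZZ] at hl
        have h2 : (13 : ℝ) ≤ l := by exact_mod_cast hl.2.1
        have := one_div_le_one_div_of_le (by linarith : (0 : ℝ) < (l : ℝ) - 1) (by linarith : (l : ℝ) - 1 ≤ l)
        linarith
    _ ≤ ∏ p ∈ (cb k).primeFactors.filter (fun p => p ≠ 2), (1 + 1 / ((p : ℝ) - 1)) := by
        rw [← prod_sdiff hsub]
        refine le_mul_of_one_le_left (prod_nonneg (fun l hl => by linarith [hone l (hsub hl)])) ?_
        have h1 : ∀ T : Finset ℕ, (∀ l ∈ T, (1 : ℝ) ≤ 1 + 1 / ((l : ℝ) - 1)) → (1 : ℝ) ≤ ∏ l ∈ T, (1 + 1 / ((l : ℝ) - 1)) := by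
          classical
          intro T
          induction T using Finset.induction_on with
          | empty => intro _; rw [prod_empty]
          | insert a T ha ih =>
              intro h
              rw [prod_insert ha]
              exact one_le_mul_of_one_le_of_one_le (h a (mem_insert_self a T)) (ih (fun l hl => h l (mem_insert_of_mem hl)))
        exact h1 _ (fun l hl => hone l (mem_sdiff.1 hl).1)

theorem singleU : ∃ δ₀ : ℝ, 0 < δ₀ ∧ δ₀ ≤ 1 / 8 ∧ ∀ δ : ℝ, 0 < δ → δ ≤ δ₀ → ∃ C : ℝ, 0 < C ∧ ∃ X0 : ℕ, ∀ x : ℕ, X0 ≤ x →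
    ∀ k : ℕ, 2 ≤ k → (pr k : ℝ) ≤ (x : ℝ) ^ δ →
    ∀ G : Finset ℕ, (∀ t ∈ G, 1 ≤ t ∧ t ≤ x ∧ t.Prime ∧ ∀ l : ℕ, l.Prime → (l : ℝ) ≤ (x : ℝ) ^ δ → ¬ l ∣ t + cb k) →
    (G.card : ℝ) ≤ C * ((x : ℝ) / Real.log x ^ 2) * Real.log k := by
  classical
  obtain ⟨δ₀, hδ₀, hδ₀1, hU⟩ := U2_bd
  refine ⟨δ₀, hδ₀, hδ₀1, fun δ hδ hδ1 => ?_⟩
  obtain ⟨C, hC, X0, hX⟩ := hU δ hδ hδ1
  have hδ8 : δ ≤ 1 / 8 := hδ1.trans hδ₀1
  have hg : ∀ᶠ x : ℝ in Filter.atTop, x ^ (1 / 8 : ℝ) + 1 ≤ x / Real.log x ^ 2 := by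
    have h1 : ∀ᶠ x : ℝ in Filter.atTop, ‖Real.log x ^ (2 : ℝ)‖ ≤ 1 / 2 * ‖x ^ (7 / 8 : ℝ)‖ :=
      (isLittleO_log_rpow_rpow_atTop 2 (by norm_num : (0 : ℝ) < 7 / 8)).bound (by norm_num)
    filter_upwards [h1, Filter.eventually_ge_atTop (Real.exp 1)] with x h2 h3
    have hx1 : 1 ≤ x := le_trans (Real.one_le_exp zero_le_one) h3
    have hx0 : 0 < x := by linarith
    have hl : 1 ≤ Real.log x := (Real.le_log_iff_exp_le hx0).2 h3
    rw [Real.norm_of_nonneg (by positivity), Real.norm_of_nonneg (by positivity), Real.rpow_two] at h2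
    rw [le_div_iff₀ (by positivity)]
    have e : x = x ^ (7 / 8 : ℝ) * x ^ (1 / 8 : ℝ) := by
      rw [← Real.rpow_add hx0]
      norm_num
    have h4 : 1 ≤ x ^ (1 / 8 : ℝ) := Real.one_le_rpow hx1 (by norm_num)
    have h5 : 0 < x ^ (7 / 8 : ℝ) := by positivity
    calc (x ^ (1 / 8 : ℝ) + 1) * Real.log x ^ 2 ≤ (2 * x ^ (1 / 8 : ℝ)) * (1 / 2 * x ^ (7 / 8 : ℝ)) :=
          mul_le_mul (by linarith) h2 (by positivity) (by positivity)
      _ = x ^ (7 / 8 : ℝ) * x ^ (1 / 8 : ℝ) := by ring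
      _ = x := e.symm
  obtain ⟨X1, hX1⟩ := Filter.eventually_atTop.1 (tendsto_natCast_atTop_atTop.eventually hg)
  refine ⟨C * (18 * Real.exp 6) + 2, by positivity, X0 + X1 + 3, fun x hx k hk hpk G hG => ?_⟩
  have hx1 : (1 : ℝ) < x := by exact_mod_cast (by omega : 1 < x)
  have hlx : 0 < Real.log x := Real.log_pos hx1
  have hk2 : (2 : ℝ) ≤ k := by exact_mod_cast hk
  have hlk : 1 / 2 ≤ Real.log k := by
    have h1 := Real.log_le_log (by norm_num) hk2
    have h2 := Real.log_two_gt_d9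
    linarith
  obtain ⟨G1, hG1⟩ : ∃ G1, G1 = G.filter (fun t : ℕ => (x : ℝ) ^ δ < t) := ⟨_, rfl⟩
  have hsmall : ((G.filter (fun t : ℕ => ¬ (x : ℝ) ^ δ < t)).card : ℝ) ≤ (x : ℝ) / Real.log x ^ 2 := by
    have h1 : G.filter (fun t : ℕ => ¬ (x : ℝ) ^ δ < t) ⊆ Icc 1 ⌊(x : ℝ) ^ δ⌋₊ := by
      intro t ht
      rw [mem_filter, not_lt] at ht
      rw [mem_Icc]
      exact ⟨(hG t ht.1).1, Nat.le_floor ht.2⟩
    have h2 := card_le_card h1
    rw [Nat.card_Icc, Nat.add_sub_cancel] at h2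
    have h3 : ((G.filter (fun t : ℕ => ¬ (x : ℝ) ^ δ < t)).card : ℝ) ≤ (x : ℝ) ^ δ :=
      (by exact_mod_cast h2 : ((G.filter (fun t : ℕ => ¬ (x : ℝ) ^ δ < t)).card : ℝ) ≤ (⌊(x : ℝ) ^ δ⌋₊ : ℝ)).trans
        (Nat.floor_le (by positivity))
    have h4 : (x : ℝ) ^ δ ≤ (x : ℝ) ^ (1 / 8 : ℝ) := Real.rpow_le_rpow_of_exponent_le hx1.le hδ8
    have h5 := hX1 x (by omega)
    linarith
  have hmain := hX x (by omega) (fun i l => (![0, -((cb k : ℕ) : ZMod l)] : Fin 2 → ZMod l) i)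
    (ZZ k) ∅ ∅ (fun l hl => by
      rw [mem_ZZ] at hl
      refine ⟨hl.1, hl.2.1, le_trans ?_ hpk⟩
      exact_mod_cast (cb_smooth k l hl.1 hl.2.2).le) (fun l hl => absurd hl (notMem_empty l)) (by
      intro l hl hl12 hlx' _
      have hfact : Fact l.Prime := ⟨hl⟩
      obtain ⟨u, hu⟩ : ∃ u : Fin 2 → ZMod l, u = ![0, -((cb k : ℕ) : ZMod l)] := ⟨_, rfl⟩
      have u0 : u 0 = 0 := by rw [hu]; rfl
      have u1 : u 1 = -((cb k : ℕ) : ZMod l) := by rw [hu]; rfl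
      have e : (fun i => (![0, -((cb k : ℕ) : ZMod l)] : Fin 2 → ZMod l) i) = u := by
        rw [hu]
      rw [e]
      have hcard : 1 ≤ (univ.image u).card := by
        rw [Nat.one_le_iff_ne_zero, Ne, card_eq_zero, image_eq_empty]
        exact univ_nonempty.ne_empty
      by_cases hk1 : l ∈ ZZ k
      · rw [if_pos hk1]
        omega
      · have hne : u 0 ≠ u 1 := by
          rw [u0, u1]
          intro h0
          have h0' := h0.symm
          rw [neg_eq_zero, ZMod.natCast_eq_zero_iff] at h0'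
          exact hk1 (mem_ZZ.2 ⟨hl, hl12, h0'⟩)
        have h2 : 2 ≤ (univ.image u).card := by
          refine (card_pair hne).symm.le.trans (card_le_card ?_)
          intro v hv
          rw [mem_insert, mem_singleton] at hv
          rcases hv with rfl | rfl
          · exact mem_image_of_mem _ (mem_univ _)
          · exact mem_image_of_mem _ (mem_univ _)
        omega) G1 (by
      intro t ht
      rw [hG1, mem_filter] at ht
      obtain ⟨t1, t2, t3, t5⟩ := hG t ht.1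
      refine ⟨t1, t2, fun l hl hl12 hlx' i => ?_⟩
      have t6 := t5 l hl hlx'
      have hlt' : (l : ℝ) < t := lt_of_le_of_lt hlx' ht.2
      have hlt2 : l < t := by exact_mod_cast hlt'
      fin_cases i
      · show (t : ZMod l) ≠ 0
        intro h0
        rw [ZMod.natCast_eq_zero_iff] at h0
        rcases (Nat.dvd_prime t3).1 h0 with h | h <;> omega
      · show (t : ZMod l) ≠ -((cb k : ℕ) : ZMod l)
        intro h0
        apply t6
        rw [← ZMod.natCast_eq_zero_iff, Nat.cast_add, h0, neg_add_cancel])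
  rw [prod_empty, filter_empty, prod_empty, mul_one, mul_one] at hmain
  have hP : 0 ≤ (x : ℝ) / Real.log x ^ 2 := by positivity
  have h1 : (G1.card : ℝ) ≤ C * ((x : ℝ) / Real.log x ^ 2) * (18 * Real.exp 6 * Real.log k) :=
    hmain.trans (mul_le_mul_of_nonneg_left (ww_up hk) (by positivity))
  have h2 : (G.card : ℝ) = (G1.card : ℝ) + ((G.filter (fun t : ℕ => ¬ (x : ℝ) ^ δ < t)).card : ℝ) := by
    rw [hG1, ← Nat.cast_add, card_filter_add_card_filter_not]
  rw [h2]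
  have h3 : (x : ℝ) / Real.log x ^ 2 ≤ 2 * ((x : ℝ) / Real.log x ^ 2) * Real.log k := by nlinarith
  calc (G1.card : ℝ) + ((G.filter (fun t : ℕ => ¬ (x : ℝ) ^ δ < t)).card : ℝ)
      ≤ C * ((x : ℝ) / Real.log x ^ 2) * (18 * Real.exp 6 * Real.log k) + 2 * ((x : ℝ) / Real.log x ^ 2) * Real.log k :=
        add_le_add h1 (hsmall.trans h3)
    _ = _ := by ring

open Classical in
theorem apTwo : ∃ (r : ℕ) (δ c C : ℝ), 0 < δ ∧ 0 < c ∧ 0 < C ∧ ∃ N0 : ℕ, ∀ N : ℕ, N0 ≤ N → ∀ K : ℕ, 2 ≤ K →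
    (K : ℝ) * Real.log K ≤ Real.log N →
    c * ((N : ℝ) * (K * Real.log K) / Real.log N) ≤ (((Icc 1 N).filter (fun n : ℕ => ∃ k : ℕ, 1 < k ∧ k ≤ K ∧
      (pr n + cb k).primeFactorsList.length ≤ r ∧
      ∀ l : ℕ, l.Prime → l ∣ pr n + cb k → (N : ℝ) ^ δ < l)).card : ℝ) ∧
    (((Icc 1 N).filter (fun n : ℕ => ∃ k : ℕ, 1 < k ∧ k ≤ K ∧
      (pr n + cb k).primeFactorsList.length ≤ r ∧
      ∀ l : ℕ, l.Prime → l ∣ pr n + cb k → (N : ℝ) ^ δ < l)).card : ℝ) ≤ C * ((N : ℝ) * (K * Real.log K) / Real.log N) := by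
  obtain ⟨r, δ1, c, hδ1, hc, N1, hlow⟩ := apN
  obtain ⟨δ₀, hδ₀, hδ₀1, hup⟩ := singleU
  obtain ⟨δ, hδ⟩ : ∃ δ, δ = min δ1 δ₀ := ⟨_, rfl⟩
  have hδ0 : 0 < δ := by rw [hδ]; exact lt_min hδ1 hδ₀
  have hδle1 : δ ≤ δ1 := by rw [hδ]; exact min_le_left _ _
  have hδle0 : δ / 9 ≤ δ₀ := by
    have : δ ≤ δ₀ := by rw [hδ]; exact min_le_right _ _
    linarith
  obtain ⟨C, hC, X2, hsing⟩ := hup (δ / 9) (by positivity) hδle0
  have hg1 : ∀ᶠ x : ℝ in Filter.atTop, 45 * Real.log x ≤ x ^ (δ / 9) := by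
    have := (isLittleO_log_rpow_atTop (by positivity : 0 < δ / 9)).bound (show (0 : ℝ) < 1 / 45 by norm_num)
    filter_upwards [this, Filter.eventually_ge_atTop 1] with x h1 h2
    rw [Real.norm_of_nonneg (Real.log_nonneg h2), Real.norm_of_nonneg (by positivity)] at h1
    linarith
  obtain ⟨X3, hX3⟩ := Filter.eventually_atTop.1 (tendsto_natCast_atTop_atTop.eventually hg1)
  refine ⟨r, δ, c, 5 * C, hδ0, hc, by positivity, N1 + X2 + X3 + 3, fun N hN K hK hKN => ⟨?_, ?_⟩⟩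
  · have hN1 : (1 : ℝ) ≤ N := by exact_mod_cast (by omega : 1 ≤ N)
    refine (hlow N (by omega) K hK hKN).trans ?_
    have hsub : (Icc 1 N).filter (fun n : ℕ => ∃ k : ℕ, 1 < k ∧ k ≤ K ∧
        (pr n + cb k).primeFactorsList.length ≤ r ∧
        ∀ l : ℕ, l.Prime → l ∣ pr n + cb k → (N : ℝ) ^ δ1 < l) ⊆
        (Icc 1 N).filter (fun n : ℕ => ∃ k : ℕ, 1 < k ∧ k ≤ K ∧
        (pr n + cb k).primeFactorsList.length ≤ r ∧
        ∀ l : ℕ, l.Prime → l ∣ pr n + cb k → (N : ℝ) ^ δ < l) := by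
      intro n hn
      rw [mem_filter] at hn ⊢
      obtain ⟨hn1, k, k1, k2, k3, k4⟩ := hn
      exact ⟨hn1, k, k1, k2, k3, fun l hl hd =>
        lt_of_le_of_lt (Real.rpow_le_rpow_of_exponent_le hN1 hδle1) (k4 l hl hd)⟩
    exact_mod_cast card_le_card hsub
  · obtain ⟨x, hx⟩ : ∃ x : ℕ, x = pr N := ⟨_, rfl⟩
    have hNxn : N ≤ x := by rw [hx]; exact le_pr
    have hNx : (N : ℝ) ≤ x := by exact_mod_cast hNxn
    have hN1 : (1 : ℝ) < N := by exact_mod_cast (by omega : 1 < N)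
    have hlN : 0 < Real.log N := Real.log_pos hN1
    have hx0 : (0 : ℝ) < x := by linarith
    have hlx : Real.log N ≤ Real.log x := Real.log_le_log (by linarith) hNx
    have hlog9 : Real.log x ≤ 9 * Real.log N := by
      rw [hx]
      exact log_pr_le (by omega)
    have hK2 : (2 : ℝ) ≤ K := by exact_mod_cast hK
    have hlK : 0 < Real.log K := Real.log_pos (by linarith)
    have hxN : (x : ℝ) ^ (δ / 9) ≤ (N : ℝ) ^ δ := by
      have h1 : (x : ℝ) ≤ (N : ℝ) ^ (9 : ℝ) := by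
        rw [← Real.log_le_log_iff hx0 (by positivity), Real.log_rpow (by linarith)]
        exact hlog9
      calc (x : ℝ) ^ (δ / 9) ≤ ((N : ℝ) ^ (9 : ℝ)) ^ (δ / 9) := Real.rpow_le_rpow hx0.le h1 (by positivity)
        _ = (N : ℝ) ^ δ := by
            rw [← Real.rpow_mul (by linarith)]
            congr 1
            ring
    have hprK : (pr K : ℝ) ≤ (x : ℝ) ^ (δ / 9) := by
      have hc' := cheb (three_le_pr hK)
      rw [pi_pr (by omega)] at hc'
      have hl := log_pr_le hK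
      have h1 : (K : ℝ) * Real.log (pr K : ℝ) ≤ K * (9 * Real.log K) := mul_le_mul_of_nonneg_left hl (by linarith)
      have h2 := hX3 x (by omega)
      linarith
    obtain ⟨G, hG⟩ : ∃ G : ℕ → Finset ℕ, G = fun k => (Icc 1 x).filter (fun t => t.Prime ∧
      ∀ l : ℕ, l.Prime → l ∣ t + cb k → (N : ℝ) ^ δ < l) := ⟨_, rfl⟩
    have hGc : ∀ k ∈ Icc 2 K, ((G k).card : ℝ) ≤ C * ((x : ℝ) / Real.log x ^ 2) * Real.log K := by
      intro k hk
      rw [mem_Icc] at hk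
      have hk2 : (2 : ℝ) ≤ k := by exact_mod_cast hk.1
      refine (hsing x (by omega) k hk.1 (le_trans (by exact_mod_cast pr_mono hk.2) hprK) (G k) (fun t ht => ?_)).trans ?_
      · rw [hG] at ht
        simp only at ht
        rw [mem_filter, mem_Icc] at ht
        refine ⟨ht.1.1, ht.1.2, ht.2.1, fun l hl hlx' hd => ?_⟩
        have := ht.2.2 l hl hd
        linarith
      · refine mul_le_mul_of_nonneg_left (Real.log_le_log (by linarith) (by exact_mod_cast hk.2)) ?_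
        have : 0 < Real.log x := by linarith
        positivity
    have hsub : (Icc 1 N).filter (fun n : ℕ => ∃ k : ℕ, 1 < k ∧ k ≤ K ∧
        (pr n + cb k).primeFactorsList.length ≤ r ∧
        ∀ l : ℕ, l.Prime → l ∣ pr n + cb k → (N : ℝ) ^ δ < l) ⊆
        (Icc 2 K).biUnion (fun k => (Icc 1 N).filter (fun n => pr n ∈ G k)) := by
      intro n hn
      rw [mem_filter] at hn
      obtain ⟨hn1, k, k1, k2, k3, k4⟩ := hn
      have hn1' := hn1
      rw [mem_Icc] at hn1'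
      rw [mem_biUnion]
      refine ⟨k, mem_Icc.2 ⟨k1, k2⟩, ?_⟩
      rw [mem_filter]
      refine ⟨hn1, ?_⟩
      rw [hG]
      simp only
      rw [mem_filter, mem_Icc]
      refine ⟨⟨(pr_prime n).one_le, ?_⟩, pr_prime n, k4⟩
      rw [hx]
      exact pr_mono hn1'.2
    have hA : ∀ k ∈ Icc 2 K, (((Icc 1 N).filter (fun n => pr n ∈ G k)).card : ℝ) ≤ C * ((x : ℝ) / Real.log x ^ 2) * Real.log K := by
      intro k hk
      refine le_trans ?_ (hGc k hk)
      have : ((Icc 1 N).filter (fun n => pr n ∈ G k)).card ≤ (G k).card := by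
        refine card_le_card_of_injOn pr ?_ ?_
        · intro n hn
          rw [mem_coe, mem_filter] at hn
          exact hn.2
        · intro a ha b hb hab
          rw [mem_coe, mem_filter, mem_Icc] at ha hb
          exact pr_inj ha.1.1 hb.1.1 hab
      exact_mod_cast this
    have h1 := (card_le_card hsub).trans card_biUnion_le
    have h2 : ((((Icc 1 N).filter (fun n : ℕ => ∃ k : ℕ, 1 < k ∧ k ≤ K ∧
        (pr n + cb k).primeFactorsList.length ≤ r ∧
        ∀ l : ℕ, l.Prime → l ∣ pr n + cb k → (N : ℝ) ^ δ < l)).card : ℕ) : ℝ) ≤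
        ((∑ k ∈ Icc 2 K, ((Icc 1 N).filter (fun n => pr n ∈ G k)).card : ℕ) : ℝ) := by exact_mod_cast h1
    refine h2.trans ?_
    rw [Nat.cast_sum]
    refine (sum_le_sum hA).trans ?_
    rw [sum_const, nsmul_eq_mul, Nat.card_Icc]
    have h3 : ((K + 1 - 2 : ℕ) : ℝ) ≤ K := by exact_mod_cast (by omega : K + 1 - 2 ≤ K)
    have h4 := X_le (by omega : 2 ≤ N)
    rw [← hx] at h4
    have hlx0 : 0 < Real.log x := by linarith
    calc ((K + 1 - 2 : ℕ) : ℝ) * (C * ((x : ℝ) / Real.log x ^ 2) * Real.log K)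
        ≤ K * (C * (5 * (N / Real.log N)) * Real.log K) := by
          refine mul_le_mul h3 ?_ (by positivity) (by linarith)
          exact mul_le_mul_of_nonneg_right (mul_le_mul_of_nonneg_left h4 hC.le) hlK.le
      _ = 5 * C * ((N : ℝ) * (K * Real.log K) / Real.log N) := by ring

end H78AP
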