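import Pool.Agent.H78.AP.Ca
import Pool.Agent.H78.AP.Bd
import Pool.Agent.H78.AP.Sel

/-!
# Local factors of pairs
-/

set_option autoImplicit false

open Finset

namespace H78AP

open Pool.Agent.H78.CB H69PG Pool.Agent.H63.SG

/-- the class of `-cb k` -/
noncomputable def Dk (k l : ℕ) : Finset ℕ := {(l - cb k % l) % l}

lemma Dk_iff {k l t : ℕ} (hl : 0 < l) : t % l ∈ Dk k l ↔ l ∣ t + cb k := by
  unfold Dk
  rw [mem_singleton, Nat.dvd_iff_mod_eq_zero, Nat.add_mod]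
  have e2 : t % l < l := Nat.mod_lt _ hl
  have e3 : cb k % l < l := Nat.mod_lt _ hl
  obtain ⟨u, hu⟩ : ∃ u, u = t % l := ⟨_, rfl⟩
  obtain ⟨v, hv⟩ : ∃ v, v = cb k % l := ⟨_, rfl⟩
  rw [← hu, ← hv]
  rw [← hu] at e2
  rw [← hv] at e3
  rcases Nat.eq_zero_or_pos v with h | h
  · rw [h, Nat.sub_zero, Nat.mod_self, Nat.add_zero, Nat.mod_eq_of_lt e2]
  · rw [Nat.mod_eq_of_lt (by omega : l - v < l)]
    constructor
    · intro h1
      rw [h1, Nat.sub_add_cancel e3.le, Nat.mod_self]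
    · intro h1
      obtain ⟨q, hq⟩ := Nat.dvd_of_mod_eq_zero h1
      have hq2 : q < 2 := by
        by_contra hcon
        rw [not_lt] at hcon
        have := Nat.mul_le_mul_left l hcon
        omega
      interval_cases q
      · omega
      · omega

lemma Ds_Dk0 {k l : ℕ} (h : l ∣ cb k) : Ds (Dk k) l = ∅ := by
  unfold Ds Dk
  rw [filter_singleton, Nat.mod_eq_zero_of_dvd h, Nat.sub_zero, Nat.mod_self]
  simp

lemma Dk_pos {k l : ℕ} (hl : 0 < l) (h : ¬ l ∣ cb k) : 0 < (l - cb k % l) % l ∧ (l - cb k % l) % l < l := by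
  have h1 : cb k % l ≠ 0 := fun h0 => h (Nat.dvd_of_mod_eq_zero h0)
  have h2 : cb k % l < l := Nat.mod_lt _ hl
  rw [Nat.mod_eq_of_lt (by omega : l - cb k % l < l)]
  omega

lemma Ds_Dk1 {k l : ℕ} (hl : 0 < l) (h : ¬ l ∣ cb k) : (Ds (Dk k) l).card = 1 := by
  have h1 := Dk_pos hl h
  unfold Ds Dk
  rw [filter_singleton, if_pos h1, card_singleton]

/-- the union of the two classes -/
noncomputable def D2 (k j l : ℕ) : Finset ℕ := Dk k l ∪ Dk j l

lemma Ds_D2 {k j l : ℕ} (hl : 0 < l) (hne : (l - cb k % l) % l ≠ (l - cb j % l) % l) (hk : ¬ l ∣ cb k) (hj : ¬ l ∣ cb j) :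
    (Ds (D2 k j) l).card = 2 := by
  have h1 := Dk_pos hl hk
  have h2 := Dk_pos hl hj
  have e : Ds (D2 k j) l = {(l - cb k % l) % l, (l - cb j % l) % l} := by
    unfold Ds D2 Dk
    ext r
    rw [mem_filter, mem_union, mem_singleton, mem_singleton, mem_insert, mem_singleton]
    constructor
    · rintro ⟨h, -⟩
      exact h
    · rintro (h | h)
      · rw [h]
        exact ⟨Or.inl rfl, h1⟩
      · rw [h]
        exact ⟨Or.inr rfl, h2⟩
  rw [e, card_pair hne]

lemma Ds_D2_sub_left (k j l : ℕ) : Ds (Dk k) l ⊆ Ds (D2 k j) l := by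
  unfold Ds D2
  exact filter_subset_filter _ subset_union_left

lemma Ds_D2_sub_right (k j l : ℕ) : Ds (Dk j) l ⊆ Ds (D2 k j) l := by
  unfold Ds D2
  exact filter_subset_filter _ subset_union_right

/-- one prime -/
lemma loc {k j l : ℕ} (hk : 2 ≤ k) (hkj : k < j) (hlp : l.Prime) (hl : 12 < l) :
    1 - ((Ds (D2 k j) l).card : ℝ) / ((l : ℝ) - 1) ≤
      (1 - ((Ds (Dk k) l).card : ℝ) / ((l : ℝ) - 1)) * (1 - ((Ds (Dk j) l).card : ℝ) / ((l : ℝ) - 1)) *
        (if l ∈ BD k j then 1 + 2 / (l : ℝ) else 1) := by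
  classical
  have hl0 : 0 < l := hlp.pos
  have hlr : (13 : ℝ) ≤ l := by exact_mod_cast hl
  have h1l : (0 : ℝ) < (l : ℝ) - 1 := by linarith
  have hif : (1 : ℝ) ≤ (if l ∈ BD k j then 1 + 2 / (l : ℝ) else 1) := by
    split_ifs
    · have : (0 : ℝ) ≤ 2 / (l : ℝ) := by positivity
      linarith
    · exact le_rfl
  by_cases ha : l ∣ cb k
  · have h1 : ((Ds (Dk j) l).card : ℝ) ≤ ((Ds (D2 k j) l).card : ℝ) := by
      exact_mod_cast card_le_card (Ds_D2_sub_right k j l)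
    rw [Ds_Dk0 ha, card_empty, Nat.cast_zero, zero_div, sub_zero, one_mul]
    have h2 : 1 - ((Ds (D2 k j) l).card : ℝ) / ((l : ℝ) - 1) ≤ 1 - ((Ds (Dk j) l).card : ℝ) / ((l : ℝ) - 1) := by
      have := div_le_div_of_nonneg_right h1 h1l.le
      linarith
    refine h2.trans (le_mul_of_one_le_right ?_ hif)
    have h3 : ((Ds (Dk j) l).card : ℝ) ≤ 1 := by
      have : (Ds (Dk j) l).card ≤ 1 := by
        refine (card_filter_le _ _).trans ?_
        unfold Dk
        rw [card_singleton]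
      exact_mod_cast this
    rw [sub_nonneg, div_le_one h1l]
    linarith
  by_cases hb : l ∣ cb j
  · have h1 : ((Ds (Dk k) l).card : ℝ) ≤ ((Ds (D2 k j) l).card : ℝ) := by
      exact_mod_cast card_le_card (Ds_D2_sub_left k j l)
    rw [Ds_Dk0 hb, card_empty, Nat.cast_zero, zero_div, sub_zero, mul_one]
    have h2 : 1 - ((Ds (D2 k j) l).card : ℝ) / ((l : ℝ) - 1) ≤ 1 - ((Ds (Dk k) l).card : ℝ) / ((l : ℝ) - 1) := by
      have := div_le_div_of_nonneg_right h1 h1l.le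
      linarith
    refine h2.trans (le_mul_of_one_le_right ?_ hif)
    rw [Ds_Dk1 hl0 ha, Nat.cast_one, sub_nonneg, div_le_one h1l]
    linarith
  rw [Ds_Dk1 hl0 ha, Ds_Dk1 hl0 hb, Nat.cast_one]
  obtain ⟨u, hu⟩ : ∃ u : ℝ, u = 1 / ((l : ℝ) - 1) := ⟨_, rfl⟩
  have hu0 : 0 < u := by rw [hu]; positivity
  have hu1 : u ≤ 1 / 12 := by
    rw [hu]
    exact one_div_le_one_div_of_le (by norm_num) (by linarith)
  by_cases hB : l ∈ BD k j
  · rw [if_pos hB]
    have h1 : (1 : ℝ) ≤ ((Ds (D2 k j) l).card : ℝ) := by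
      have h2 := card_le_card (Ds_D2_sub_left k j l)
      rw [Ds_Dk1 hl0 ha] at h2
      exact_mod_cast h2
    have h2 : 1 - ((Ds (D2 k j) l).card : ℝ) / ((l : ℝ) - 1) ≤ 1 - u := by
      have := div_le_div_of_nonneg_right h1 h1l.le
      rw [hu]
      linarith
    refine h2.trans ?_
    rw [← hu]
    have e : 2 / (l : ℝ) = 2 * u / (1 + u) := by
      rw [hu]
      field_simp
      ring
    rw [e]
    have h3 : 1 ≤ (1 - u) * (1 + 2 * u / (1 + u)) := by
      rw [mul_add, mul_one, mul_div_assoc']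
      rw [← sub_nonneg]
      have e2 : 1 - u + (1 - u) * (2 * u) / (1 + u) - 1 = u * (1 - 3 * u) / (1 + u) := by
        field_simp
        ring
      rw [e2]
      exact div_nonneg (mul_nonneg hu0.le (by linarith)) (by linarith)
    calc 1 - u = (1 - u) * 1 := by ring
      _ ≤ (1 - u) * ((1 - u) * (1 + 2 * u / (1 + u))) := mul_le_mul_of_nonneg_left h3 (by linarith)
      _ = _ := by ring
  · rw [if_neg hB, mul_one]
    have hne : (l - cb k % l) % l ≠ (l - cb j % l) % l := by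
      intro h0
      apply hB
      rw [mem_BD hk hkj]
      refine ⟨hlp, hl, ?_, ha, hb⟩
      have a1 : cb k % l ≠ 0 := fun h => ha (Nat.dvd_of_mod_eq_zero h)
      have a2 : cb j % l ≠ 0 := fun h => hb (Nat.dvd_of_mod_eq_zero h)
      have a3 : cb k % l < l := Nat.mod_lt _ hl0
      have a4 : cb j % l < l := Nat.mod_lt _ hl0
      rw [Nat.mod_eq_of_lt (by omega : l - cb k % l < l), Nat.mod_eq_of_lt (by omega : l - cb j % l < l)] at h0
      have h5 : cb k ≡ cb j [MOD l] := by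
        show cb k % l = cb j % l
        omega
      exact (Nat.modEq_iff_dvd' (cb_lt hk hkj).le).1 h5
    rw [Ds_D2 hl0 hne ha hb, ← hu]
    have e : ((2 : ℕ) : ℝ) / ((l : ℝ) - 1) = 2 * u := by
      rw [hu]
      push_cast
      ring
    rw [e]
    nlinarith

/-- the products -/
theorem prodV {k j z : ℕ} (hk : 2 ≤ k) (hkj : k < j) :
    ∏ l ∈ PK 12 z, (1 - ((Ds (D2 k j) l).card : ℝ) / ((l : ℝ) - 1)) ≤
      (∏ l ∈ PK 12 z, (1 - ((Ds (Dk k) l).card : ℝ) / ((l : ℝ) - 1))) * (∏ l ∈ PK 12 z, (1 - ((Ds (Dk j) l).card : ℝ) / ((l : ℝ) - 1))) *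
        Real.exp (2 * ∑ l ∈ BD k j, 1 / (l : ℝ)) := by
  classical
  have hc1 : ∀ i l : ℕ, ((Ds (Dk i) l).card : ℝ) ≤ 1 := by
    intro i l
    have : (Ds (Dk i) l).card ≤ 1 := by
      refine (card_filter_le _ _).trans ?_
      unfold Dk
      rw [card_singleton]
    exact_mod_cast this
  have hc2 : ∀ l : ℕ, ((Ds (D2 k j) l).card : ℝ) ≤ 2 := by
    intro l
    have : (Ds (D2 k j) l).card ≤ 2 := by
      refine (card_filter_le _ _).trans ((card_union_le _ _).trans ?_)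
      unfold Dk
      rw [card_singleton, card_singleton]
    exact_mod_cast this
  have hp : ∀ l ∈ PK 12 z, l.Prime ∧ 12 < l ∧ (12 : ℝ) ≤ (l : ℝ) - 1 := by
    intro l hl
    obtain ⟨a1, a2, a3⟩ := bh_mem_PK.1 hl
    have : (13 : ℝ) ≤ l := by exact_mod_cast a1
    exact ⟨a3, a1, by linarith⟩
  have hnn : ∀ i : ℕ, ∀ l ∈ PK 12 z, 0 ≤ 1 - ((Ds (Dk i) l).card : ℝ) / ((l : ℝ) - 1) := by
    intro i l hl
    have h := (hp l hl).2.2
    rw [sub_nonneg, div_le_one (by linarith)]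
    linarith [hc1 i l]
  calc ∏ l ∈ PK 12 z, (1 - ((Ds (D2 k j) l).card : ℝ) / ((l : ℝ) - 1))
      ≤ ∏ l ∈ PK 12 z, ((1 - ((Ds (Dk k) l).card : ℝ) / ((l : ℝ) - 1)) * (1 - ((Ds (Dk j) l).card : ℝ) / ((l : ℝ) - 1)) *
        (if l ∈ BD k j then 1 + 2 / (l : ℝ) else 1)) := by
        refine prod_le_prod (fun l hl => ?_) (fun l hl => loc hk hkj (hp l hl).1 (hp l hl).2.1)
        have h := (hp l hl).2.2
        rw [sub_nonneg, div_le_one (by linarith)]
        linarith [hc2 l]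
    _ = (∏ l ∈ PK 12 z, (1 - ((Ds (Dk k) l).card : ℝ) / ((l : ℝ) - 1))) * (∏ l ∈ PK 12 z, (1 - ((Ds (Dk j) l).card : ℝ) / ((l : ℝ) - 1))) *
        ∏ l ∈ PK 12 z, (if l ∈ BD k j then 1 + 2 / (l : ℝ) else 1) := by
        rw [prod_mul_distrib, prod_mul_distrib]
    _ ≤ _ := by
        refine mul_le_mul_of_nonneg_left ?_ (mul_nonneg (prod_nonneg (hnn k)) (prod_nonneg (hnn j)))
        refine (UpUX_sub (c := 2) (by norm_num) (PK 12 z) (BD k j)).trans ?_
        calc ∏ l ∈ BD k j, (1 + 2 / (l : ℝ)) ≤ ∏ l ∈ BD k j, Real.exp (2 * (1 / (l : ℝ))) :=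
              prod_le_prod (fun l _ => by positivity) (fun l _ => by
                have := Real.add_one_le_exp (2 * (1 / (l : ℝ)))
                have e : 2 * (1 / (l : ℝ)) = 2 / l := by ring
                rw [e] at this ⊢
                linarith)
          _ = Real.exp (2 * ∑ l ∈ BD k j, 1 / (l : ℝ)) := by
              rw [mul_sum, Real.exp_sum]

end H78AP
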