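import Pool.Agent.H78.AP.Gd
import Pool.Agent.H78.AP.Va
import Pool.Agent.H63.SG.CoreU

/-!
# The variance
-/

set_option autoImplicit false

open Finset

namespace H78AP

open Pool.Agent.H78.CB H69PG Pool.Agent.H63.SG

lemma csw (S : Finset ℕ) (F : ℕ → Finset ℕ) (u : ℕ → ℝ) : (∑ k ∈ S, u k * ((F k).card : ℝ)) ^ 2 ≤
    ((S.biUnion F).card : ℝ) * ∑ k ∈ S, ∑ j ∈ S, u k * u j * ((F k ∩ F j).card : ℝ) := by
  classical
  obtain ⟨U, hU⟩ : ∃ U, U = S.biUnion F := ⟨_, rfl⟩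
  have hsub : ∀ k ∈ S, F k ⊆ U := by
    intro k hk
    rw [hU]
    exact subset_biUnion_of_mem F hk
  have h1 : ∀ G : Finset ℕ, G ⊆ U → (G.card : ℝ) = ∑ t ∈ U, (if t ∈ G then (1 : ℝ) else 0) := by
    intro G hG
    rw [sum_ite_mem, inter_eq_right.2 hG, sum_const, nsmul_eq_mul, mul_one]
  have h2 : ∑ k ∈ S, u k * ((F k).card : ℝ) = ∑ t ∈ U, ∑ k ∈ S, u k * (if t ∈ F k then (1 : ℝ) else 0) := by
    rw [sum_comm]
    refine sum_congr rfl (fun k hk => ?_)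
    rw [h1 _ (hsub k hk), mul_sum]
  have h3 : ∑ k ∈ S, ∑ j ∈ S, u k * u j * ((F k ∩ F j).card : ℝ) = ∑ t ∈ U, (∑ k ∈ S, u k * (if t ∈ F k then (1 : ℝ) else 0)) ^ 2 := by
    have e : ∀ k ∈ S, ∀ j ∈ S, u k * u j * ((F k ∩ F j).card : ℝ) =
        ∑ t ∈ U, (u k * (if t ∈ F k then (1 : ℝ) else 0)) * (u j * (if t ∈ F j then (1 : ℝ) else 0)) := by
      intro k hk j _
      rw [h1 (F k ∩ F j) (inter_subset_left.trans (hsub k hk)), mul_sum]
      refine sum_congr rfl (fun t _ => ?_)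
      by_cases a : t ∈ F k <;> by_cases b : t ∈ F j <;> simp [a, b]
    calc ∑ k ∈ S, ∑ j ∈ S, u k * u j * ((F k ∩ F j).card : ℝ)
        = ∑ k ∈ S, ∑ j ∈ S, ∑ t ∈ U, (u k * (if t ∈ F k then (1 : ℝ) else 0)) * (u j * (if t ∈ F j then (1 : ℝ) else 0)) :=
          sum_congr rfl (fun k hk => sum_congr rfl (fun j hj => e k hk j hj))
      _ = ∑ k ∈ S, ∑ t ∈ U, ∑ j ∈ S, (u k * (if t ∈ F k then (1 : ℝ) else 0)) * (u j * (if t ∈ F j then (1 : ℝ) else 0)) :=
          sum_congr rfl (fun k _ => sum_comm)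
      _ = ∑ t ∈ U, ∑ k ∈ S, ∑ j ∈ S, (u k * (if t ∈ F k then (1 : ℝ) else 0)) * (u j * (if t ∈ F j then (1 : ℝ) else 0)) := sum_comm
      _ = _ := by
          refine sum_congr rfl (fun t _ => ?_)
          rw [sq, sum_mul_sum]
  rw [h2, h3, ← hU]
  exact sq_sum_le_card_mul_sum_sq

/-- the density -/
noncomputable def VK (z k : ℕ) : ℝ := ∏ l ∈ PK 12 z, (1 - ((Ds (Dk k) l).card : ℝ) / ((l : ℝ) - 1))

theorem VK_low (A : ℝ) : ∃ c : ℝ, 0 < c ∧ ∀ z K k : ℕ, 12 ≤ z → 2 ≤ K → 13 ≤ k → K < k ^ 2 → pr k ≤ z → ∑ l ∈ EE k, 1 / (l : ℝ) ≤ A →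
    c * Real.log K / Real.log z ≤ VK z k := by
  obtain ⟨c, hc1, -, -, -, hcV, -⟩ := Pool.Agent.H67.GT.MERT.mert
  obtain ⟨cw, hcw, hww⟩ := ww_low
  refine ⟨cw * Real.exp (-A) / (12 * c), by positivity, fun z K k hz hK hk hKk hpk hA => ?_⟩
  have h1 := CoreU_prod Fac1 le_rfl hz (fun l => (Ds (Dk k) l).card) (fun l => by
    refine (card_filter_le _ _).trans ?_
    unfold Dk
    rw [card_singleton]) (ZZ k) (fun l hl => by
      rw [mem_ZZ] at hl
      have h2 := cb_smooth k l hl.1 hl.2.2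
      refine ⟨bh_mem_PK.2 ⟨hl.2.1, by omega, hl.1⟩, ?_⟩
      rw [Ds_Dk0 hl.2.2, card_empty])
  have h2 := Core_vv hc1 hcV hz
  have h3 := hww k hk A hA
  have hlz : 0 < Real.log z := Real.log_pos (by exact_mod_cast (by omega : 1 < z))
  have hlog : Real.log K ≤ 2 * Real.log k := by
    have h4 : (K : ℝ) ≤ (k : ℝ) ^ 2 := by exact_mod_cast hKk.le
    have h5 := Real.log_le_log (by exact_mod_cast (by omega : 0 < K)) h4
    rw [Real.log_pow] at h5
    push_cast at h5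
    exact h5
  have hc0 : 0 < c := by linarith
  unfold VK
  refine le_trans ?_ h1
  rw [pow_one]
  have h4 : cw * Real.exp (-A) * (Real.log K / 2) ≤ ∏ l ∈ ZZ k, (1 + 1 / (l : ℝ)) := by
    refine le_trans ?_ h3
    exact mul_le_mul_of_nonneg_left (by linarith) (by positivity)
  have hlK : 0 ≤ Real.log K := Real.log_nonneg (by exact_mod_cast (by omega : 1 ≤ K))
  calc cw * Real.exp (-A) / (12 * c) * Real.log K / Real.log z
      = (1 / 6 : ℝ) * (1 / (c * Real.log z)) * (cw * Real.exp (-A) * (Real.log K / 2)) := by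
        field_simp
        ring
    _ ≤ (1 / 6 : ℝ) * VV 12 z 1 * ∏ l ∈ ZZ k, (1 + 1 / (l : ℝ)) := by
        refine mul_le_mul (mul_le_mul_of_nonneg_left h2 (by norm_num)) h4 (by positivity) ?_
        have := vv_pos (K := 12) (z := z) (j := 1) (by norm_num)
        positivity

lemma VK_pos {z k : ℕ} : 0 < VK z k := by
  unfold VK
  refine prod_pos (fun l hl => ?_)
  have h : (13 : ℝ) ≤ l := by exact_mod_cast (bh_mem_PK.1 hl).1
  have hc : ((Ds (Dk k) l).card : ℝ) ≤ 1 := by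
    have : (Ds (Dk k) l).card ≤ 1 := by
      refine (card_filter_le _ _).trans ?_
      unfold Dk
      rw [card_singleton]
    exact_mod_cast this
  rw [sub_pos, div_lt_one (by linarith)]
  linarith

/-- the abstract variance computation -/
theorem abs_var {S : Finset ℕ} {F : ℕ → Finset ℕ} {V : ℕ → ℝ} {b : ℕ → ℕ → ℝ} {e Y ρ Cu B W : ℝ}
    (he0 : 0 < e) (he1 : e ≤ 1 / 16) (hY : 0 < Y) (hρ : 0 ≤ ρ) (hV : ∀ k ∈ S, 0 < V k) (hCu : 1 ≤ Cu) (hVC : ∀ k ∈ S, 1 / V k ≤ Cu)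
    (hρY : Cu ^ 2 * ρ ≤ e * Y) (hS : 0 < (S.card : ℝ)) (hCuS : 3 * Cu ≤ e * S.card)
    (hlow : ∀ k ∈ S, (1 - e) * (Y * V k) - ρ ≤ ((F k).card : ℝ)) (hup : ∀ k ∈ S, ((F k).card : ℝ) ≤ (1 + e) * (Y * V k) + ρ)
    (hb0 : ∀ k j, 0 ≤ b k j) (hB : 0 < B)
    (hpair : ∀ k ∈ S, ∀ j ∈ S, k < j → ((F k ∩ F j).card : ℝ) ≤ (1 + e) * (Y * (V k * V j * (1 + B * b k j))) + ρ)
    (hsum : ∑ p ∈ (S ×ˢ S).filter (fun p => p.1 < p.2), b p.1 p.2 ≤ W) (hW : 4 * (B * W) ≤ e * (S.card : ℝ) ^ 2) :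
    (1 - 9 * e) * Y ≤ ((S.biUnion F).card : ℝ) := by
  classical
  obtain ⟨u, hu⟩ : ∃ u : ℕ → ℝ, u = fun k => 1 / V k := ⟨_, rfl⟩
  have hu0 : ∀ k ∈ S, 0 < u k := fun k hk => by
    rw [hu]
    exact one_div_pos.2 (hV k hk)
  have huV : ∀ k ∈ S, u k * V k = 1 := fun k hk => by
    rw [hu]
    exact one_div_mul_cancel (hV k hk).ne'
  have huC : ∀ k ∈ S, u k ≤ Cu := fun k hk => by
    rw [hu]
    exact hVC k hk
  have hρ1 : ∀ k ∈ S, u k * ρ ≤ e * Y := by
    intro k hk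
    have h1 : u k * ρ ≤ Cu * ρ := mul_le_mul_of_nonneg_right (huC k hk) hρ
    have h2 : Cu * ρ ≤ Cu ^ 2 * ρ := by
      refine mul_le_mul_of_nonneg_right ?_ hρ
      nlinarith
    linarith
  have hρ2 : ∀ k ∈ S, ∀ j ∈ S, u k * u j * ρ ≤ e * Y := by
    intro k hk j hj
    refine le_trans ?_ hρY
    refine mul_le_mul_of_nonneg_right ?_ hρ
    rw [sq]
    exact mul_le_mul (huC k hk) (huC j hj) (hu0 j hj).le (by linarith)
  -- first moment
  have hR1 : (1 - 2 * e) * Y * S.card ≤ ∑ k ∈ S, u k * ((F k).card : ℝ) := by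
    calc (1 - 2 * e) * Y * S.card = ∑ _k ∈ S, (1 - 2 * e) * Y := by rw [sum_const, nsmul_eq_mul]; ring
      _ ≤ _ := by
          refine sum_le_sum (fun k hk => ?_)
          have h1 := mul_le_mul_of_nonneg_left (hlow k hk) (hu0 k hk).le
          have e1 : u k * ((1 - e) * (Y * V k) - ρ) = (1 - e) * Y * (u k * V k) - u k * ρ := by ring
          rw [e1, huV k hk] at h1
          linarith [hρ1 k hk]
  -- second moment
  have hR2 : ∑ k ∈ S, ∑ j ∈ S, u k * u j * ((F k ∩ F j).card : ℝ) ≤ Y * (S.card : ℝ) ^ 2 * (1 + 4 * e) := by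
    have h0 : ∀ k ∈ S, ∀ j ∈ S, k < j → u k * u j * ((F k ∩ F j).card : ℝ) ≤ Y * (1 + 2 * e) + 2 * B * Y * b k j := by
      intro k hk j hj hkj
      have huu : 0 ≤ u k * u j := mul_nonneg (hu0 k hk).le (hu0 j hj).le
      have h1 := mul_le_mul_of_nonneg_left (hpair k hk j hj hkj) huu
      have e1 : u k * u j * ((1 + e) * (Y * (V k * V j * (1 + B * b k j))) + ρ) =
          (1 + e) * Y * (u k * V k) * (u j * V j) * (1 + B * b k j) + u k * u j * ρ := by ring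
      rw [e1, huV k hk, huV j hj] at h1
      have h2 := hρ2 k hk j hj
      have h3 : 0 ≤ B * b k j := mul_nonneg hB.le (hb0 k j)
      have h4 : (1 + e) * Y * 1 * 1 * (1 + B * b k j) ≤ Y * (1 + e) + 2 * B * Y * b k j := by
        have h5 : (1 + e) * Y * (B * b k j) ≤ 2 * Y * (B * b k j) := by
          refine mul_le_mul_of_nonneg_right ?_ h3
          nlinarith
        nlinarith
      linarith
    have h1 : ∀ k ∈ S, ∀ j ∈ S, u k * u j * ((F k ∩ F j).card : ℝ) ≤ (if k = j then 3 * Cu * Y else 0) + Y * (1 + 2 * e) +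
        (2 * B * Y * (if k < j then b k j else 0) + 2 * B * Y * (if j < k then b j k else 0)) := by
      intro k hk j hj
      have hBY : 0 < 2 * B * Y := by positivity
      rcases lt_trichotomy k j with h | h | h
      · rw [if_neg h.ne, if_pos h, if_neg h.not_gt]
        linarith [h0 k hk j hj h]
      · subst h
        rw [if_pos rfl, if_neg (lt_irrefl k), inter_self]
        have h2 := mul_le_mul_of_nonneg_left (hup k hk) (mul_nonneg (hu0 k hk).le (hu0 k hk).le)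
        have e1 : u k * u k * ((1 + e) * (Y * V k) + ρ) = (1 + e) * Y * u k * (u k * V k) + u k * u k * ρ := by ring
        rw [e1, huV k hk] at h2
        have h3 := hρ2 k hk k hk
        have h4 : (1 + e) * Y * u k * 1 ≤ 2 * Y * Cu := by
          have h5 : (1 + e) * Y ≤ 2 * Y := by nlinarith
          calc (1 + e) * Y * u k * 1 = (1 + e) * Y * u k := by ring
            _ ≤ 2 * Y * Cu := mul_le_mul h5 (huC k hk) (hu0 k hk).le (by positivity)
        have h6 : e * Y ≤ Cu * Y := mul_le_mul_of_nonneg_right (by linarith) hY.le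
        have h7 : 0 ≤ Y * (1 + 2 * e) := by positivity
        linarith
      · rw [if_neg h.ne', if_neg h.not_gt, if_pos h, inter_comm, mul_comm (u k) (u j)]
        linarith [h0 j hj k hk h]
    refine (sum_le_sum (fun k hk => sum_le_sum (fun j hj => h1 k hk j hj))).trans ?_
    have s1 : ∑ k ∈ S, ∑ j ∈ S, (if k < j then b k j else 0) = ∑ p ∈ (S ×ˢ S).filter (fun p => p.1 < p.2), b p.1 p.2 := by
      rw [sum_filter, sum_product]
    have s2 : ∑ k ∈ S, ∑ j ∈ S, (if j < k then b j k else 0) = ∑ p ∈ (S ×ˢ S).filter (fun p => p.1 < p.2), b p.1 p.2 := by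
      rw [sum_comm, ← s1]
    have s3 : ∑ k ∈ S, ∑ j ∈ S, (if k = j then 3 * Cu * Y else 0) = S.card * (3 * Cu * Y) := by
      rw [← nsmul_eq_mul, ← sum_const]
      refine sum_congr rfl (fun k hk => ?_)
      rw [sum_ite_eq, if_pos hk]
    have s4 : ∀ Z : ℝ, ∑ _k ∈ S, ∑ _j ∈ S, Z = (S.card : ℝ) ^ 2 * Z := by
      intro Z
      rw [sum_const, sum_const, nsmul_eq_mul, nsmul_eq_mul]
      ring
    have s6 : ∀ Z Z2 : ℝ, ∑ k ∈ S, ∑ j ∈ S, ((if k = j then 3 * Cu * Y else 0) + Z +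
        (Z2 * (if k < j then b k j else 0) + Z2 * (if j < k then b j k else 0))) =
        S.card * (3 * Cu * Y) + (S.card : ℝ) ^ 2 * Z +
          2 * Z2 * ∑ p ∈ (S ×ˢ S).filter (fun p => p.1 < p.2), b p.1 p.2 := by
      intro Z Z2
      simp only [sum_add_distrib, ← mul_sum]
      rw [s1, s2, s3, s4]
      ring
    have s5 : ∑ k ∈ S, ∑ j ∈ S, ((if k = j then 3 * Cu * Y else 0) + Y * (1 + 2 * e) +
        (2 * B * Y * (if k < j then b k j else 0) + 2 * B * Y * (if j < k then b j k else 0))) =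
        S.card * (3 * Cu * Y) + (S.card : ℝ) ^ 2 * (Y * (1 + 2 * e)) +
          4 * B * Y * ∑ p ∈ (S ×ˢ S).filter (fun p => p.1 < p.2), b p.1 p.2 := by
      rw [s6]
      ring
    rw [s5]
    have t1 : (S.card : ℝ) * (3 * Cu * Y) ≤ S.card * (e * S.card * Y) :=
      mul_le_mul_of_nonneg_left (mul_le_mul_of_nonneg_right hCuS hY.le) hS.le
    have t2 : 4 * B * Y * ∑ p ∈ (S ×ˢ S).filter (fun p => p.1 < p.2), b p.1 p.2 ≤ Y * (e * (S.card : ℝ) ^ 2) := by
      calc 4 * B * Y * ∑ p ∈ (S ×ˢ S).filter (fun p => p.1 < p.2), b p.1 p.2 ≤ 4 * B * Y * W :=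
            mul_le_mul_of_nonneg_left hsum (by positivity)
        _ = Y * (4 * (B * W)) := by ring
        _ ≤ _ := mul_le_mul_of_nonneg_left hW hY.le
    nlinarith
  have hcs := csw S F u
  have hU0 : (0 : ℝ) ≤ ((S.biUnion F).card : ℝ) := Nat.cast_nonneg _
  have h1 : ((1 - 2 * e) * Y * S.card) ^ 2 ≤ ((S.biUnion F).card : ℝ) * (Y * (S.card : ℝ) ^ 2 * (1 + 4 * e)) := by
    refine le_trans (pow_le_pow_left₀ ?_ hR1 2) (hcs.trans (mul_le_mul_of_nonneg_left hR2 hU0))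
    have : 0 ≤ 1 - 2 * e := by linarith
    positivity
  have h2 : (1 - 2 * e) ^ 2 * Y ≤ ((S.biUnion F).card : ℝ) * (1 + 4 * e) := by
    have h3 : 0 < Y * (S.card : ℝ) ^ 2 := by positivity
    refine le_of_mul_le_mul_right ?_ h3
    nlinarith
  have h3 : (1 - 9 * e) * Y * (1 + 4 * e) ≤ (1 - 2 * e) ^ 2 * Y := by
    have : (1 - 9 * e) * (1 + 4 * e) ≤ (1 - 2 * e) ^ 2 := by nlinarith
    nlinarith
  have h4 : (1 - 9 * e) * Y * (1 + 4 * e) ≤ ((S.biUnion F).card : ℝ) * (1 + 4 * e) := h3.trans h2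
  exact le_of_mul_le_mul_right h4 (by linarith)

end H78AP
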